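import Pool.Agent.H932.L.PlkL

/-!
# Zero schemes of sections on lines, by polynomials in one variable

The line through `y` and `w` is parametrised by `y + T w`.
-/

open MvPolynomial H960VB H960VB.Bundle2 Y208PT Pool.Agent.H106R3.VB H932V H932W H932L

namespace H932S

variable {n : ℕ}

/-- the polynomial `1 + c 0 T + c 1 T ^ 2 + ...` -/
noncomputable def cb {k : ℕ} (c : Fin k → ℂ) : Polynomial ℂ :=
  1 + ∑ h : Fin k, Polynomial.C (c h) * Polynomial.X ^ ((h : ℕ) + 1)

/-- the polynomials with the coefficient array `f` -/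
noncomputable def pol (E : Bundle2 n) {j : ℤ} (f : Idx E.β j → ℂ) (i : Fin E.a) : Polynomial ℂ :=
  ∑ b : Fin (E.β i + j + 1).toNat, Polynomial.C (f ⟨i, b⟩) * Polynomial.X ^ (b : ℕ)

/-- On the line through `y` and `w` the section `s` is divisible by the form `cb c` of degree `k`,
with the quotient `f`. -/
def Dv (E : Bundle2 n) (s : Fin E.a → MvPolynomial (Fin (n + 1)) ℂ) (r : ℤ) (k : ℕ)
    (y w : Fin (n + 1) → ℂ) (c : Fin k → ℂ) (f : Idx E.β (r - k) → ℂ) : Prop :=
  ∀ i, lp y w (s i) = cb c * pol E f i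

theorem pol_coeff (E : Bundle2 n) {j : ℤ} (f : Idx E.β j → ℂ) (i : Fin E.a) (m : ℕ) :
    (pol E f i).coeff m = E.cf f m i := by
  classical
  unfold pol cf
  rw [Polynomial.finsetSum_coeff]
  by_cases h : m < (E.β i + j + 1).toNat
  · rw [dif_pos h, Finset.sum_eq_single ⟨m, h⟩]
    · rw [Polynomial.coeff_C_mul_X_pow, if_pos rfl]
    · intro b _ hb
      rw [Polynomial.coeff_C_mul_X_pow, if_neg]
      intro h1
      exact hb (Fin.ext h1.symm)
    · intro h1
      exact absurd (Finset.mem_univ _) h1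
  · rw [dif_neg h]
    refine Finset.sum_eq_zero fun b _ => ?_
    rw [Polynomial.coeff_C_mul_X_pow, if_neg]
    intro h1
    exact h (h1 ▸ b.2)

theorem pol_inj (E : Bundle2 n) {j : ℤ} {f f' : Idx E.β j → ℂ} (h : ∀ i, pol E f i = pol E f' i) :
    f = f' := by
  funext ⟨i, b⟩
  have h1 := congrArg (fun p => Polynomial.coeff p (b : ℕ)) (h i)
  simp only [pol_coeff] at h1
  simpa [cf, b.2] using h1

theorem pol_coeff_eq_zero (E : Bundle2 n) {j : ℤ} (f : Idx E.β j → ℂ) (i : Fin E.a) {m : ℕ}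
    (h : (E.β i + j + 1).toNat ≤ m) : (pol E f i).coeff m = 0 := by
  rw [pol_coeff]
  unfold cf
  rw [dif_neg (by omega)]

/-- the array with given polynomials -/
theorem exists_pol (E : Bundle2 n) (j : ℤ) (p : Fin E.a → Polynomial ℂ)
    (hp : ∀ i m, (E.β i + j + 1).toNat ≤ m → (p i).coeff m = 0) :
    ∃ f : Idx E.β j → ℂ, ∀ i, pol E f i = p i := by
  refine ⟨fun x => (p x.1).coeff (x.2 : ℕ), fun i => ?_⟩
  ext m
  rw [pol_coeff]
  unfold cf
  by_cases h : m < (E.β i + j + 1).toNat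
  · rw [dif_pos h]
  · rw [dif_neg h, hp i m (by omega)]

theorem pol_add (E : Bundle2 n) {j : ℤ} (f f' : Idx E.β j → ℂ) (i : Fin E.a) :
    pol E (f + f') i = pol E f i + pol E f' i := by
  unfold pol
  rw [← Finset.sum_add_distrib]
  refine Finset.sum_congr rfl fun b _ => ?_
  rw [Pi.add_apply, Polynomial.C_add, add_mul]

theorem pol_smul (E : Bundle2 n) {j : ℤ} (c : ℂ) (f : Idx E.β j → ℂ) (i : Fin E.a) :
    pol E (c • f) i = Polynomial.C c * pol E f i := by
  unfold pol
  rw [Finset.mul_sum]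
  refine Finset.sum_congr rfl fun b _ => ?_
  rw [Pi.smul_apply, smul_eq_mul, Polynomial.C_mul, mul_assoc]

theorem pol_mt (E : Bundle2 n) {j j' : ℤ} (f : Idx E.β j → ℂ) (b : ℕ) (hj : j + b ≤ j')
    (i : Fin E.a) : pol E (E.mt f b j') i = Polynomial.X ^ b * pol E f i := by
  ext m
  rw [pol_coeff, Polynomial.coeff_X_pow_mul']
  by_cases hbm : b ≤ m
  · rw [if_pos hbm, pol_coeff]
    by_cases h : m < (E.β i + j' + 1).toNat
    · rw [cf_mt E j' f b m i h, if_pos hbm]
    · have h1 : E.cf (E.mt f b j') m i = 0 := dif_neg h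
      have h2 : E.cf f (m - b) i = 0 := dif_neg (by omega)
      rw [h1, h2]
  · rw [if_neg hbm, cf_mt_lt E j' f b m (by omega)]
    rfl

theorem cb_coeff_zero {k : ℕ} (c : Fin k → ℂ) : (cb c).coeff 0 = 1 := by
  unfold cb
  rw [Polynomial.coeff_add, Polynomial.finsetSum_coeff, Finset.sum_eq_zero, Polynomial.coeff_one,
    if_pos rfl, add_zero]
  intro h _
  rw [Polynomial.coeff_C_mul_X_pow, if_neg (by omega)]

theorem cb_coeff_succ {k : ℕ} (c : Fin k → ℂ) (m : ℕ) :
    (cb c).coeff (m + 1) = if h : m < k then c ⟨m, h⟩ else 0 := by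
  classical
  unfold cb
  rw [Polynomial.coeff_add, Polynomial.finsetSum_coeff, Polynomial.coeff_one, if_neg (by omega),
    zero_add]
  by_cases h : m < k
  · rw [dif_pos h, Finset.sum_eq_single ⟨m, h⟩]
    · rw [Polynomial.coeff_C_mul_X_pow, if_pos rfl]
    · intro b _ hb
      rw [Polynomial.coeff_C_mul_X_pow, if_neg]
      intro h1
      apply hb
      apply Fin.ext
      simp only
      omega
    · intro h1
      exact absurd (Finset.mem_univ _) h1
  · rw [dif_neg h]
    refine Finset.sum_eq_zero fun b _ => ?_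
    rw [Polynomial.coeff_C_mul_X_pow, if_neg]
    have := b.2
    omega

/-- the coefficients of a polynomial of degree at most `k` with the value one at zero -/
theorem exists_cb {k : ℕ} (p : Polynomial ℂ) (hp : p.natDegree ≤ k) (h0 : p.coeff 0 = 1) :
    ∃ c : Fin k → ℂ, cb c = p := by
  refine ⟨fun h => p.coeff ((h : ℕ) + 1), ?_⟩
  ext m
  rcases m with _ | m
  · rw [cb_coeff_zero, h0]
  · rw [cb_coeff_succ]
    split_ifs with h
    · rfl
    · exact (Polynomial.coeff_eq_zero_of_natDegree_lt (by omega)).symm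

theorem cb_natDegree {k : ℕ} (c : Fin k → ℂ) : (cb c).natDegree ≤ k := by
  rw [Polynomial.natDegree_le_iff_coeff_eq_zero]
  intro m hm
  obtain ⟨m, rfl⟩ : ∃ m', m = m' + 1 := ⟨m - 1, by omega⟩
  rw [cb_coeff_succ, dif_neg (by omega)]

theorem cb_ne_zero {k : ℕ} (c : Fin k → ℂ) : cb c ≠ 0 := by
  intro h
  have := cb_coeff_zero c
  rw [h, Polynomial.coeff_zero] at this
  exact zero_ne_one this

theorem lp_coeff_zero (y w : Fin (n + 1) → ℂ) (p : MvPolynomial (Fin (n + 1)) ℂ) :
    (lp y w p).coeff 0 = eval y p := by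
  rw [Polynomial.coeff_zero_eq_eval_zero, eval_lp]
  congr 1
  congr 1
  funext l
  simp

theorem pol_zero_of_dv {E : Bundle2 n} {s : Fin E.a → MvPolynomial (Fin (n + 1)) ℂ} {r : ℤ} {k : ℕ}
    {y w : Fin (n + 1) → ℂ} {c : Fin k → ℂ} {f : Idx E.β (r - k) → ℂ} (h : Dv E s r k y w c f)
    (i : Fin E.a) : (pol E f i).coeff 0 = eval y (s i) := by
  rw [← lp_coeff_zero y w, h i, Polynomial.mul_coeff_zero, cb_coeff_zero, one_mul]

/-- a section on the line, by polynomials -/
theorem kr_iff_pol (E : Bundle2 n) {j : ℤ} (y w : Fin (n + 1) → ℂ) (f : Idx E.β j → ℂ) :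
    Kr E j y w f ↔ ∀ c, ∑ i, lp y w (E.B c i) * pol E f i = 0 := by
  classical
  have key : ∀ (c : Fin E.c) (m : ℕ), (∑ i, lp y w (E.B c i) * pol E f i).coeff m =
      ∑ x : Idx E.β j, (if (x.2 : ℕ) ≤ m then (lp y w (E.B c x.1)).coeff (m - (x.2 : ℕ)) else 0) *
        f x := by
    intro c m
    rw [Polynomial.finsetSum_coeff, Fintype.sum_sigma]
    refine Finset.sum_congr rfl fun i _ => ?_
    unfold pol
    rw [Finset.mul_sum, Polynomial.finsetSum_coeff]
    refine Finset.sum_congr rfl fun b _ => ?_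
    rw [← mul_assoc, Polynomial.coeff_mul_X_pow']
    split_ifs with h
    · rw [Polynomial.coeff_mul_C]
    · rw [zero_mul]
  have hfam : ∀ (c : Idx E.γ j), (evm (fam2 E j) (Sum.elim y w)).mulVec f c =
      (∑ i, lp y w (E.B c.1 i) * pol E f i).coeff (c.2 : ℕ) := by
    intro c
    rw [key]
    refine Finset.sum_congr rfl fun x _ => ?_
    have h1 : evm (fam2 E j) (Sum.elim y w) c x =
        if (x.2 : ℕ) ≤ (c.2 : ℕ) then (lp y w (E.B c.1 x.1)).coeff ((c.2 : ℕ) - (x.2 : ℕ)) else 0 := by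
      simp only [evm, Matrix.map_apply, fam2]
      split_ifs with h
      · rw [coeff_eval_sb]
      · rw [map_zero]
    exact congrArg (· * f x) h1
  have hdeg : ∀ (c : Fin E.c) (m : ℕ), (E.γ c + j + 1).toNat ≤ m →
      (∑ i, lp y w (E.B c i) * pol E f i).coeff m = 0 := by
    intro c m hm
    rw [key]
    refine Finset.sum_eq_zero fun x _ => ?_
    split_ifs with h
    · rcases E.hom c x.1 with h0 | ⟨d, hd, hp⟩
      · rw [h0, map_zero, Polynomial.coeff_zero, zero_mul]
      · have h2 := natDegree_lp y w hp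
        have h3 := x.2.2
        rw [Polynomial.coeff_eq_zero_of_natDegree_lt (by omega), zero_mul]
    · rw [zero_mul]
  constructor
  · intro h c
    ext m
    rw [Polynomial.coeff_zero]
    by_cases hm : m < (E.γ c + j + 1).toNat
    · have h1 := congrFun h ⟨c, ⟨m, hm⟩⟩
      rw [hfam] at h1
      exact h1
    · exact hdeg c m (by omega)
  · intro h
    funext c
    rw [hfam, h c.1, Polynomial.coeff_zero]
    rfl

/-- the quotient is a section -/
theorem kr_of_dv {E : Bundle2 n} {s : Fin E.a → MvPolynomial (Fin (n + 1)) ℂ} {r : ℤ}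
    (hs : E.IsSection r s) {k : ℕ} {y w : Fin (n + 1) → ℂ} (hyw : LinearIndependent ℂ ![y, w])
    {c : Fin k → ℂ} {f : Idx E.β (r - k) → ℂ} (h : Dv E s r k y w c f) :
    Kr E (r - k) y w f := by
  rw [kr_iff_pol]
  intro q
  apply mul_left_cancel₀ (cb_ne_zero c)
  rw [mul_zero, Finset.mul_sum]
  have h1 : ∑ i, cb c * (lp y w (E.B q i) * pol E f i) = lp y w (∑ i, E.B q i * s i) := by
    rw [map_sum]
    refine Finset.sum_congr rfl fun i _ => ?_
    rw [map_mul, h i]
    ring
  rw [h1]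
  apply Polynomial.funext
  intro t
  rw [eval_lp, Polynomial.eval_zero]
  have hne : (fun l => y l + w l * t) ≠ 0 := by
    intro h0
    rw [LinearIndependent.pair_iff] at hyw
    have h2 := (hyw 1 t (by
      funext l
      have h3 := congrFun h0 l
      simp only [Pi.add_apply, Pi.smul_apply, smul_eq_mul, Pi.zero_apply] at h3 ⊢
      linear_combination h3)).1
    exact one_ne_zero h2
  have h4 := hs.2 _ hne
  have h5 := congrFun (LinearMap.mem_ker.1 h4) q
  simp only [Matrix.mulVecLin_apply, Matrix.mulVec, dotProduct, Pi.zero_apply] at h5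
  rw [map_sum, ← h5]
  refine Finset.sum_congr rfl fun i _ => ?_
  rw [map_mul]
  rfl

end H932S
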