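import Pool.Agent.H932.S.Stm

/-!
# The basis of the sections (written by helper551)
-/

set_option autoImplicit false

open MvPolynomial H960VB H960VB.Bundle2 Y208PT Pool.Agent.H106R3.VB H932V H932W H932L

namespace H932S

variable {n : ℕ}

/-- Bezout: polynomials without common zero -/
theorem bas_bez {I : Type*} [Fintype I] (p : I → Polynomial ℂ)
    (h : ∀ t : ℂ, ∃ i, (p i).eval t ≠ 0) : ∃ q : I → Polynomial ℂ, ∑ i, q i * p i = 1 := by
  have h1 : Ideal.span (Set.range p) = ⊤ := by
    obtain ⟨g, hg⟩ := (IsPrincipalIdealRing.principal (Ideal.span (Set.range p))).principal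
    have hg' : Ideal.span (Set.range p) = Ideal.span {g} := hg
    have hdvd : ∀ i, g ∣ p i := fun i => by
      rw [← Ideal.mem_span_singleton, ← hg']
      exact Ideal.subset_span ⟨i, rfl⟩
    by_cases h0 : g.degree = 0
    · rw [hg', Ideal.span_singleton_eq_top]
      exact Polynomial.isUnit_iff_degree_eq_zero.mpr h0
    · exfalso
      obtain ⟨t, ht⟩ := IsAlgClosed.exists_root g h0
      obtain ⟨i, hi⟩ := h t
      exact hi (Polynomial.eval_eq_zero_of_dvd_of_eval_eq_zero (hdvd i) ht)
  have h2 : (1 : Polynomial ℂ) ∈ Ideal.span (Set.range p) := by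
    rw [h1]
    trivial
  obtain ⟨q, hq⟩ := (Submodule.mem_span_range_iff_exists_fun _).mp h2
  exact ⟨q, hq⟩

/-- the top coefficient on a line -/
theorem bas_top (y w : Fin (n + 1) → ℂ) {p : MvPolynomial (Fin (n + 1)) ℂ} {d : ℕ}
    (hp : p.IsHomogeneous d) : (lp y w p).coeff d = eval w p := by
  set R := lp w y p with hR
  set P' : Polynomial ℂ := ∑ m ∈ Finset.range (d + 1), Polynomial.C (R.coeff m) *
    Polynomial.X ^ (d - m) with hP'
  have hRd : R.natDegree ≤ d := natDegree_lp w y hp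
  have hev : ∀ s : ℂ, s ≠ 0 → (lp y w p).eval s = P'.eval s := by
    intro s hs
    have e1 : P'.eval s = s ^ d * R.eval s⁻¹ := by
      rw [hP', Polynomial.eval_finsetSum, Polynomial.eval_eq_sum_range' (Nat.lt_succ_of_le hRd),
        Finset.mul_sum]
      refine Finset.sum_congr rfl fun m hm => ?_
      rw [Finset.mem_range] at hm
      rw [Polynomial.eval_mul, Polynomial.eval_C, Polynomial.eval_pow, Polynomial.eval_X,
        inv_pow, pow_sub₀ s hs (by omega)]
      ring
    rw [e1, hR, eval_lp, eval_lp]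
    have h1 : (fun l => y l + w l * s) = s • (fun l => w l + y l * s⁻¹) := by
      funext l
      simp only [Pi.smul_apply, smul_eq_mul]
      field_simp
      ring
    rw [h1]
    exact Y208PT.eval_smul_hom hp s (fun l => w l + y l * s⁻¹)
  have heq : Polynomial.X * lp y w p = Polynomial.X * P' := by
    apply Polynomial.funext
    intro s
    rw [Polynomial.eval_mul, Polynomial.eval_mul, Polynomial.eval_X]
    rcases eq_or_ne s 0 with h | h
    · rw [h, zero_mul, zero_mul]
    · rw [hev s h]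
  have heq2 : lp y w p = P' := mul_left_cancel₀ Polynomial.X_ne_zero heq
  rw [heq2, hP', Polynomial.finsetSum_coeff, Finset.sum_eq_single 0]
  · rw [Nat.sub_zero, Polynomial.coeff_C_mul_X_pow, if_pos rfl, hR, lp_coeff_zero]
  · intro m hm hm0
    rw [Finset.mem_range] at hm
    rw [Polynomial.coeff_C_mul_X_pow, if_neg (by omega)]
  · intro h
    exact absurd (Finset.mem_range.mpr (by omega)) h

theorem bas_pt_ne {y w : Fin (n + 1) → ℂ} (hyw : LinearIndependent ℂ ![y, w]) (t : ℂ) :
    (fun l => y l + w l * t) ≠ 0 := by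
  intro h0
  rw [LinearIndependent.pair_iff] at hyw
  have h2 := (hyw 1 t (by
    funext l
    have h3 := congrFun h0 l
    simp only [Pi.add_apply, Pi.smul_apply, smul_eq_mul, Pi.zero_apply] at h3 ⊢
    linear_combination h3)).1
  exact one_ne_zero h2

/-- a section has its values in the fibres -/
theorem bas_fib (E : Bundle2 n) {j : ℤ} {y w : Fin (n + 1) → ℂ} {u : Idx E.β j → ℂ}
    (hu : Kr E j y w u) (t : ℂ) :
    (fun i => (pol E u i).eval t) ∈ E.fib (fun l => y l + w l * t) := by
  rw [kr_iff_pol] at hu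
  apply LinearMap.mem_ker.2
  funext c
  have h1 := congrArg (Polynomial.eval t) (hu c)
  rw [Polynomial.eval_zero, Polynomial.eval_finsetSum] at h1
  simp only [Matrix.mulVecLin_apply, Matrix.mulVec, dotProduct, Pi.zero_apply]
  rw [← h1]
  refine Finset.sum_congr rfl fun i _ => ?_
  rw [Polynomial.eval_mul, eval_lp]
  rfl

/-- the degree of a coordinate of a section -/
theorem bas_deg (E : Bundle2 n) {j : ℤ} (u : Idx E.β j → ℂ) (i : Fin E.a) (h : pol E u i ≠ 0) :
    (((pol E u i).natDegree : ℕ) : ℤ) ≤ E.β i + j := by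
  by_contra hcon
  have h1 : (E.β i + j + 1).toNat ≤ (pol E u i).natDegree := by omega
  have h2 := pol_coeff_eq_zero E u i h1
  rw [Polynomial.coeff_natDegree, Polynomial.leadingCoeff_eq_zero] at h2
  exact h h2

/-- the degree of the wedge product -/
theorem bas_wdeg (E : Bundle2 n) {j j' : ℤ} (u : Idx E.β j → ℂ) (f : Idx E.β j' → ℂ)
    (a b : Fin E.a) {m : ℕ} (hm : E.β a + E.β b + j + j' < m) :
    (pol E u a * pol E f b).coeff m = 0 := by
  by_cases h1 : pol E u a = 0
  · rw [h1, zero_mul, Polynomial.coeff_zero]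
  by_cases h2 : pol E f b = 0
  · rw [h2, mul_zero, Polynomial.coeff_zero]
  apply Polynomial.coeff_eq_zero_of_natDegree_lt
  have e1 := bas_deg E u a h1
  have e2 := bas_deg E f b h2
  have e3 := Polynomial.natDegree_mul_le (p := pol E u a) (q := pol E f b)
  omega

/-- the coefficients of a section -/
noncomputable def bas_pol (E : Bundle2 n) (j : ℤ) (i : Fin E.a) :
    (Idx E.β j → ℂ) →ₗ[ℂ] Polynomial ℂ where
  toFun u := pol E u i
  map_add' u v := pol_add E u v i
  map_smul' c u := by rw [pol_smul, RingHom.id_apply, Polynomial.smul_eq_C_mul]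

/-- the multiplier -/
noncomputable def bas_q (E : Bundle2 n) (j : ℤ) {j' : ℤ} (f : Idx E.β j' → ℂ)
    (Bz : (Fin 2 → Fin E.a) → Polynomial ℂ) : (Idx E.β j → ℂ) →ₗ[ℂ] Polynomial ℂ :=
  ∑ J, (LinearMap.mulLeft ℂ (Bz J)).comp
    ((LinearMap.mulRight ℂ (pol E f (J 1))).comp (bas_pol E j (J 0)) -
      (LinearMap.mulRight ℂ (pol E f (J 0))).comp (bas_pol E j (J 1)))

theorem bas_q_apply (E : Bundle2 n) (j : ℤ) {j' : ℤ} (f : Idx E.β j' → ℂ)
    (Bz : (Fin 2 → Fin E.a) → Polynomial ℂ) (u : Idx E.β j → ℂ) :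
    bas_q E j f Bz u =
      ∑ J, Bz J * (pol E u (J 0) * pol E f (J 1) - pol E u (J 1) * pol E f (J 0)) := by
  unfold bas_q
  rw [LinearMap.sum_apply]
  rfl

/-- the factor of a section proportional to `f` -/
noncomputable def bas_p (E : Bundle2 n) (j : ℤ) (A : Fin E.a → Polynomial ℂ) :
    (Idx E.β j → ℂ) →ₗ[ℂ] Polynomial ℂ :=
  ∑ i, (LinearMap.mulLeft ℂ (A i)).comp (bas_pol E j i)

theorem bas_p_apply (E : Bundle2 n) (j : ℤ) (A : Fin E.a → Polynomial ℂ) (u : Idx E.β j → ℂ) :
    bas_p E j A u = ∑ i, A i * pol E u i := by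
  unfold bas_p
  rw [LinearMap.sum_apply]
  rfl

/-- the first `N` coefficients -/
noncomputable def bas_co (N : ℕ) : Polynomial ℂ →ₗ[ℂ] (Fin N → ℂ) :=
  LinearMap.pi fun b => Polynomial.lcoeff ℂ (b : ℕ)

theorem bas_co_apply (N : ℕ) (p : Polynomial ℂ) (b : Fin N) : bas_co N p b = p.coeff (b : ℕ) := rfl

theorem s_Basis : S_Basis := by
  intro n E c₁ D r k j N T hN hT y w hok f hf hnz
  obtain ⟨hyw, hfr⟩ := hok
  obtain ⟨hnz1, i₀, hi₀, hi₀'⟩ := hnz
  have hw0 : w ≠ 0 := by
    intro h
    rw [LinearIndependent.pair_iff] at hyw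
    exact one_ne_zero (hyw 0 1 (by rw [h]; simp)).2
  -- Bezout for the Plücker vector
  have hδ1 : ∀ t : ℂ, ∃ J, (lp y w (D.δ J)).eval t ≠ 0 := by
    intro t
    obtain ⟨J, hJ⟩ := D.ne _ (bas_pt_ne hyw t)
    refine ⟨J, ?_⟩
    rw [eval_lp]
    exact hJ
  obtain ⟨Bz, hBz⟩ := bas_bez (fun J => lp y w (D.δ J)) hδ1
  obtain ⟨A, hA⟩ := bas_bez (fun i => pol E f i) hnz1
  -- the wedge product with `f`
  have hwed : ∀ u : Idx E.β j → ℂ, Kr E j y w u → ∀ J : Fin 2 → Fin E.a,
      pol E u (J 0) * pol E f (J 1) - pol E u (J 1) * pol E f (J 0) =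
        bas_q E j f Bz u * lp y w (D.δ J) := by
    intro u hu J
    apply Polynomial.funext
    intro t
    obtain ⟨κ, hκ⟩ := D.wed _ (bas_pt_ne hyw t) _ (bas_fib E hu t) _ (bas_fib E hf t)
    have e1 : (bas_q E j f Bz u).eval t = κ := by
      rw [bas_q_apply, Polynomial.eval_finsetSum]
      have e2 : ∀ J : Fin 2 → Fin E.a,
          (Bz J * (pol E u (J 0) * pol E f (J 1) - pol E u (J 1) * pol E f (J 0))).eval t =
            κ * (Bz J * lp y w (D.δ J)).eval t := by
        intro J
        rw [Polynomial.eval_mul, Polynomial.eval_sub, Polynomial.eval_mul, Polynomial.eval_mul,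
          hκ J, Polynomial.eval_mul, eval_lp]
        ring
      rw [Finset.sum_congr rfl (fun J _ => e2 J), ← Finset.mul_sum, ← Polynomial.eval_finsetSum,
        hBz, Polynomial.eval_one, mul_one]
    rw [Polynomial.eval_sub, Polynomial.eval_mul, Polynomial.eval_mul, hκ J, Polynomial.eval_mul,
      e1, eval_lp]
  -- the degree of the multiplier
  have hqdeg : ∀ u : Idx E.β j → ℂ, Kr E j y w u → ∀ m, T ≤ m →
      (bas_q E j f Bz u).coeff m = 0 := by
    intro u hu m hm
    obtain ⟨J, hJ⟩ := D.ne w hw0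
    rcases D.hom J with h0 | ⟨d, hd, hhom⟩
    · exact absurd (by rw [h0, map_zero]) hJ
    have htop : (lp y w (D.δ J)).coeff d ≠ 0 := by
      rw [bas_top y w hhom]
      exact hJ
    by_cases hq0 : bas_q E j f Bz u = 0
    · rw [hq0, Polynomial.coeff_zero]
    have hδ0 : lp y w (D.δ J) ≠ 0 := fun h => htop (by rw [h, Polynomial.coeff_zero])
    have hδd : d ≤ (lp y w (D.δ J)).natDegree := Polynomial.le_natDegree_of_ne_zero htop
    have hprod := Polynomial.natDegree_mul hq0 hδ0
    have hprod0 : bas_q E j f Bz u * lp y w (D.δ J) ≠ 0 := mul_ne_zero hq0 hδ0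
    have hle : (((bas_q E j f Bz u * lp y w (D.δ J)).natDegree : ℕ) : ℤ) ≤
        E.β (J 0) + E.β (J 1) + j + (r - k) := by
      by_contra hcon
      push Not at hcon
      have e0 : ∀ M : ℕ, E.β (J 0) + E.β (J 1) + j + (r - k) < M →
          (bas_q E j f Bz u * lp y w (D.δ J)).coeff M = 0 := by
        intro M hM
        rw [← hwed u hu J, Polynomial.coeff_sub, bas_wdeg E u f (J 0) (J 1) hM,
          bas_wdeg E u f (J 1) (J 0) (by omega), sub_zero]
      have e1 := e0 _ hcon
      rw [Polynomial.coeff_natDegree, Polynomial.leadingCoeff_eq_zero] at e1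
      exact hprod0 e1
    apply Polynomial.coeff_eq_zero_of_natDegree_lt
    omega
  -- the map
  set K := LinearMap.ker (Matrix.mulVecLin (evm (fam2 E j) (Sum.elim y w))) with hK
  have hKm : ∀ u : K, Kr E j y w (u : Idx E.β j → ℂ) := fun u => LinearMap.mem_ker.1 u.2
  set Θ : K →ₗ[ℂ] (Fin T → ℂ) := ((bas_co T).comp (bas_q E j f Bz)).comp K.subtype with hΘ
  have hΘq : ∀ u : K, Θ u = 0 → bas_q E j f Bz u = 0 := by
    intro u hu
    ext m
    rw [Polynomial.coeff_zero]
    by_cases hm : m < T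
    · exact congrFun hu ⟨m, hm⟩
    · exact hqdeg u (hKm u) m (by omega)
  -- the kernel
  have hker : ∀ u : K, bas_q E j f Bz u = 0 →
      ∀ i, pol E (u : Idx E.β j → ℂ) i = bas_p E j A u * pol E f i := by
    intro u hu i
    have h1 : ∀ i', pol E (u : Idx E.β j → ℂ) i * pol E f i' =
        pol E (u : Idx E.β j → ℂ) i' * pol E f i := by
      intro i'
      have h2 := hwed u (hKm u) ![i, i']
      rw [hu, zero_mul, sub_eq_zero] at h2
      exact h2
    have h3 : pol E (u : Idx E.β j → ℂ) i =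
        pol E (u : Idx E.β j → ℂ) i * ∑ i', A i' * pol E f i' := by
      rw [hA, mul_one]
    rw [h3, bas_p_apply, Finset.mul_sum, Finset.sum_mul]
    refine Finset.sum_congr rfl fun i' _ => ?_
    linear_combination A i' * h1 i'
  have hpdeg : ∀ u : K, bas_q E j f Bz u = 0 → ∀ m, N ≤ m → (bas_p E j A u).coeff m = 0 := by
    intro u hu m hm
    by_cases hp0 : bas_p E j A u = 0
    · rw [hp0, Polynomial.coeff_zero]
    have hf0 : pol E f i₀ ≠ 0 := fun h => hi₀' (by rw [h, Polynomial.coeff_zero])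
    have hfd : (E.β i₀ + (r - k)).toNat ≤ (pol E f i₀).natDegree :=
      Polynomial.le_natDegree_of_ne_zero hi₀'
    have hprod := Polynomial.natDegree_mul hp0 hf0
    have hu0 : pol E (u : Idx E.β j → ℂ) i₀ ≠ 0 := by
      rw [hker u hu i₀]
      exact mul_ne_zero hp0 hf0
    have hdeg := bas_deg E (u : Idx E.β j → ℂ) i₀ hu0
    rw [hker u hu i₀, hprod] at hdeg
    apply Polynomial.coeff_eq_zero_of_natDegree_lt
    push_cast at hdeg
    omega
  have hkerdim : Module.finrank ℂ (LinearMap.ker Θ) ≤ N := by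
    set Ψ : LinearMap.ker Θ →ₗ[ℂ] (Fin N → ℂ) :=
      (((bas_co N).comp (bas_p E j A)).comp K.subtype).comp (LinearMap.ker Θ).subtype with hΨ
    have hinj : Function.Injective Ψ := by
      rw [injective_iff_map_eq_zero]
      intro u hu
      have hq := hΘq (u : K) (LinearMap.mem_ker.1 u.2)
      have hp : bas_p E j A ((u : K) : Idx E.β j → ℂ) = 0 := by
        ext m
        rw [Polynomial.coeff_zero]
        by_cases hm : m < N
        · exact congrFun hu ⟨m, hm⟩
        · exact hpdeg (u : K) hq m (by omega)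
      have h1 : ((u : K) : Idx E.β j → ℂ) = 0 := by
        apply pol_inj E
        intro i
        rw [hker (u : K) hq i, hp, zero_mul]
        exact (map_zero (bas_pol E j i)).symm
      exact Subtype.ext (Subtype.ext h1)
    have h2 := LinearMap.finrank_le_finrank_of_injective hinj
    rwa [Module.finrank_fin_fun] at h2
  have hrank := LinearMap.finrank_range_add_finrank_ker Θ
  have hsurj : Function.Surjective Θ := by
    rw [← LinearMap.range_eq_top]
    apply Submodule.eq_top_of_finrank_eq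
    have h1 := Submodule.finrank_le (LinearMap.range Θ)
    rw [Module.finrank_fin_fun] at h1 ⊢
    omega
  choose v hv using fun m : Fin T => hsurj (Pi.single m 1)
  refine ⟨fun m => (v m : Idx E.β j → ℂ), fun m => hKm (v m), fun m J => ?_⟩
  rw [hwed _ (hKm (v m)) J]
  congr 1
  ext b
  rw [Polynomial.coeff_X_pow]
  by_cases hb : b < T
  · have h1 := congrFun (hv m) ⟨b, hb⟩
    have h2 : (bas_q E j f Bz (v m)).coeff b = (Pi.single m 1 : Fin T → ℂ) ⟨b, hb⟩ := h1
    rw [h2, Pi.single_apply]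
    by_cases hbm : b = (m : ℕ)
    · rw [if_pos hbm, if_pos (Fin.ext hbm)]
    · rw [if_neg hbm, if_neg (fun h => hbm (congrArg Fin.val h))]
  · rw [hqdeg _ (hKm (v m)) b (by omega), if_neg]
    have := m.2
    omega

end H932S
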