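import Pool.Agent.H932.S.Stm2

/-!
# Multisecant lines of zero schemes of sections: change of the points of a line
-/

open MvPolynomial H960VB H960VB.Bundle2 Y208PT Pool.Agent.H106R3.VB H932V H932W H932L

namespace H932S

/-- the substitution of `b T / (a + σ T)` in a polynomial of degree at most `D`, multiplied by
`(a + σ T) ^ D` -/
noncomputable def mob (a b σ : ℂ) (D : ℕ) (p : Polynomial ℂ) : Polynomial ℂ :=
  ∑ m ∈ Finset.range (D + 1), Polynomial.C (p.coeff m) * (Polynomial.C b * Polynomial.X) ^ m *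
    (Polynomial.C a + Polynomial.C σ * Polynomial.X) ^ (D - m)

theorem natDegree_C_mul_X_le' (b : ℂ) : (Polynomial.C b * Polynomial.X).natDegree ≤ 1 :=
  (Polynomial.natDegree_C_mul_le _ _).trans Polynomial.natDegree_X_le

theorem mob_lin_natDegree (a σ : ℂ) :
    (Polynomial.C a + Polynomial.C σ * Polynomial.X).natDegree ≤ 1 := by
  refine (Polynomial.natDegree_add_le _ _).trans ?_
  rw [Polynomial.natDegree_C]
  exact max_le (Nat.zero_le _) (natDegree_C_mul_X_le' σ)

theorem mob_natDegree (a b σ : ℂ) (D : ℕ) (p : Polynomial ℂ) : (mob a b σ D p).natDegree ≤ D := by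
  unfold mob
  refine Polynomial.natDegree_sum_le_of_forall_le _ _ fun m hm => ?_
  have hm' : m ≤ D := Nat.lt_succ_iff.1 (Finset.mem_range.1 hm)
  have h1 : ((Polynomial.C b * Polynomial.X : Polynomial ℂ) ^ m).natDegree ≤ m := by
    refine Polynomial.natDegree_pow_le.trans ?_
    calc m * (Polynomial.C b * Polynomial.X : Polynomial ℂ).natDegree ≤ m * 1 :=
          Nat.mul_le_mul_left _ (natDegree_C_mul_X_le' b)
      _ = m := Nat.mul_one m
  have h2 : ((Polynomial.C a + Polynomial.C σ * Polynomial.X : Polynomial ℂ) ^ (D - m)).natDegree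
      ≤ D - m := by
    refine Polynomial.natDegree_pow_le.trans ?_
    calc (D - m) * (Polynomial.C a + Polynomial.C σ * Polynomial.X : Polynomial ℂ).natDegree
        ≤ (D - m) * 1 := Nat.mul_le_mul_left _ (mob_lin_natDegree a σ)
      _ = D - m := Nat.mul_one _
  have h3 : (Polynomial.C (p.coeff m) * (Polynomial.C b * Polynomial.X) ^ m).natDegree ≤ m :=
    (Polynomial.natDegree_C_mul_le _ _).trans h1
  exact Polynomial.natDegree_mul_le.trans (by omega)

theorem mob_eval (a b σ : ℂ) (D : ℕ) (p : Polynomial ℂ) (hp : p.natDegree ≤ D) (t : ℂ)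
    (ht : a + σ * t ≠ 0) :
    (mob a b σ D p).eval t = (a + σ * t) ^ D * p.eval (b * t / (a + σ * t)) := by
  unfold mob
  rw [Polynomial.eval_finsetSum, Polynomial.eval_eq_sum_range' (Nat.lt_succ_of_le hp),
    Finset.mul_sum]
  refine Finset.sum_congr rfl fun m hm => ?_
  have hm' : m ≤ D := Nat.lt_succ_iff.1 (Finset.mem_range.1 hm)
  simp only [Polynomial.eval_mul, Polynomial.eval_C, Polynomial.eval_pow, Polynomial.eval_X,
    Polynomial.eval_add]
  have h1 : (a + σ * t) ^ D = (a + σ * t) ^ (D - m) * (a + σ * t) ^ m := by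
    rw [← pow_add]
    congr 1
    omega
  have h2 : (a + σ * t) ^ m ≠ 0 := pow_ne_zero m ht
  rw [h1, div_pow]
  generalize (a + σ * t) ^ m = u at h2 ⊢
  generalize (a + σ * t) ^ (D - m) = v
  field_simp

theorem mob_ext {a σ : ℂ} (ha : a ≠ 0) {P Q : Polynomial ℂ}
    (h : ∀ t, a + σ * t ≠ 0 → P.eval t = Q.eval t) : P = Q := by
  have h1 : (P - Q) * (Polynomial.C a + Polynomial.C σ * Polynomial.X) = 0 := by
    apply Polynomial.funext
    intro t
    simp only [Polynomial.eval_mul, Polynomial.eval_C, Polynomial.eval_X, Polynomial.eval_add,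
      Polynomial.eval_sub, Polynomial.eval_zero]
    by_cases ht : a + σ * t = 0
    · rw [ht, mul_zero]
    · rw [h t ht, sub_self, zero_mul]
  rcases mul_eq_zero.1 h1 with h2 | h2
  · exact sub_eq_zero.1 h2
  · exfalso
    have h3 := congrArg (Polynomial.eval 0) h2
    simp only [Polynomial.eval_mul, Polynomial.eval_C, Polynomial.eval_X, Polynomial.eval_add,
      Polynomial.eval_zero, mul_zero, add_zero] at h3
    exact ha h3

theorem mob_mul {a b σ : ℂ} (ha : a ≠ 0) (D D' : ℕ) (p q : Polynomial ℂ) (hp : p.natDegree ≤ D)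
    (hq : q.natDegree ≤ D') :
    mob a b σ (D + D') (p * q) = mob a b σ D p * mob a b σ D' q := by
  apply mob_ext (σ := σ) ha
  intro t ht
  rw [Polynomial.eval_mul, mob_eval a b σ D p hp t ht, mob_eval a b σ D' q hq t ht,
    mob_eval a b σ (D + D') (p * q) (Polynomial.natDegree_mul_le.trans (by omega)) t ht,
    Polynomial.eval_mul, pow_add]
  ring

theorem mob_zero (a b σ : ℂ) (D : ℕ) : mob a b σ D 0 = 0 := by
  unfold mob
  refine Finset.sum_eq_zero fun m _ => ?_
  rw [Polynomial.coeff_zero, Polynomial.C_0, zero_mul, zero_mul]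

theorem mob_coeff_zero (a b σ : ℂ) (D : ℕ) (p : Polynomial ℂ) :
    (mob a b σ D p).coeff 0 = a ^ D * p.coeff 0 := by
  rw [Polynomial.coeff_zero_eq_eval_zero]
  unfold mob
  rw [Polynomial.eval_finsetSum, Finset.sum_range_succ', Finset.sum_eq_zero]
  · simp only [Polynomial.eval_mul, Polynomial.eval_C, Polynomial.eval_pow, Polynomial.eval_X,
      Polynomial.eval_add, mul_zero, pow_zero, add_zero, mul_one, Nat.sub_zero, zero_add]
    ring
  · intro m _
    simp only [Polynomial.eval_mul, Polynomial.eval_C, Polynomial.eval_pow, Polynomial.eval_X,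
      mul_zero, ne_eq, Nat.add_eq_zero_iff, one_ne_zero, and_false, not_false_eq_true, zero_pow,
      zero_mul]

theorem mob_coeff_one (a b σ : ℂ) (D : ℕ) (p : Polynomial ℂ) :
    (mob a b σ (D + 1) p).coeff 1 = (D + 1) * a ^ D * σ * p.coeff 0 + a ^ D * b * p.coeff 1 := by
  have h0 := Polynomial.coeff_derivative (mob a b σ (D + 1) p) 0
  rw [Nat.cast_zero, zero_add, zero_add, mul_one] at h0
  rw [← h0, Polynomial.coeff_zero_eq_eval_zero]
  unfold mob
  rw [Polynomial.derivative_sum, Polynomial.eval_finsetSum, Finset.sum_range_succ',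
    Finset.sum_range_succ', Finset.sum_eq_zero]
  · simp only [Polynomial.derivative_mul, Polynomial.derivative_C, Polynomial.derivative_pow,
      Polynomial.derivative_add, Polynomial.derivative_X, Polynomial.eval_mul, Polynomial.eval_C,
      Polynomial.eval_pow, Polynomial.eval_X, Polynomial.eval_add, mul_zero, pow_zero, add_zero,
      mul_one, Nat.sub_zero, zero_add, zero_mul, pow_one, Nat.add_sub_cancel,
      Nat.cast_add, Nat.cast_one, Polynomial.C_add, Polynomial.C_1]
    simp
    ring
  · intro m _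
    simp only [Polynomial.derivative_mul, Polynomial.derivative_C, Polynomial.derivative_pow,
      Polynomial.derivative_add, Polynomial.derivative_X, Polynomial.eval_mul, Polynomial.eval_C,
      Polynomial.eval_pow, Polynomial.eval_X, Polynomial.eval_add, mul_zero, add_zero,
      mul_one, zero_add, zero_mul]
    simp

theorem lp_mob {n : ℕ} {a b σ : ℂ} (ha : a ≠ 0) (y w : Fin (n + 1) → ℂ) {d : ℕ}
    {p : MvPolynomial (Fin (n + 1)) ℂ} (hp : p.IsHomogeneous d) :
    lp (a • y) (b • w + σ • y) p = mob a b σ d (lp y w p) := by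
  apply mob_ext (σ := σ) ha
  intro t ht
  rw [mob_eval a b σ d _ (natDegree_lp y w hp) t ht, eval_lp, eval_lp]
  have h1 : (fun l => (a • y) l + (b • w + σ • y) l * t) =
      (a + σ * t) • (fun l => y l + w l * (b * t / (a + σ * t))) := by
    funext l
    simp only [Pi.smul_apply, Pi.add_apply, smul_eq_mul]
    field_simp
    ring
  rw [h1, Y208PT.eval_smul_hom hp]

theorem s_Change : S_Change := by
  intro n E s r hs k y w a b σ ha hb c f hD
  have hak : a ^ k ≠ 0 := pow_ne_zero k ha
  -- the divisor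
  obtain ⟨c', hc'⟩ := exists_cb (k := k) (Polynomial.C (a ^ k)⁻¹ * mob a b σ k (cb c))
    ((Polynomial.natDegree_C_mul_le _ _).trans (mob_natDegree a b σ k _)) (by
      rw [Polynomial.coeff_C_mul, mob_coeff_zero, cb_coeff_zero, mul_one, inv_mul_cancel₀ hak])
  -- the quotient
  obtain ⟨f', hf'⟩ := exists_pol E (r - k) (fun i => if 0 ≤ E.β i + (r - k) then
      Polynomial.C (a ^ k) * mob a b σ (E.β i + (r - k)).toNat (pol E f i) else 0) (by
    intro i m hm
    split_ifs with h
    · rw [Polynomial.coeff_C_mul, Polynomial.coeff_eq_zero_of_natDegree_lt, mul_zero]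
      have h1 := mob_natDegree a b σ (E.β i + (r - k)).toNat (pol E f i)
      omega
    · exact Polynomial.coeff_zero m)
  refine ⟨c', f', fun i => ?_, fun hk => ?_⟩
  · rw [hc', hf' i]
    have hdeg : (pol E f i).natDegree ≤ (E.β i + (r - k)).toNat := by
      rw [Polynomial.natDegree_le_iff_coeff_eq_zero]
      intro m hm
      exact pol_coeff_eq_zero E f i (by omega)
    have hDi := hD i
    split_ifs with h
    · rcases hs.1 i with h0 | ⟨d, hd, hp⟩
      · rw [h0, map_zero] at hDi
        rw [h0, map_zero]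
        rcases mul_eq_zero.1 hDi.symm with h1 | h1
        · exact absurd h1 (cb_ne_zero c)
        · rw [h1, mob_zero, mul_zero, mul_zero]
      · rw [lp_mob ha y w hp, hDi]
        have hdd : d = k + (E.β i + (r - k)).toNat := by omega
        rw [hdd, mob_mul ha k _ _ _ (cb_natDegree c) hdeg]
        have h2 : (Polynomial.C (a ^ k)⁻¹ : Polynomial ℂ) * Polynomial.C (a ^ k) = 1 := by
          rw [← Polynomial.C_mul, inv_mul_cancel₀ hak, Polynomial.C_1]
        linear_combination (- (mob a b σ k (cb c)) *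
          mob a b σ (E.β i + (r - k)).toNat (pol E f i)) * h2
    · have h1 : pol E f i = 0 := by
        ext m
        rw [Polynomial.coeff_zero]
        exact pol_coeff_eq_zero E f i (by omega)
      rw [h1, mul_zero] at hDi
      rw [mul_zero]
      rcases hs.1 i with h0 | ⟨d, hd, hp⟩
      · rw [h0, map_zero]
      · rw [lp_mob ha y w hp, hDi, mob_zero]
  · obtain ⟨k', rfl⟩ : ∃ k', k = k' + 1 := ⟨k - 1, by omega⟩
    have h1 : (cb c').coeff (0 + 1) = c' ⟨0, hk⟩ := by
      rw [cb_coeff_succ, dif_pos hk]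
    have h2 : (cb c).coeff (0 + 1) = c ⟨0, hk⟩ := by
      rw [cb_coeff_succ, dif_pos hk]
    rw [zero_add] at h1 h2
    rw [← h1, hc', Polynomial.coeff_C_mul, mob_coeff_one, cb_coeff_zero, h2, Nat.cast_add,
      Nat.cast_one]
    field_simp
    ring

end H932S
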