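import Pool.Agent.H932.S.Step

/-!
# The number of the lengths of the lines through a point
-/

open MvPolynomial H960VB H960VB.Bundle2 Y208PT Pool.Agent.H106R3.VB H932V H932W H932L

namespace H932S

variable {n : ℕ}

/-- The auxiliary data: a large twist `j`, and the Plücker vectors. -/
structure Aux (E : Bundle2 n) (r c₁ : ℤ) where
  D : Dl E c₁
  j : ℤ
  G : ℕ
  hG : c₁ + 2 * j + 2 = G
  K : PlkL E j G
  hok : ∀ y w : Fin (n + 1) → ℂ, LinearIndependent ℂ ![y, w] → Ok E j G y w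
  hr : r ≤ j
  hβ : ∀ i, E.β i ≤ c₁ + j

theorem exists_aux (hn : 1 ≤ n) (E : Bundle2 n) (r c₁ : ℤ)
    (hc : ∀ A B : Fin (n + 1) → ℂ, LinearIndependent ℂ ![A, B] →
      ∀ a b : ℤ, E.SplitsOn A B a b → a + b = c₁) : Nonempty (Aux E r c₁) := by
  obtain ⟨D⟩ := s_Delta hn E c₁ hc
  obtain ⟨j, hj⟩ : ∃ j : ℤ, j = |r| + |c₁| + ∑ i, |E.β i| := ⟨_, rfl⟩
  have h0 : 0 ≤ ∑ i, |E.β i| := Finset.sum_nonneg fun i _ => abs_nonneg _
  have hβ : ∀ i, E.β i ≤ c₁ + j := by
    intro i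
    have h1 : |E.β i| ≤ ∑ i, |E.β i| :=
      Finset.single_le_sum (f := fun i => |E.β i|) (fun i _ => abs_nonneg _) (Finset.mem_univ i)
    have h2 := le_abs_self (E.β i)
    have h3 := neg_abs_le c₁
    have h4 := abs_nonneg r
    omega
  have hj0 : 0 ≤ c₁ + 2 * j + 2 := by
    have h3 := neg_abs_le c₁
    have h4 := abs_nonneg r
    have h5 := abs_nonneg c₁
    omega
  obtain ⟨G, hG⟩ := Int.eq_ofNat_of_zero_le hj0
  have hok : ∀ y w : Fin (n + 1) → ℂ, LinearIndependent ℂ ![y, w] → Ok E j G y w := by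
    intro y w h
    refine ⟨h, ?_⟩
    obtain ⟨p, q, hpq⟩ := splitsOn_exists E h
    have h1 := hc _ _ h _ _ hpq
    obtain ⟨g₁, g₂, hg₁, hg₂, hl⟩ := id hpq
    have hz10 : (![1, 0] : Fin 2 → ℂ) ≠ 0 := by
      intro h
      have := congrFun h 0
      simp at this
    have key : ∀ (g : Fin E.a → MvPolynomial (Fin 2) ℂ) (p : ℤ), (∀ i, HomZ (g i) (E.β i - p)) →
        evv g ![1, 0] ≠ 0 → p ≤ c₁ + j := by
      intro g p hg h0
      obtain ⟨i, hi⟩ := Function.ne_iff.1 h0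
      rcases hg i with h2 | ⟨d, hd, -⟩
      · exfalso
        apply hi
        change eval _ (g i) = 0
        rw [h2, map_zero]
      · have := hβ i
        omega
    have hp := key g₁ p hg₁ ((hl _ hz10).2.2.ne_zero 0)
    have hq := key g₂ q hg₂ ((hl _ hz10).2.2.ne_zero 1)
    rw [finrank_fam2 E h j hpq]
    omega
  obtain ⟨K⟩ := exists_plkL hn E hc j G hG (hok (Pi.single ⟨0, by omega⟩ 1)
    (Pi.single ⟨1, by omega⟩ 1) (by
      rw [LinearIndependent.pair_iff]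
      intro s t hst
      have h1 := congrFun hst ⟨0, by omega⟩
      have h2 := congrFun hst ⟨1, by omega⟩
      simp at h1 h2
      exact ⟨h1, h2⟩))
  exact ⟨⟨D, j, G, hG, K, hok, by
    have h3 := abs_nonneg c₁
    have h4 := le_abs_self r
    omega, hβ⟩⟩

theorem ge_zero (E : Bundle2 n) {s : Fin E.a → MvPolynomial (Fin (n + 1)) ℂ} {r : ℤ}
    (hs : E.IsSection r s) (y w : Fin (n + 1) → ℂ) : Ge E s r 0 y w := by
  obtain ⟨f, hf⟩ := exists_pol E (r - (0 : ℕ)) (fun i => lp y w (s i)) (by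
    intro i m hm
    rcases hs.1 i with h0 | ⟨d, hd, hp⟩
    · rw [h0, map_zero, Polynomial.coeff_zero]
    · apply Polynomial.coeff_eq_zero_of_natDegree_lt
      have := natDegree_lp y w hp
      push_cast at hm
      omega)
  refine ⟨Fin.elim0, f, fun i => ?_⟩
  rw [hf]
  have h1 : cb (Fin.elim0 : Fin 0 → ℂ) = 1 := by
    unfold cb
    simp
  rw [h1, one_mul]

theorem ge_bound {E : Bundle2 n} {s : Fin E.a → MvPolynomial (Fin (n + 1)) ℂ} {r : ℤ} {k : ℕ}
    {y w : Fin (n + 1) → ℂ} (hy : evv s y ≠ 0) (h : Ge E s r k y w) : ∃ i, (k : ℤ) ≤ E.β i + r := by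
  obtain ⟨c, f, h⟩ := h
  obtain ⟨i, hi⟩ := Function.ne_iff.1 hy
  refine ⟨i, ?_⟩
  by_contra hcon
  apply hi
  change eval y (s i) = 0
  rw [← pol_zero_of_dv h i]
  apply pol_coeff_eq_zero
  omega

/-- the length of the zero scheme on the line is `k` -/
def Ln (E : Bundle2 n) (s : Fin E.a → MvPolynomial (Fin (n + 1)) ℂ) (r : ℤ) (k : ℕ)
    (y w : Fin (n + 1) → ℂ) : Prop := Ge E s r k y w ∧ ¬ Ge E s r (k + 1) y w

theorem exists_ln {E : Bundle2 n} {s : Fin E.a → MvPolynomial (Fin (n + 1)) ℂ} {r : ℤ} {k : ℕ}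
    {y w : Fin (n + 1) → ℂ} (hy : evv s y ≠ 0) (h : Ge E s r k y w) :
    ∃ l, k ≤ l ∧ Ln E s r l y w := by
  classical
  obtain ⟨B, hB⟩ : ∃ B : ℕ, ∀ i, E.β i + r ≤ B := by
    refine ⟨∑ i, (E.β i + r).toNat, fun i => ?_⟩
    have h1 : (E.β i + r).toNat ≤ ∑ i, (E.β i + r).toNat :=
      Finset.single_le_sum (f := fun i => (E.β i + r).toNat) (fun _ _ => Nat.zero_le _)
        (Finset.mem_univ i)
    omega
  have hex : ∃ m, ¬ Ge E s r (k + m + 1) y w := by
    refine ⟨B, fun h1 => ?_⟩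
    obtain ⟨i, hi⟩ := ge_bound hy h1
    have := hB i
    omega
  have h1 := Nat.find_spec hex
  refine ⟨k + Nat.find hex, by omega, ?_, h1⟩
  rcases Nat.eq_zero_or_pos (Nat.find hex) with h2 | h2
  · rw [h2]
    exact h
  · have h3 := Nat.find_min hex (m := Nat.find hex - 1) (by omega)
    rw [not_not] at h3
    have h4 : k + (Nat.find hex - 1) + 1 = k + Nat.find hex := by omega
    rwa [h4] at h3

/-- twice the second Chern class of `E(r)`, computed by the degree in the second point -/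
def Aux.cc {E : Bundle2 n} {r c₁ : ℤ} (U : Aux E r c₁) : ℤ :=
  (U.j - r + 1) * (U.j - r) + (c₁ + U.j + r + 1) * (c₁ + U.j + r) - 2 * U.K.d2

theorem num_pos (c e k : ℤ) (h : e * e < 2 * c) : 0 < c - 2 * k * e + 2 * (k * k) := by
  nlinarith [sq_nonneg (e - 2 * k)]

/-- **The step.** -/
theorem step_all {E : Bundle2 n} {s : Fin E.a → MvPolynomial (Fin (n + 1)) ℂ} {r : ℤ}
    (hs : E.IsSection r s) {c₁ : ℤ} (U : Aux E r c₁)
    (hcc : (c₁ + 2 * r) * (c₁ + 2 * r) < 2 * U.cc) {P : Fin (n + 1) → ℂ} (hP : evv s P ≠ 0)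
    (hP0 : P ≠ 0) (Λ : Submodule ℂ (Fin (n + 1) → ℂ)) (hPΛ : P ∈ Λ) (k : ℕ)
    (Q : ℕ → Fin (n + 1) → ℂ)
    (hQ : ∀ i, Q i ∈ Λ ∧ LinearIndependent ℂ ![P, Q i] ∧ Ge E s r k P (Q i))
    (hQi : ∀ i j, i ≠ j → LinearIndependent ℂ ![P, Q i, Q j]) :
    ∃ R ∈ Λ, LinearIndependent ℂ ![P, R] ∧ Ge E s r (k + 1) P R := by
  classical
  obtain ⟨D, j, G, hG, K, hok, hr, hβ⟩ := U
  obtain ⟨i₀, hi₀⟩ := ge_bound hP (hQ 0).2.2
  have hβi := hβ i₀
  obtain ⟨N, hN⟩ := Int.eq_ofNat_of_zero_le (show 0 ≤ j - r + k + 1 by omega)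
  obtain ⟨T, hT⟩ := Int.eq_ofNat_of_zero_le (show 0 ≤ c₁ + j + r - k + 1 by omega)
  have hNT : G = N + T := by omega
  subst hNT
  have hd := num_pos _ _ (k : ℤ) hcc
  have hnum : N * ((N : ℤ) - 1) + T * ((T : ℤ) - 1) - 2 * K.d2 =
      Aux.cc ⟨D, j, N + T, hG, K, hok, hr, hβ⟩ - 2 * k * (c₁ + 2 * r) + 2 * (k * k) := by
    unfold Aux.cc
    rw [← hN, ← hT]
    ring
  rcases Nat.eq_zero_or_pos k with rfl | hk
  · obtain ⟨a, b, hab, hg⟩ := s_Line0_of s_Exact s_Basis s_Eval s_Hom2 E s c₁ D r hs j N T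
      (by push_cast at hN; linarith) (by push_cast at hT; linarith) K hok
      (by rw [← hnum] at hd; linarith) P (Q 0) (Q 1)
      (hQi 0 1 (by omega)) hP
    exact ⟨a • Q 0 + b • Q 1, Λ.add_mem (Λ.smul_mem _ (hQ 0).1) (Λ.smul_mem _ (hQ 1).1), hab, hg⟩
  · by_contra hcon
    push Not at hcon
    obtain ⟨q, hq⟩ : ∃ q : ℤ, N * ((N : ℤ) - 1) + T * ((T : ℤ) - 1) = 2 * q := by
      have h1 := Int.even_mul_pred_self (N : ℤ)
      have h2 := Int.even_mul_pred_self (T : ℤ)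
      obtain ⟨a, ha⟩ := h1.add h2
      exact ⟨a, by rw [ha]; ring⟩
    obtain ⟨e, he⟩ := Int.eq_ofNat_of_zero_le (show 0 ≤ q - K.d2 by
      rw [← hnum, hq] at hd
      omega)
    let Z : Sys n :=
      { E := E
        s := s
        r := r
        hs := hs
        c₁ := c₁
        D := D
        j := j
        k := k
        hk := hk
        N := N
        T := T
        hN := hN.symm
        hT := hT.symm
        K := K
        hok := hok
        A := Submodule.span ℂ {P}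
        Λ := Λ
        hA := by
          intro y hy hy0
          rw [Submodule.mem_span_singleton] at hy
          obtain ⟨a, rfl⟩ := hy
          refine evv_smul_ne hs hP ?_
          rintro rfl
          exact hy0 (zero_smul _ _)
        hno := by
          intro y hy w hw hyw c f hcf
          rw [Submodule.mem_span_singleton] at hy
          obtain ⟨a, rfl⟩ := hy
          have ha : a ≠ 0 := by
            rintro rfl
            exact hyw.ne_zero 0 (zero_smul _ _)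
          have h1 := Ge.change hs ⟨c, f, hcf⟩ (inv_ne_zero ha) (one_ne_zero (α := ℂ)) 0
          rw [smul_smul, inv_mul_cancel₀ ha, one_smul, one_smul, zero_smul, add_zero] at h1
          refine hcon w hw ?_ h1
          rw [LinearIndependent.pair_iff] at hyw ⊢
          intro s' t' hst
          have h2 := hyw (s' * a⁻¹) t' (by rw [← hst, smul_smul, mul_assoc, inv_mul_cancel₀ ha,
            mul_one])
          exact ⟨(mul_eq_zero.1 h2.1).resolve_right (inv_ne_zero ha), h2.2⟩ }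
    refine Z.step rfl hP0 hPΛ e ?_ ?_ Q hQ hQi
    · rw [← hnum, hq] at hd
      omega
    · change 2 * (e : ℤ) = N * ((N : ℤ) - 1) + T * ((T : ℤ) - 1) - 2 * K.d2
      rw [hq]
      have : (e : ℤ) = q - K.d2 := he.symm
      rw [this]
      ring

/-- the inductive statement -/
theorem count_aux {E : Bundle2 n} {s : Fin E.a → MvPolynomial (Fin (n + 1)) ℂ} {r : ℤ}
    (hs : E.IsSection r s) {c₁ : ℤ} (U : Aux E r c₁)
    (hcc : (c₁ + 2 * r) * (c₁ + 2 * r) < 2 * U.cc) {P : Fin (n + 1) → ℂ} (hP : evv s P ≠ 0)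
    (hP0 : P ≠ 0) (S : Finset ℕ) : ∀ j : ℕ, ∀ Λ : Submodule ℂ (Fin (n + 1) → ℂ), P ∈ Λ →
      Module.finrank ℂ Λ = j + 2 →
      (∀ Q ∈ Λ, LinearIndependent ℂ ![P, Q] → ∀ k, Ln E s r k P Q → k ∈ S) →
      ∃ Q ∈ Λ, LinearIndependent ℂ ![P, Q] ∧ ∃ v ∈ S, j ≤ (S.filter (· < v)).card ∧
        Ln E s r v P Q := by
  classical
  intro j
  induction j with
  | zero =>
    intro Λ hPΛ hΛ hS
    obtain ⟨Q, hQ, hPQ⟩ := exists_li_of_finrank (M := Λ) (by omega) hP0
    obtain ⟨v, -, hv⟩ := exists_ln hP (ge_zero E hs P Q)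
    exact ⟨Q, hQ, hPQ, v, hS Q hQ hPQ v hv, Nat.zero_le _, hv⟩
  | succ j ih =>
    intro Λ hPΛ hΛ hS
    obtain ⟨Q, hQ, hQi⟩ := exists_lines Λ hPΛ hP0 (by omega)
      (fun Q => ∃ v ∈ S, j ≤ (S.filter (· < v)).card ∧ Ln E s r v P Q) (by
        intro M hM hPM hMf
        exact ih M hPM (by omega) (fun Q hQ hPQ => hS Q (hM hQ) hPQ))
    let V := S.filter (fun v => j ≤ (S.filter (· < v)).card)
    have hV : V.Nonempty := by
      obtain ⟨-, -, v, hv, hv1, -⟩ := hQ 0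
      exact ⟨v, Finset.mem_filter.2 ⟨hv, hv1⟩⟩
    have hmem := V.min'_mem hV
    have hmin := Finset.mem_filter.1 hmem
    obtain ⟨R, hR, hPR, hR1⟩ := step_all hs U hcc hP hP0 Λ hPΛ (V.min' hV) Q
      (fun i => by
        obtain ⟨h1, h2, v, hv, hv1, hv2⟩ := hQ i
        exact ⟨h1, h2, hv2.1.mono hP (V.min'_le v (Finset.mem_filter.2 ⟨hv, hv1⟩))⟩) hQi
    obtain ⟨v, hlt, hv⟩ := exists_ln hP hR1
    refine ⟨R, hR, hPR, v, hS R hR hPR v hv, ?_, hv⟩
    have h1 : insert (V.min' hV) (S.filter (· < V.min' hV)) ⊆ S.filter (· < v) := by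
      intro x hx
      rcases Finset.mem_insert.1 hx with rfl | hx
      · exact Finset.mem_filter.2 ⟨hmin.1, by omega⟩
      · obtain ⟨h1, h2⟩ := Finset.mem_filter.1 hx
        exact Finset.mem_filter.2 ⟨h1, by omega⟩
    have h2 := Finset.card_le_card h1
    have h4 : V.min' hV ∉ S.filter (· < V.min' hV) := by
      intro h
      have h5 : V.min' hV < V.min' hV := (Finset.mem_filter.1 h).2
      exact lt_irrefl _ h5
    rw [Finset.card_insert_of_notMem h4] at h2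
    have h3 := hmin.2
    omega

/-- **The number of the lengths.** -/
theorem count {E : Bundle2 n} {s : Fin E.a → MvPolynomial (Fin (n + 1)) ℂ} {r : ℤ}
    (hs : E.IsSection r s) {c₁ : ℤ} (U : Aux E r c₁)
    (hcc : (c₁ + 2 * r) * (c₁ + 2 * r) < 2 * U.cc) {P : Fin (n + 1) → ℂ} (hP : evv s P ≠ 0)
    (hP0 : P ≠ 0) (m : ℕ) (hm : 1 ≤ m) (Λ : Submodule ℂ (Fin (n + 1) → ℂ)) (hPΛ : P ∈ Λ)
    (hΛ : Module.finrank ℂ Λ = m + 1) :
    ∃ S : Finset ℕ, S.card = m ∧ ∀ k ∈ S, ∃ Q ∈ Λ, LinearIndependent ℂ ![P, Q] ∧ Ln E s r k P Q := by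
  classical
  obtain ⟨B, hB⟩ : ∃ B : ℕ, ∀ i, E.β i + r ≤ B := by
    refine ⟨∑ i, (E.β i + r).toNat, fun i => ?_⟩
    have h1 : (E.β i + r).toNat ≤ ∑ i, (E.β i + r).toNat :=
      Finset.single_le_sum (f := fun i => (E.β i + r).toNat) (fun _ _ => Nat.zero_le _)
        (Finset.mem_univ i)
    omega
  let S : Finset ℕ := (Finset.range (B + 1)).filter
    (fun k => ∃ Q ∈ Λ, LinearIndependent ℂ ![P, Q] ∧ Ln E s r k P Q)
  obtain ⟨Q, hQ, hPQ, v, hv, hv1, -⟩ := count_aux hs U hcc hP hP0 S (m - 1) Λ hPΛ (by omega)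
    (by
      intro Q hQ hPQ k hk
      obtain ⟨i, hi⟩ := ge_bound hP hk.1
      have := hB i
      exact Finset.mem_filter.2 ⟨Finset.mem_range.2 (by omega), Q, hQ, hPQ, hk⟩)
  have h1 : (S.filter (· < v)).card < S.card := by
    apply Finset.card_lt_card
    rw [Finset.ssubset_iff_of_subset (Finset.filter_subset _ _)]
    exact ⟨v, hv, by simp⟩
  obtain ⟨S', hS', hc⟩ := Finset.exists_subset_card_eq (s := S) (n := m) (by omega)
  exact ⟨S', hc, fun k hk => (Finset.mem_filter.1 (hS' hk)).2⟩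

end H932S
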