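import Pool.Agent.H932.S.Stm2

/-!
# The degenerate line (helper800)
-/

open MvPolynomial H960VB H960VB.Bundle2 Y208PT Pool.Agent.H106R3.VB H932V H932W H932L

namespace H932S

variable {n : ℕ}

theorem Degen_lp (y : Fin (n + 1) → ℂ) (lam : ℂ) {p : MvPolynomial (Fin (n + 1)) ℂ} {d : ℕ}
    (hp : p.IsHomogeneous d) :
    H932W.lp y (lam • y) p =
      Polynomial.C (eval y p) * (1 + Polynomial.C lam * Polynomial.X) ^ d := by
  apply Polynomial.funext
  intro t
  rw [eval_lp]
  have h1 : (fun l => y l + (lam • y) l * t) = (1 + lam * t) • y := by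
    funext l
    simp only [Pi.smul_apply, smul_eq_mul]
    ring
  rw [h1, Y208PT.eval_smul_hom hp]
  simp only [Polynomial.eval_mul, Polynomial.eval_pow, Polynomial.eval_add, Polynomial.eval_one,
    Polynomial.eval_C, Polynomial.eval_X]
  ring

theorem s_Degen : S_Degen := by
  intro n E s r hs k hk y w lam hw c f hy hD hc
  obtain ⟨i0, hi0⟩ : ∃ i, eval y (s i) ≠ 0 := by
    by_contra hcon
    push Not at hcon
    exact hy (funext hcon)
  have hlam : lam = 0 := by
    by_contra hlam
    have hne : s i0 ≠ 0 := by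
      intro h
      rw [h, map_zero] at hi0
      exact hi0 rfl
    obtain ⟨d, hd, hp⟩ := (hs.1 i0).resolve_left hne
    have h1 := hD i0
    rw [hw, Degen_lp y lam hp] at h1
    obtain ⟨L, hL⟩ : ∃ L : Polynomial ℂ, L = 1 + Polynomial.C lam * Polynomial.X := ⟨_, rfl⟩
    rw [← hL] at h1
    have hL1 : L.natDegree = 1 := by
      rw [hL, add_comm, ← Polynomial.C_1]
      exact Polynomial.natDegree_linear hlam
    have hLne : L ≠ 0 := by
      intro h
      rw [h, Polynomial.natDegree_zero] at hL1
      exact zero_ne_one hL1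
    have hLp : Prime L := by
      apply Polynomial.prime_of_degree_eq_one
      rw [Polynomial.degree_eq_natDegree hLne, hL1]
      rfl
    have hL0 : L.coeff 0 = 1 := by
      rw [hL]
      simp
    have hCne : (Polynomial.C (eval y (s i0)) : Polynomial ℂ) ≠ 0 := by
      rw [Ne, Polynomial.C_eq_zero]
      exact hi0
    have hcbd : cb c ∣ L ^ d := by
      have h2 : cb c ∣ Polynomial.C (eval y (s i0)) * L ^ d := ⟨_, h1⟩
      exact ((Polynomial.isUnit_C.2 (isUnit_iff_ne_zero.2 hi0)).dvd_mul_left).1 h2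
    obtain ⟨i, _, hi⟩ := (dvd_prime_pow hLp d).1 hcbd
    obtain ⟨u, hu⟩ := hi
    obtain ⟨u0, _, hu0⟩ := Polynomial.isUnit_iff.1 u.isUnit
    have hu1 : u0 = 1 := by
      have h2 : (cb c * (u : Polynomial ℂ)).coeff 0 = (L ^ i).coeff 0 := by rw [hu]
      rw [Polynomial.mul_coeff_zero, cb_coeff_zero, ← hu0, Polynomial.coeff_C_zero, one_mul,
        Polynomial.coeff_zero_eq_eval_zero, Polynomial.eval_pow, ← Polynomial.coeff_zero_eq_eval_zero,
        hL0, one_pow] at h2
      exact h2
    have hcb : cb c = L ^ i := by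
      rw [← hu, ← hu0, hu1, Polynomial.C_1, mul_one]
    -- the coefficient of order one
    have hi1 : (i : ℂ) * lam = 0 := by
      have h2 : (cb c).coeff 1 = 0 := by
        have h3 := cb_coeff_succ c 0
        rw [dif_pos hk, hc] at h3
        exact h3
      have h3 : (Polynomial.derivative (L ^ i)).coeff 0 = i * lam := by
        rw [Polynomial.derivative_pow, hL]
        simp [Polynomial.coeff_zero_eq_eval_zero]
      rw [Polynomial.coeff_derivative, ← hcb] at h3
      rw [← h3, zero_add, h2, zero_mul]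
    have hi2 : i = 0 := by
      rcases mul_eq_zero.1 hi1 with h | h
      · exact_mod_cast h
      · exact absurd h hlam
    have hcb1 : cb c = 1 := by rw [hcb, hi2, pow_zero]
    rw [hcb1, one_mul] at h1
    have h2 : (pol E f i0).natDegree = d := by
      rw [← h1, Polynomial.natDegree_mul hCne (pow_ne_zero _ hLne), Polynomial.natDegree_C,
        Polynomial.natDegree_pow, hL1]
      omega
    have h3 : (pol E f i0).coeff d ≠ 0 := by
      rw [← h2]
      refine Polynomial.leadingCoeff_ne_zero.2 ?_
      rw [← h1]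
      exact mul_ne_zero hCne (pow_ne_zero _ hLne)
    apply h3
    apply pol_coeff_eq_zero
    omega
  have hw0 : w = 0 := by rw [hw, hlam, zero_smul]
  have hlp : ∀ i, H932W.lp y w (s i) = Polynomial.C (eval y (s i)) := by
    intro i
    apply Polynomial.funext
    intro t
    rw [eval_lp, Polynomial.eval_C, hw0]
    congr 2
    funext l
    simp
  have hu : IsUnit (cb c) := by
    have h1 := hD i0
    rw [hlp] at h1
    exact isUnit_of_dvd_unit ⟨_, h1⟩ (Polynomial.isUnit_C.2 (isUnit_iff_ne_zero.2 hi0))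
  have hdeg : (cb c).natDegree = 0 := Polynomial.natDegree_eq_zero_of_isUnit hu
  have hcz : c = 0 := by
    funext m
    have h1 := cb_coeff_succ c m
    rw [dif_pos m.2, Polynomial.coeff_eq_zero_of_natDegree_lt (by omega)] at h1
    exact h1.symm
  have hcb1 : cb c = 1 := by
    rw [Polynomial.eq_C_of_natDegree_eq_zero hdeg, cb_coeff_zero, Polynomial.C_1]
  refine ⟨hw0, hcz, ?_⟩
  rintro ⟨i, b⟩ hb
  have h1 := hD i
  rw [hlp, hcb1, one_mul] at h1
  have h2 := pol_coeff E f i (b : ℕ)
  rw [← h1, Polynomial.coeff_C_of_ne_zero (by exact hb.ne')] at h2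
  unfold cf at h2
  rw [dif_pos b.2] at h2
  exact h2.symm

end H932S
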