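import Pool.Agent.H932.S.Stm

/-!
# The Plücker vector of the fibres of a bundle of rank two (helper161)
-/

open MvPolynomial H960VB H960VB.Bundle2 Y208PT Pool.Agent.H106R3.VB H932V H932W H932L

namespace H932S

namespace DeltaL

theorem homW_of_homZ {N : ℕ} {p : MvPolynomial (Fin N) ℂ} {d : ℤ} (h : HomZ p d) :
    HomW (fun _ => 1) p d := by
  rcases h with h | ⟨k, rfl, h⟩
  · exact Or.inl h
  · apply HomW.of_eval
    intro t ht x
    have h2 : (fun i => t ^ 1 * x i) = t • x := by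
      ext i
      simp
    rw [h2, Y208PT.eval_smul_hom h]

theorem homZ_scale {N : ℕ} {p : MvPolynomial (Fin N) ℂ} {d : ℤ} (h : HomZ p d) (t : ℂ)
    (x : Fin N → ℂ) : eval (t • x) p = t ^ d * eval x p := by
  rcases h with rfl | ⟨k, rfl, h⟩
  · simp
  · rw [Y208PT.eval_smul_hom h, zpow_natCast]

theorem minor_ne {I : Type} {u v : I → ℂ} (h : LinearIndependent ℂ ![u, v]) :
    ∃ i k, u i * v k - u k * v i ≠ 0 := by
  by_contra hcon
  push Not at hcon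
  obtain ⟨i, hi⟩ := Function.ne_iff.1 (h.ne_zero 0 : ![u, v] 0 ≠ 0)
  simp only [Matrix.cons_val_zero, Pi.zero_apply] at hi
  rw [LinearIndependent.pair_iff] at h
  have h1 := h (-(v i)) (u i) (by
    funext k
    have h2 := hcon i k
    simp only [Pi.add_apply, Pi.smul_apply, smul_eq_mul, Pi.zero_apply]
    linear_combination h2)
  exact hi h1.2

/-- the degree of a Plücker vector of the fibres, on a line -/
theorem deg_eq {n : ℕ} (E : Bundle2 n) (π : (Fin 2 → Fin E.a) → MvPolynomial (Fin (n + 1)) ℂ)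
    (D : ℤ) (hne : ∀ x : Fin (n + 1) → ℂ, x ≠ 0 → ∃ J, eval x (π J) ≠ 0)
    (hwed : ∀ x : Fin (n + 1) → ℂ, x ≠ 0 → ∀ u ∈ E.fib x, ∀ v ∈ E.fib x, ∃ κ : ℂ, ∀ J,
      u (J 0) * v (J 1) - u (J 1) * v (J 0) = κ * eval x (π J))
    (hhom : ∀ J, HomZ (π J) (E.β (J 0) + E.β (J 1) - D))
    {A B : Fin (n + 1) → ℂ} (hli : LinearIndependent ℂ ![A, B]) {p q : ℤ}
    (hpq : E.SplitsOn A B p q) : D = p + q := by
  classical
  obtain ⟨g₁, g₂, hg1, hg2, hg⟩ := hpq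
  have hF : ∀ z : Fin 2 → ℂ, z ≠ 0 → z 0 • A + z 1 • B ≠ 0 := by
    intro z hz h0
    rw [LinearIndependent.pair_iff] at hli
    obtain ⟨h1, h2⟩ := hli _ _ h0
    apply hz
    ext i
    fin_cases i
    · exact h1
    · exact h2
  have hFs : ∀ (t : ℂ) (z : Fin 2 → ℂ), (t • z) 0 • A + (t • z) 1 • B =
      t • (z 0 • A + z 1 • B) := by
    intro t z
    simp only [Pi.smul_apply, smul_eq_mul, mul_smul, smul_add]
  let Q : (Fin 2 → Fin E.a) → MvPolynomial (Fin 2) ℂ := fun J =>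
    aeval (fun l => C (A l) * X 0 + C (B l) * X 1) (π J)
  have hQ : ∀ z J, eval z (Q J) = eval (z 0 • A + z 1 • B) (π J) := by
    intro z J
    have h1 := eval_aeval_mv (fun l => C (A l) * X 0 + C (B l) * X 1) z (π J)
    refine h1.trans ?_
    have h2 : (fun i => eval z (C (A i) * X 0 + C (B i) * X 1)) = z 0 • A + z 1 • B := by
      funext i
      simp only [map_add, map_mul, eval_C, eval_X, Pi.add_apply, Pi.smul_apply, smul_eq_mul]
      ring
    rw [h2]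
  let P : (Fin 2 → Fin E.a) → MvPolynomial (Fin 2) ℂ := fun J =>
    g₁ (J 0) * g₂ (J 1) - g₁ (J 1) * g₂ (J 0)
  have hP : ∀ z J, eval z (P J) = evv g₁ z (J 0) * evv g₂ z (J 1) -
      evv g₁ z (J 1) * evv g₂ z (J 0) := by
    intro z J
    simp only [P, map_sub, map_mul, evv]
  have hQhom : ∀ J, HomZ (Q J) (E.β (J 0) + E.β (J 1) - D) := by
    intro J
    apply homZ_of_scale
    intro t ht z
    rw [hQ, hQ, hFs, homZ_scale (hhom J)]
  have hPhom : ∀ J, HomZ (P J) (E.β (J 0) + E.β (J 1) - (p + q)) := by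
    intro J
    apply homZ_of_scale
    intro t ht z
    simp only [P, map_sub, map_mul, homZ_scale (hg1 _), homZ_scale (hg2 _)]
    have e1 : E.β (J 0) + E.β (J 1) - (p + q) = (E.β (J 0) - p) + (E.β (J 1) - q) := by ring
    have e2 : E.β (J 0) + E.β (J 1) - (p + q) = (E.β (J 1) - p) + (E.β (J 0) - q) := by ring
    have e3 : t ^ (E.β (J 0) + E.β (J 1) - (p + q)) = t ^ (E.β (J 0) - p) * t ^ (E.β (J 1) - q) := by
      rw [e1, zpow_add₀ ht]
    have e4 : t ^ (E.β (J 0) + E.β (J 1) - (p + q)) = t ^ (E.β (J 1) - p) * t ^ (E.β (J 0) - q) := by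
      rw [e2, zpow_add₀ ht]
    rw [mul_sub]
    nth_rewrite 1 [e3]
    rw [e4]
    ring
  have hQ0 : ∀ z : Fin 2 → ℂ, z ≠ 0 → ∃ J, eval z (Q J) ≠ 0 := by
    intro z hz
    obtain ⟨J, hJ⟩ := hne _ (hF z hz)
    exact ⟨J, by rw [hQ]; exact hJ⟩
  have hP0 : ∀ z : Fin 2 → ℂ, z ≠ 0 → ∃ J, eval z (P J) ≠ 0 := by
    intro z hz
    obtain ⟨i, k, h⟩ := minor_ne (hg z hz).2.2
    refine ⟨![i, k], ?_⟩
    rw [hP]
    simpa using h
  have hPQ : ∀ z : Fin 2 → ℂ, z ≠ 0 → ∃ c : ℂ, ∀ J, eval z (P J) = c * eval z (Q J) := by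
    intro z hz
    obtain ⟨κ, hκ⟩ := hwed _ (hF z hz) _ (hg z hz).1 _ (hg z hz).2.1
    exact ⟨κ, fun J => by rw [hP, hQ]; exact hκ J⟩
  have hQP : ∀ z : Fin 2 → ℂ, z ≠ 0 → ∃ c : ℂ, ∀ J, eval z (Q J) = c * eval z (P J) := by
    intro z hz
    obtain ⟨κ, hκ⟩ := hPQ z hz
    obtain ⟨J₀, hJ₀⟩ := hP0 z hz
    have hκ0 : κ ≠ 0 := by
      rintro rfl
      apply hJ₀
      rw [hκ, zero_mul]
    exact ⟨κ⁻¹, fun J => by rw [hκ, inv_mul_cancel_left₀ hκ0]⟩
  have l1 := le_of_prop P Q (fun J => E.β (J 0) + E.β (J 1)) (p + q) D hPhom hQhom hP0 hQ0 hQP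
  have l2 := le_of_prop Q P (fun J => E.β (J 0) + E.β (J 1)) D (p + q) hQhom hPhom hQ0 hP0 hPQ
  omega

end DeltaL

theorem s_Delta : S_Delta := by
  intro n hn E c₁ hc
  classical
  obtain ⟨π, h1, h2, h3⟩ := plu E.B 2 (X 0) (X_ne_zero 0) (fun v hv => E.rank_two v (by
    rintro rfl
    apply hv
    rw [eval_X]
    rfl))
  obtain ⟨D, hD⟩ := h3 (fun _ => 1) E.γ E.β (fun k i => DeltaL.homW_of_homZ (E.hom k i))
  have hπ : ∀ J, HomZ (π J) (E.β (J 0) + E.β (J 1) - D) := fun J => by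
    have := homZ_of_homW (hD J)
    rwa [Fin.sum_univ_two] at this
  have hne : ∀ x : Fin (n + 1) → ℂ, x ≠ 0 → ∃ J, eval x (π J) ≠ 0 :=
    fun x hx => h1 x (E.rank_two x hx)
  have hwed : ∀ x : Fin (n + 1) → ℂ, x ≠ 0 → ∀ u ∈ E.fib x, ∀ v ∈ E.fib x, ∃ κ : ℂ, ∀ J,
      u (J 0) * v (J 1) - u (J 1) * v (J 0) = κ * eval x (π J) := by
    intro x hx u hu v hv
    obtain ⟨κ, hκ⟩ := h2 x (E.rank_two x hx) ![u, v] (by
      intro a
      fin_cases a
      · exact LinearMap.mem_ker.1 hu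
      · exact LinearMap.mem_ker.1 hv)
    refine ⟨κ, fun J => ?_⟩
    rw [← hκ J]
    unfold Wd
    rw [Matrix.det_fin_two]
    simp [Matrix.of_apply]
  have hli : LinearIndependent ℂ ![(Pi.single 0 1 : Fin (n + 1) → ℂ),
      (Pi.single ⟨1, by omega⟩ 1 : Fin (n + 1) → ℂ)] := by
    refine li_of_minor (i := 0) (k := ⟨1, by omega⟩) ?_
    have h01 : (0 : Fin (n + 1)) ≠ ⟨1, by omega⟩ := fun h => by
      have := congrArg Fin.val h
      simp at this
    simp [h01, h01.symm]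
  obtain ⟨p, q, hpq⟩ := splitsOn_exists E hli
  have hD' : D = c₁ := (DeltaL.deg_eq E π D hne hwed hπ hli hpq).trans (hc _ _ hli p q hpq)
  rw [hD'] at hπ
  exact ⟨⟨π, hne, hwed, hπ⟩⟩

end H932S
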