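import Pool.Agent.H932.S.Stm

/-!
# The value of the comparison polynomials
-/

open MvPolynomial H960VB H960VB.Bundle2 Y208PT Pool.Agent.H106R3.VB H932V H932W H932L

namespace H932S

variable {n : ℕ}

theorem ev_row_x (E : Bundle2 n) {j : ℤ} (g : Idx E.β j → ℂ) (x : Fin E.a) (b : ℕ) :
    ∑ z : Idx E.β j, (if z.1 = x ∧ (z.2 : ℕ) = b then (1 : ℂ) else 0) * g z =
      (pol E g x).coeff b := by
  classical
  rw [pol_coeff, Fintype.sum_sigma, Finset.sum_eq_single x]
  · unfold cf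
    by_cases h : b < (E.β x + j + 1).toNat
    · rw [dif_pos h, Finset.sum_eq_single ⟨b, h⟩]
      · rw [if_pos ⟨rfl, rfl⟩, one_mul]
      · intro b' _ hb'
        rw [if_neg, zero_mul]
        rintro ⟨-, h1⟩
        exact hb' (Fin.ext h1)
      · intro h1
        exact absurd (Finset.mem_univ _) h1
    · rw [dif_neg h]
      refine Finset.sum_eq_zero fun b' _ => ?_
      rw [if_neg, zero_mul]
      rintro ⟨-, h1⟩
      exact h (h1 ▸ b'.2)
  · intro i _ hi
    refine Finset.sum_eq_zero fun b' _ => ?_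
    rw [if_neg, zero_mul]
    rintro ⟨h1, -⟩
    exact hi h1
  · intro h1
    exact absurd (Finset.mem_univ _) h1

theorem ev_row_mul (E : Bundle2 n) {j : ℤ} (g : Idx E.β j → ℂ) (i : Fin E.a) (q : Polynomial ℂ)
    (m : ℕ) :
    ∑ z : Idx E.β j, (if (z.2 : ℕ) ≤ m then (if z.1 = i then q.coeff (m - (z.2 : ℕ)) else 0)
      else 0) * g z = (pol E g i * q).coeff m := by
  classical
  rw [Fintype.sum_sigma, Finset.sum_eq_single i]
  · unfold pol
    rw [Finset.sum_mul, Polynomial.finsetSum_coeff]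
    refine Finset.sum_congr rfl fun b _ => ?_
    have h1 : Polynomial.C (g ⟨i, b⟩) * Polynomial.X ^ (b : ℕ) * q =
        Polynomial.C (g ⟨i, b⟩) * (Polynomial.X ^ (b : ℕ) * q) := mul_assoc _ _ _
    rw [h1, Polynomial.coeff_C_mul, Polynomial.coeff_X_pow_mul', mul_comm]
    simp only [if_true]
  · intro i' _ hi
    refine Finset.sum_eq_zero fun b' _ => ?_
    simp only [hi, if_false, ite_self, zero_mul]
  · intro h1
    exact absurd (Finset.mem_univ _) h1

theorem ev_fv (E : Bundle2 n) {r : ℤ} {k : ℕ} (y w : Fin (n + 1) → ℂ) (c : Fin k → ℂ)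
    (f : Idx E.β (r - k) → ℂ) (i : Fin E.a) (l : ℕ) :
    eval (pt y w c f) (fv E r k i l) = (pol E f i).coeff l := by
  rw [pol_coeff]
  unfold fv cf
  by_cases h : l < (E.β i + (r - k) + 1).toNat
  · rw [dif_pos h, dif_pos h, eval_X]
    rfl
  · rw [dif_neg h, dif_neg h, map_zero]

/-- the rows at a point -/
theorem ev_rho_inr (E : Bundle2 n) {r : ℤ} {k : ℕ} {j : ℤ} {N T : ℕ} (y w : Fin (n + 1) → ℂ)
    (c : Fin k → ℂ) (f : Idx E.β (r - k) → ℂ) (J₂ : Fin 2 → Fin E.a) (x : Fin E.a) (m : Fin T)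
    (g : Idx E.β j → ℂ) :
    ∑ z : Idx E.β j, eval (pt y w c f) (rho E r k j N T J₂ x (Sum.inr m) z) * g z =
      (pol E g (J₂ 0) * pol E f (J₂ 1) - pol E g (J₂ 1) * pol E f (J₂ 0)).coeff (m : ℕ) := by
  rw [Polynomial.coeff_sub, ← ev_row_mul, ← ev_row_mul, ← Finset.sum_sub_distrib]
  refine Finset.sum_congr rfl fun z _ => ?_
  rw [← sub_mul]
  congr 1
  simp only [rho, Sum.elim_inr]
  split_ifs <;> simp [ev_fv]

theorem ev_rho_inl (E : Bundle2 n) {r : ℤ} {k : ℕ} {j : ℤ} {N T : ℕ} (y w : Fin (n + 1) → ℂ)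
    (c : Fin k → ℂ) (f : Idx E.β (r - k) → ℂ) (J₂ : Fin 2 → Fin E.a) (x : Fin E.a) (b : Fin N)
    (g : Idx E.β j → ℂ) :
    ∑ z : Idx E.β j, eval (pt y w c f) (rho E r k j N T J₂ x (Sum.inl b) z) * g z =
      (pol E g x).coeff (b : ℕ) := by
  rw [← ev_row_x]
  refine Finset.sum_congr rfl fun z _ => ?_
  congr 1
  simp only [rho, Sum.elim_inl]
  split_ifs <;> simp

theorem ev_RR (E : Bundle2 n) {r : ℤ} {k : ℕ} {j : ℤ} {N T : ℕ} (K : PlkL E j (N + T))
    (y w : Fin (n + 1) → ℂ) (c : Fin k → ℂ) (f : Idx E.β (r - k) → ℂ) (J₂ : Fin 2 → Fin E.a)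
    (x : Fin E.a) (u : Fin N ⊕ Fin T → Idx E.β j → ℂ) (κ : ℂ)
    (hκ : ∀ J, Wd (fun a => u (finSumFinEquiv.symm a)) J =
      κ * eval (Sum.elim y w) (K.pi J)) :
    κ * eval (pt y w c f) (RR E r k K J₂ x) =
      Matrix.det (Matrix.of fun p q : Fin N ⊕ Fin T =>
        ∑ z, eval (pt y w c f) (rho E r k j N T J₂ x q z) * u p z) := by
  classical
  have h1 := det_expand (fun (t : Fin (N + T)) (z : Idx E.β j) =>
    eval (pt y w c f) (rho E r k j N T J₂ x (finSumFinEquiv.symm t) z))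
    (fun a => u (finSumFinEquiv.symm a))
  have h2 : (Matrix.of fun (a t : Fin (N + T)) => ∑ z : Idx E.β j,
      eval (pt y w c f) (rho E r k j N T J₂ x (finSumFinEquiv.symm t) z) *
        u (finSumFinEquiv.symm a) z) =
      (Matrix.of fun p q : Fin N ⊕ Fin T =>
        ∑ z, eval (pt y w c f) (rho E r k j N T J₂ x q z) * u p z).submatrix
        finSumFinEquiv.symm finSumFinEquiv.symm := rfl
  rw [h2, Matrix.det_submatrix_equiv_self] at h1
  rw [h1]
  unfold RR
  rw [map_sum, Finset.mul_sum]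
  refine Finset.sum_congr rfl fun J _ => ?_
  rw [map_mul, map_prod, hκ J, eval_rename]
  have h3 : (pt y w c f ∘ Sum.inl : V2 n → ℂ) = Sum.elim y w := rfl
  rw [h3]
  ring

theorem s_Eval : S_Eval := by
  classical
  intro n E s c₁ D r k j N T hN K y w hOk c f hf hD v hv hw
  let u : Fin N ⊕ Fin T → Idx E.β j → ℂ := Sum.elim (fun b : Fin N => E.mt f (b : ℕ) j) v
  have hu : ∀ a, Kr E j y w (u (finSumFinEquiv.symm a)) := by
    intro a
    generalize finSumFinEquiv.symm a = p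
    rcases p with b | m
    · have hb := b.2
      exact kr_mt E hOk.1 hf (b : ℕ) (N - 1 - (b : ℕ)) (by omega)
    · exact hv m
  obtain ⟨κ, hκ⟩ := K.wed y w hOk (fun a => u (finSumFinEquiv.symm a)) hu
  refine ⟨κ, fun J₂ x => ?_⟩
  rw [ev_RR E K y w c f J₂ x u κ hκ]
  have hmt : ∀ (b : Fin N) (i : Fin E.a),
      pol E (E.mt f (b : ℕ) j) i = Polynomial.X ^ (b : ℕ) * pol E f i := by
    intro b i
    have hb := b.2
    exact pol_mt E f (b : ℕ) (by omega) i
  have hblock : (Matrix.of fun p q : Fin N ⊕ Fin T =>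
        ∑ z, eval (pt y w c f) (rho E r k j N T J₂ x q z) * u p z) =
      Matrix.fromBlocks
        (Matrix.of fun b b' : Fin N => (Polynomial.X ^ (b : ℕ) * pol E f x).coeff (b' : ℕ)) 0
        (Matrix.of fun (m : Fin T) (b' : Fin N) => (pol E (v m) x).coeff (b' : ℕ))
        (Matrix.of fun m m' : Fin T =>
          (Polynomial.X ^ (m : ℕ) * lp y w (D.δ J₂)).coeff (m' : ℕ)) := by
    ext p q
    rcases p with b | m <;> rcases q with b' | m'
    · rw [Matrix.fromBlocks_apply₁₁, Matrix.of_apply, Matrix.of_apply, ev_rho_inl]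
      simp only [u, Sum.elim_inl, hmt]
    · rw [Matrix.fromBlocks_apply₁₂, Matrix.of_apply, ev_rho_inr]
      simp only [u, Sum.elim_inl, hmt, Matrix.zero_apply]
      have h0 : Polynomial.X ^ (b : ℕ) * pol E f (J₂ 0) * pol E f (J₂ 1) -
          Polynomial.X ^ (b : ℕ) * pol E f (J₂ 1) * pol E f (J₂ 0) = 0 := by ring
      rw [h0, Polynomial.coeff_zero]
    · rw [Matrix.fromBlocks_apply₂₁, Matrix.of_apply, Matrix.of_apply, ev_rho_inl]
      rfl
    · rw [Matrix.fromBlocks_apply₂₂, Matrix.of_apply, Matrix.of_apply, ev_rho_inr]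
      simp only [u, Sum.elim_inr, hw]
  rw [hblock, Matrix.det_fromBlocks_zero₁₂]
  congr 1
  · rw [Matrix.det_of_isUpperTriangular]
    · have h1 : ∀ b : Fin N, (Matrix.of fun b b' : Fin N =>
          (Polynomial.X ^ (b : ℕ) * pol E f x).coeff (b' : ℕ)) b b = eval y (s x) := by
        intro b
        rw [Matrix.of_apply, Polynomial.coeff_X_pow_mul', if_pos le_rfl, Nat.sub_self]
        exact pol_zero_of_dv hD x
      rw [Finset.prod_congr rfl fun b _ => h1 b, Finset.prod_const, Finset.card_univ,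
        Fintype.card_fin]
    · intro a b hab
      have hab' : (b : ℕ) < (a : ℕ) := hab
      rw [Matrix.of_apply, Polynomial.coeff_X_pow_mul', if_neg (by omega)]
  · rw [Matrix.det_of_isUpperTriangular]
    · have h1 : ∀ m : Fin T, (Matrix.of fun m m' : Fin T =>
          (Polynomial.X ^ (m : ℕ) * lp y w (D.δ J₂)).coeff (m' : ℕ)) m m = eval y (D.δ J₂) := by
        intro m
        rw [Matrix.of_apply, Polynomial.coeff_X_pow_mul', if_pos le_rfl, Nat.sub_self]
        exact lp_coeff_zero y w _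
      rw [Finset.prod_congr rfl fun m _ => h1 m, Finset.prod_const, Finset.card_univ,
        Fintype.card_fin]
    · intro a b hab
      have hab' : (b : ℕ) < (a : ℕ) := hab
      rw [Matrix.of_apply, Polynomial.coeff_X_pow_mul', if_neg (by omega)]

end H932S
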