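import Pool.Agent.H932.S.Stm

/-!
# If there is no divisor of degree `k + 1` then the quotient has no zero
-/

open MvPolynomial H960VB H960VB.Bundle2 Y208PT Pool.Agent.H106R3.VB H932V H932W H932L

namespace H932S

namespace ExactAux

theorem natDegree_lin_le (a : ℂ) :
    (1 - Polynomial.C a * Polynomial.X : Polynomial ℂ).natDegree ≤ 1 := by
  refine (Polynomial.natDegree_sub_le _ _).trans ?_
  rw [Polynomial.natDegree_one]
  refine max_le (Nat.zero_le _) ?_
  exact (Polynomial.natDegree_C_mul_le a Polynomial.X).trans Polynomial.natDegree_X_le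

theorem coeff_lin (a : ℂ) : (1 - Polynomial.C a * Polynomial.X : Polynomial ℂ).coeff 0 = 1 := by
  simp

theorem exists_quot {p : Polynomial ℂ} {t : ℂ} (ht : t ≠ 0) (h : p.eval t = 0) {N : ℕ}
    (hp : ∀ m, N ≤ m → p.coeff m = 0) :
    ∃ g : Polynomial ℂ, p = (1 - Polynomial.C t⁻¹ * Polynomial.X) * g ∧
      ∀ m, N ≤ m + 1 → g.coeff m = 0 := by
  obtain ⟨q, hq⟩ := Polynomial.dvd_iff_isRoot.2 h
  have h1 : p = (1 - Polynomial.C t⁻¹ * Polynomial.X) * (Polynomial.C (-t) * q) := by
    rw [hq]
    have h2 : (Polynomial.C t⁻¹ * Polynomial.C t : Polynomial ℂ) = 1 := by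
      rw [← Polynomial.C_mul, inv_mul_cancel₀ ht, Polynomial.C_1]
    rw [Polynomial.C_neg]
    linear_combination (-(Polynomial.X * q)) * h2
  refine ⟨Polynomial.C (-t) * q, h1, ?_⟩
  intro m hm
  by_cases hq0 : Polynomial.C (-t) * q = 0
  · rw [hq0, Polynomial.coeff_zero]
  · have hX : (Polynomial.X - Polynomial.C t).Monic := Polynomial.monic_X_sub_C t
    have hq1 : q ≠ 0 := by
      rintro rfl
      exact hq0 (mul_zero _)
    have hp0 : p ≠ 0 := by
      rw [hq]
      exact mul_ne_zero hX.ne_zero hq1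
    have h3 : p.natDegree = q.natDegree + 1 := by
      rw [hq, hX.natDegree_mul' hq1, Polynomial.natDegree_X_sub_C, add_comm]
    have h4 : p.natDegree < N := by
      by_contra hcon
      exact hp0 (Polynomial.leadingCoeff_eq_zero.1 (hp _ (not_lt.1 hcon)))
    rw [Polynomial.coeff_C_mul, Polynomial.coeff_eq_zero_of_natDegree_lt (by omega), mul_zero]

end ExactAux

open ExactAux

theorem s_Exact : S_Exact := by
  intro n E s r k y w c f hy hD hno
  constructor
  · intro t
    by_contra hcon
    push Not at hcon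
    have ht : t ≠ 0 := by
      rintro rfl
      apply hy
      funext i
      have h1 := pol_zero_of_dv hD i
      rw [Polynomial.coeff_zero_eq_eval_zero, hcon i] at h1
      exact h1.symm
    have hq : ∀ i, ∃ g : Polynomial ℂ, pol E f i = (1 - Polynomial.C t⁻¹ * Polynomial.X) * g ∧
        ∀ m, (E.β i + (r - k) + 1).toNat ≤ m + 1 → g.coeff m = 0 := fun i =>
      exists_quot ht (hcon i) fun m hm => pol_coeff_eq_zero E f i hm
    choose g hg1 hg2 using hq
    obtain ⟨f', hf'⟩ := exists_pol E (r - ((k + 1 : ℕ) : ℤ)) g (fun i m hm => by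
      refine hg2 i m ?_
      push_cast at hm
      omega)
    obtain ⟨c', hc'⟩ := exists_cb (k := k + 1) (cb c * (1 - Polynomial.C t⁻¹ * Polynomial.X))
      (Polynomial.natDegree_mul_le.trans (add_le_add (cb_natDegree c) (natDegree_lin_le _)))
      (by rw [Polynomial.mul_coeff_zero, cb_coeff_zero, coeff_lin, one_mul])
    refine hno c' f' fun i => ?_
    rw [hD i, hc', hf' i, hg1 i]
    ring
  · by_contra hcon
    push Not at hcon
    obtain ⟨f', hf'⟩ := exists_pol E (r - ((k + 1 : ℕ) : ℤ)) (fun i => pol E f i)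
      (fun i m hm => by
        push_cast at hm
        by_cases h0 : 0 ≤ E.β i + (r - k)
        · by_cases h1 : m = (E.β i + (r - k)).toNat
          · rw [h1]
            exact hcon i h0
          · exact pol_coeff_eq_zero E f i (by omega)
        · exact pol_coeff_eq_zero E f i (by omega))
    obtain ⟨c', hc'⟩ := exists_cb (k := k + 1) (cb c) ((cb_natDegree c).trans (Nat.le_succ k))
      (cb_coeff_zero c)
    refine hno c' f' fun i => ?_
    rw [hD i, hc', hf' i]

end H932S
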