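import Pool.Agent.H932.S.Stm

/-!
# Finiteness of the values of a function, for two gradings (by helper294)
-/

open MvPolynomial H960VB H960VB.Bundle2 Y208PT Pool.Agent.H106R3.VB H932V H932W H932L

namespace H932S

namespace FinMon

variable {σ : Type} [Fintype σ]

theorem ws_add (wt : σ → ℕ) (u v : σ →₀ ℕ) : ws wt (u + v) = ws wt u + ws wt v := by
  unfold ws
  rw [← Finset.sum_add_distrib]
  exact Finset.sum_congr rfl fun i _ => by rw [Finsupp.add_apply, add_mul]

theorem ws_single (wt : σ → ℕ) (l : σ) (r : ℕ) : ws wt (Finsupp.single l r) = r * wt l := by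
  classical
  unfold ws
  rw [Finset.sum_eq_single l]
  · rw [Finsupp.single_eq_same]
  · intro i _ hi
    rw [Finsupp.single_eq_of_ne hi, zero_mul]
  · intro h
    exact absurd (Finset.mem_univ l) h

/-- high powers are denominators -/
theorem exists_pow (wt₂ : σ → ℕ) (S : Set (σ → ℂ)) (φ : (σ → ℂ) → ℂ)
    (h : ∀ v : σ → ℂ, (∀ p ∈ den S φ, eval v p = 0) →
      (∀ i, wt₂ i = 0 → v i = 0) ∨ (∀ i, 0 < wt₂ i → v i = 0)) :
    ∃ K : ℕ, 1 ≤ K ∧ ∀ i k : σ, wt₂ i = 0 → 0 < wt₂ k →
      (X i * X k : MvPolynomial σ ℂ) ^ K ∈ den S φ := by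
  have h1 : ∀ i k : σ, ∃ K : ℕ, wt₂ i = 0 → 0 < wt₂ k →
      (X i * X k : MvPolynomial σ ℂ) ^ K ∈ den S φ := by
    intro i k
    by_cases hi : wt₂ i = 0
    · by_cases hk : 0 < wt₂ k
      · have h2 : (X i * X k : MvPolynomial σ ℂ) ∈
            vanishingIdeal ℂ (zeroLocus ℂ (den S φ)) := by
          rw [mem_vanishingIdeal_iff]
          intro v hv
          have h3 := h v (fun p hp => by
            have := hv p hp
            rwa [aeval_eq_eval] at this)
          rw [aeval_eq_eval]
          rcases h3 with h3 | h3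
          · have := h3 i hi
            simp [this]
          · have := h3 k hk
            simp [this]
        rw [vanishingIdeal_zeroLocus_eq_radical] at h2
        obtain ⟨K, hK⟩ := h2
        exact ⟨K, fun _ _ => hK⟩
      · exact ⟨0, fun _ h => absurd h hk⟩
    · exact ⟨0, fun h => absurd h hi⟩
  choose K hK using h1
  refine ⟨∑ i, ∑ k, K i k + 1, by omega, fun i k hi hk => ?_⟩
  have h2 : K i k ≤ ∑ i, ∑ k, K i k + 1 := by
    have h3 : K i k ≤ ∑ k, K i k := Finset.single_le_sum (f := fun k => K i k)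
      (fun _ _ => Nat.zero_le _) (Finset.mem_univ k)
    have h4 : ∑ k, K i k ≤ ∑ i, ∑ k, K i k := Finset.single_le_sum (f := fun i => ∑ k, K i k)
      (fun _ _ => Nat.zero_le _) (Finset.mem_univ i)
    omega
  rw [← Nat.sub_add_cancel h2, pow_add]
  exact Ideal.mul_mem_left _ _ (hK i k hi hk)

end FinMon

open FinMon

theorem s_FinMon : S_FinMon := by
  intro σ _ wt₁ wt₂ hwt S φ hS₁ hS₂ hden hne
  classical
  obtain ⟨K, hK1, hK⟩ := exists_pow wt₂ S φ hden
  obtain ⟨W₁, hW₁⟩ : ∃ W, W = ∑ i, wt₁ i := ⟨_, rfl⟩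
  obtain ⟨W₂, hW₂⟩ : ∃ W, W = ∑ i, wt₂ i := ⟨_, rfl⟩
  obtain ⟨e, he⟩ : ∃ e, e = K * W₂ + K := ⟨_, rfl⟩
  obtain ⟨d, hd⟩ : ∃ d, d = e * W₁ + K * W₁ + e := ⟨_, rfl⟩
  have he1 : 1 ≤ e := by rw [he]; omega
  refine fin_val wt₁ wt₂ hwt S φ hS₁ hS₂ d e ?_ ?_
  · intro u hu1 hu2
    have hz : ∃ k, 0 < wt₂ k ∧ K ≤ u k := by
      by_contra hcon
      push Not at hcon
      have h1 : ws wt₂ u ≤ K * W₂ := by
        unfold ws
        rw [hW₂, Finset.mul_sum]
        refine Finset.sum_le_sum fun k _ => ?_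
        rcases Nat.eq_zero_or_pos (wt₂ k) with h | h
        · rw [h, mul_zero, mul_zero]
        · exact Nat.mul_le_mul_right _ (hcon k h).le
      rw [hu2, he] at h1
      omega
    have hu : ∃ i, wt₂ i = 0 ∧ K ≤ u i := by
      by_contra hcon
      push Not at hcon
      have h1 : ws wt₁ u ≤ K * W₁ + ws wt₂ u * W₁ := by
        have h2 : ∀ i, u i * wt₁ i ≤ K * wt₁ i + (u i * wt₂ i) * W₁ := by
          intro i
          rcases Nat.eq_zero_or_pos (wt₂ i) with h | h
          · exact (Nat.mul_le_mul_right _ (hcon i h).le).trans (Nat.le_add_right _ _)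
          · have h3 : wt₁ i ≤ W₁ := by
              rw [hW₁]
              exact Finset.single_le_sum (f := fun i => wt₁ i) (fun _ _ => Nat.zero_le _)
                (Finset.mem_univ i)
            have h4 : u i ≤ u i * wt₂ i := Nat.le_mul_of_pos_right _ h
            exact (Nat.mul_le_mul h4 h3).trans (Nat.le_add_left _ _)
        unfold ws
        rw [Finset.sum_mul, hW₁, Finset.mul_sum, ← Finset.sum_add_distrib, ← hW₁]
        exact Finset.sum_le_sum fun i _ => h2 i
      rw [hu1, hu2, hd] at h1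
      omega
    obtain ⟨k, hk0, hk⟩ := hz
    obtain ⟨i, hi0, hi⟩ := hu
    have hik : i ≠ k := by
      intro h
      rw [h] at hi0
      omega
    have h2 : (monomial u 1 : MvPolynomial σ ℂ) =
        monomial (u - (Finsupp.single i K + Finsupp.single k K)) 1 * (X i * X k) ^ K := by
      rw [mul_pow, X_pow_eq_monomial, X_pow_eq_monomial, monomial_mul, monomial_mul, one_mul,
        one_mul, tsub_add_cancel_of_le]
      intro z
      rw [Finsupp.add_apply, Finsupp.single_apply, Finsupp.single_apply]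
      by_cases h1 : i = z
      · subst h1
        rw [if_pos rfl, if_neg (Ne.symm hik), add_zero]
        exact hi
      · rw [if_neg h1]
        by_cases h2 : k = z
        · subst h2
          rw [if_pos rfl, zero_add]
          exact hk
        · rw [if_neg h2]
          simp
    have h3 : (monomial u 1 : MvPolynomial σ ℂ) ∈ den S φ := by
      rw [h2]
      exact Ideal.mul_mem_left _ _ (hK i k hi0 hk0)
    exact h3
  · rintro x hx
    obtain ⟨⟨l, hl1, hl2, hl⟩, ⟨i, hi1, hi2, hi⟩⟩ := hne x hx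
    refine ⟨Finsupp.single l (d - e) + Finsupp.single i e, ?_, ?_, ?_⟩
    · rw [ws_add, ws_single, ws_single, hl1, hi1]
      omega
    · rw [ws_add, ws_single, ws_single, hl2, hi2]
      omega
    · have hev : eval x (monomial (Finsupp.single l (d - e) + Finsupp.single i e) (1 : ℂ))
          = x l ^ (d - e) * x i ^ e := by
        rw [← one_mul (1 : ℂ), ← monomial_mul, ← X_pow_eq_monomial, ← X_pow_eq_monomial]
        simp
      rw [hev]
      exact mul_ne_zero (pow_ne_zero _ hl) (pow_ne_zero _ hi)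

end H932S
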