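import Pool.Agent.H932.S.Stm2

/-!
# Finiteness of the values of the comparison function
-/

open MvPolynomial H960VB H960VB.Bundle2 Y208PT Pool.Agent.H106R3.VB H932V H932W H932L

namespace H932S

/-- The data: the points of `A` are not on the zero scheme of `s`, no line through a point of `A`
and a point of `Λ` meets it in a scheme of length more than `k`. -/
structure Sys (n : ℕ) where
  E : Bundle2 n
  s : Fin E.a → MvPolynomial (Fin (n + 1)) ℂ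
  r : ℤ
  hs : E.IsSection r s
  c₁ : ℤ
  D : Dl E c₁
  j : ℤ
  k : ℕ
  hk : 0 < k
  N : ℕ
  T : ℕ
  hN : (N : ℤ) = j - r + k + 1
  hT : (T : ℤ) = c₁ + j + r - k + 1
  K : PlkL E j (N + T)
  hok : ∀ y w : Fin (n + 1) → ℂ, LinearIndependent ℂ ![y, w] → Ok E j (N + T) y w
  A : Submodule ℂ (Fin (n + 1) → ℂ)
  Λ : Submodule ℂ (Fin (n + 1) → ℂ)
  hA : ∀ y ∈ A, y ≠ 0 → evv s y ≠ 0
  hno : ∀ y ∈ A, ∀ w ∈ Λ, LinearIndependent ℂ ![y, w] → ∀ c f, ¬ Dv E s r (k + 1) y w c f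

namespace Sys

variable {n : ℕ} (Z : Sys n)

/-- the variables -/
abbrev V : Type := Sg Z.E Z.r Z.k

def yv (v : Z.V → ℂ) : Fin (n + 1) → ℂ := fun i => v (Sum.inl (Sum.inl i))
def wv (v : Z.V → ℂ) : Fin (n + 1) → ℂ := fun i => v (Sum.inl (Sum.inr i))
def cv (v : Z.V → ℂ) : Fin Z.k → ℂ := fun i => v (Sum.inr (Sum.inl i))
def fw (v : Z.V → ℂ) : Idx Z.E.β (Z.r - Z.k) → ℂ := fun i => v (Sum.inr (Sum.inr i))

theorem pt_self (v : Z.V → ℂ) : (pt (Z.yv v) (Z.wv v) (Z.cv v) (Z.fw v) : Z.V → ℂ) = v := by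
  funext i
  rcases i with (i | i) | (i | i) <;> rfl

/-- the set -/
def SS : Set (Z.V → ℂ) := {v | Z.yv v ∈ Z.A ∧ Z.wv v ∈ Z.Λ ∧
  LinearIndependent ℂ ![Z.yv v, Z.wv v] ∧ Z.cv v ⟨0, Z.hk⟩ = 0 ∧
  Dv Z.E Z.s Z.r Z.k (Z.yv v) (Z.wv v) (Z.cv v) (Z.fw v)}

/-- the left hand side -/
noncomputable def lhs (J₂ : Fin 2 → Fin Z.E.a) (x : Fin Z.E.a) : MvPolynomial Z.V ℂ :=
  (rename (fun i => Sum.inl (Sum.inl i)) (Z.s x)) ^ Z.N *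
    (rename (fun i => Sum.inl (Sum.inl i)) (Z.D.δ J₂)) ^ Z.T

theorem eval_lhs (J₂ : Fin 2 → Fin Z.E.a) (x : Fin Z.E.a) (v : Z.V → ℂ) :
    eval v (Z.lhs J₂ x) = (eval (Z.yv v) (Z.s x)) ^ Z.N * (eval (Z.yv v) (Z.D.δ J₂)) ^ Z.T := by
  unfold lhs
  rw [map_mul, map_pow, map_pow, eval_rename, eval_rename]
  rfl

/-- the comparison polynomials -/
noncomputable def R (J₂ : Fin 2 → Fin Z.E.a) (x : Fin Z.E.a) : MvPolynomial Z.V ℂ :=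
  RR Z.E Z.r Z.k Z.K J₂ x

/-- the value of the comparison function -/
def kap (v : Z.V → ℂ) (κ : ℂ) : Prop := ∀ J₂ x, eval v (Z.lhs J₂ x) = κ * eval v (Z.R J₂ x)

theorem exists_lhs_ne {v : Z.V → ℂ} (hy : Z.yv v ∈ Z.A) (hy0 : Z.yv v ≠ 0) :
    ∃ J₂ x, eval v (Z.lhs J₂ x) ≠ 0 := by
  obtain ⟨J₂, hJ⟩ := Z.D.ne _ hy0
  obtain ⟨x, hx⟩ := Function.ne_iff.1 (Z.hA _ hy hy0)
  refine ⟨J₂, x, ?_⟩
  rw [eval_lhs]
  exact mul_ne_zero (pow_ne_zero _ hx) (pow_ne_zero _ hJ)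

theorem kap_exists (hX : S_Exact) (hB : S_Basis) (hE : S_Eval) {v : Z.V → ℂ} (hv : v ∈ Z.SS) :
    ∃ κ, Z.kap v κ := by
  obtain ⟨h1, h2, h3, h4, h5⟩ := hv
  have hy0 : Z.yv v ≠ 0 := h3.ne_zero 0
  have hnz := hX Z.E Z.s Z.r Z.k _ _ _ _ (Z.hA _ h1 hy0) h5 (Z.hno _ h1 _ h2 h3)
  have hkr := kr_of_dv Z.hs h3 h5
  obtain ⟨u, hu, hu2⟩ := hB Z.E Z.c₁ Z.D Z.r Z.k Z.j Z.N Z.T Z.hN Z.hT _ _ (Z.hok _ _ h3) _ hkr hnz
  obtain ⟨κ, hκ⟩ := hE Z.E Z.s Z.c₁ Z.D Z.r Z.k Z.j Z.N Z.T Z.hN Z.K _ _ (Z.hok _ _ h3) (Z.cv v) _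
    hkr h5 u hu hu2
  refine ⟨κ, fun J₂ x => ?_⟩
  rw [eval_lhs, hκ J₂ x, Z.pt_self v]
  rfl

theorem kap_ne {v : Z.V → ℂ} (hy : Z.yv v ∈ Z.A) (hy0 : Z.yv v ≠ 0) {κ : ℂ} (h : Z.kap v κ) :
    κ ≠ 0 := by
  rintro rfl
  obtain ⟨J₂, x, hx⟩ := Z.exists_lhs_ne hy hy0
  apply hx
  rw [h, zero_mul]

theorem kap_unique {v : Z.V → ℂ} (hy : Z.yv v ∈ Z.A) (hy0 : Z.yv v ≠ 0) {κ κ' : ℂ}
    (h : Z.kap v κ) (h' : Z.kap v κ') : κ = κ' := by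
  obtain ⟨J₂, x, hx⟩ := Z.exists_lhs_ne hy hy0
  have h1 := h J₂ x
  have h2 := h' J₂ x
  have h3 : eval v (Z.R J₂ x) ≠ 0 := by
    intro h0
    rw [h0, mul_zero] at h1
    exact hx h1
  exact mul_right_cancel₀ h3 (h1.symm.trans h2)

open Classical in
/-- the comparison function -/
noncomputable def kp (v : Z.V → ℂ) : ℂ := if h : ∃ κ, Z.kap v κ then h.choose else 0

theorem kp_spec {v : Z.V → ℂ} (h : ∃ κ, Z.kap v κ) : Z.kap v (Z.kp v) := by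
  unfold kp
  rw [dif_pos h]
  exact h.choose_spec

/-- the first weights -/
def wt₁ : Z.V → ℕ := Sum.elim (fun _ => 1) (Sum.elim (fun _ => 0) (fun z => (Z.E.β z.1 + Z.r).toNat))

/-- the second weights -/
def wt₂ : Z.V → ℕ := Sum.elim (Sum.elim (fun _ => 0) (fun _ => 1))
  (Sum.elim (fun h => (h : ℕ) + 1) (fun z => (z.2 : ℕ)))

theorem idx_pos (z : Idx Z.E.β (Z.r - Z.k)) : 0 ≤ Z.E.β z.1 + (Z.r - Z.k) ∧
    0 < Z.E.β z.1 + Z.r := by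
  have h1 := z.2.2
  have h2 := Z.hk
  omega

theorem wt_pos (i : Z.V) : 0 < Z.wt₁ i + Z.wt₂ i := by
  rcases i with (i | i) | (i | i)
  · simp [wt₁, wt₂]
  · simp [wt₁, wt₂]
  · simp [wt₁, wt₂]
  · have := (Z.idx_pos i).2
    simp only [wt₁, wt₂, Sum.elim_inr]
    omega

theorem act1_y (v : Z.V → ℂ) (t : ℂ) : Z.yv (fun i => t ^ Z.wt₁ i * v i) = t • Z.yv v := by
  funext i
  simp [yv, wt₁]

theorem act1_w (v : Z.V → ℂ) (t : ℂ) : Z.wv (fun i => t ^ Z.wt₁ i * v i) = t • Z.wv v := by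
  funext i
  simp [wv, wt₁]

theorem act1_c (v : Z.V → ℂ) (t : ℂ) : Z.cv (fun i => t ^ Z.wt₁ i * v i) = Z.cv v := by
  funext i
  simp [cv, wt₁]

theorem act1_f (v : Z.V → ℂ) (t : ℂ) : Z.fw (fun i => t ^ Z.wt₁ i * v i) =
    fun z => t ^ (Z.E.β z.1 + Z.r) * Z.fw v z := by
  funext z
  simp only [fw, wt₁, Sum.elim_inr]
  rw [← zpow_natCast]
  congr 2
  have := (Z.idx_pos z).2
  omega

theorem act2_y (v : Z.V → ℂ) (t : ℂ) : Z.yv (fun i => t ^ Z.wt₂ i * v i) = Z.yv v := by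
  funext i
  simp [yv, wt₂]

theorem act2_w (v : Z.V → ℂ) (t : ℂ) : Z.wv (fun i => t ^ Z.wt₂ i * v i) = t • Z.wv v := by
  funext i
  simp [wv, wt₂]

theorem act2_c (v : Z.V → ℂ) (t : ℂ) : Z.cv (fun i => t ^ Z.wt₂ i * v i) =
    fun h : Fin Z.k => t ^ ((h : ℕ) + 1) * Z.cv v h := by
  funext i
  simp [cv, wt₂]

theorem act2_f (v : Z.V → ℂ) (t : ℂ) : Z.fw (fun i => t ^ Z.wt₂ i * v i) =
    fun z => t ^ (z.2 : ℕ) * Z.fw v z := by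
  funext z
  simp [fw, wt₂]

theorem li_smul {y w : Fin (n + 1) → ℂ} (h : LinearIndependent ℂ ![y, w]) {a b : ℂ} (ha : a ≠ 0)
    (hb : b ≠ 0) : LinearIndependent ℂ ![a • y, b • w] := by
  rw [LinearIndependent.pair_iff] at h ⊢
  intro s r hsr
  have h1 := h (s * a) (r * b) (by rw [← hsr, smul_smul, smul_smul])
  exact ⟨(mul_eq_zero.1 h1.1).resolve_right ha, (mul_eq_zero.1 h1.2).resolve_right hb⟩

/-- scaling of both points -/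
theorem dv_act1 {v : Z.V → ℂ} (h : Dv Z.E Z.s Z.r Z.k (Z.yv v) (Z.wv v) (Z.cv v) (Z.fw v)) {t : ℂ}
    (ht : t ≠ 0) : Dv Z.E Z.s Z.r Z.k (t • Z.yv v) (t • Z.wv v) (Z.cv v)
      (fun z => t ^ (Z.E.β z.1 + Z.r) * Z.fw v z) := by
  intro i
  have h1 : pol Z.E (fun z => t ^ (Z.E.β z.1 + Z.r) * Z.fw v z) i =
      Polynomial.C (t ^ (Z.E.β i + Z.r)) * pol Z.E (Z.fw v) i := by
    unfold pol
    rw [Finset.mul_sum]
    refine Finset.sum_congr rfl fun b _ => ?_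
    rw [Polynomial.C_mul, mul_assoc]
  rw [h1, mul_left_comm, ← h i]
  apply Polynomial.funext
  intro u
  rw [eval_lp, Polynomial.eval_mul, Polynomial.eval_C, eval_lp]
  rcases Z.hs.1 i with h0 | ⟨d, hd, hp⟩
  · rw [h0]
    simp
  · have h2 : (fun l => (t • Z.yv v) l + (t • Z.wv v) l * u) =
        t • (fun l => Z.yv v l + Z.wv v l * u) := by
      funext l
      simp only [Pi.smul_apply, smul_eq_mul]
      ring
    rw [h2, Y208PT.eval_smul_hom hp, ← hd, zpow_natCast]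

/-- scaling of the second point -/
theorem dv_act2 {v : Z.V → ℂ} (h : Dv Z.E Z.s Z.r Z.k (Z.yv v) (Z.wv v) (Z.cv v) (Z.fw v))
    (t : ℂ) : Dv Z.E Z.s Z.r Z.k (Z.yv v) (t • Z.wv v) (fun h : Fin Z.k => t ^ ((h : ℕ) + 1) * Z.cv v h)
      (fun z => t ^ (z.2 : ℕ) * Z.fw v z) := by
  intro i
  have h1 : pol Z.E (fun z => t ^ (z.2 : ℕ) * Z.fw v z) i =
      (pol Z.E (Z.fw v) i).comp (Polynomial.C t * Polynomial.X) := by
    unfold pol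
    rw [Polynomial.sum_comp]
    refine Finset.sum_congr rfl fun b _ => ?_
    rw [Polynomial.mul_comp, Polynomial.C_comp, Polynomial.X_pow_comp, mul_pow, ← Polynomial.C_pow,
      Polynomial.C_mul]
    ring
  have h2 : cb (fun h : Fin Z.k => t ^ ((h : ℕ) + 1) * Z.cv v h) =
      (cb (Z.cv v)).comp (Polynomial.C t * Polynomial.X) := by
    unfold cb
    rw [Polynomial.add_comp, Polynomial.sum_comp, Polynomial.one_comp]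
    congr 1
    refine Finset.sum_congr rfl fun b _ => ?_
    rw [Polynomial.mul_comp, Polynomial.C_comp, Polynomial.X_pow_comp, mul_pow, ← Polynomial.C_pow,
      Polynomial.C_mul]
    ring
  rw [h1, h2, ← Polynomial.mul_comp, ← h i]
  apply Polynomial.funext
  intro u
  rw [Polynomial.eval_comp, eval_lp, eval_lp]
  congr 1
  congr 1
  funext l
  simp
  ring

theorem act1_mem {v : Z.V → ℂ} (hv : v ∈ Z.SS) {t : ℂ} (ht : t ≠ 0) :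
    (fun i => t ^ Z.wt₁ i * v i) ∈ Z.SS := by
  obtain ⟨h1, h2, h3, h4, h5⟩ := hv
  refine ⟨?_, ?_, ?_, ?_, ?_⟩
  · rw [act1_y]
    exact Z.A.smul_mem _ h1
  · rw [act1_w]
    exact Z.Λ.smul_mem _ h2
  · rw [act1_y, act1_w]
    exact li_smul h3 ht ht
  · rw [act1_c]
    exact h4
  · rw [act1_y, act1_w, act1_c, act1_f]
    exact Z.dv_act1 h5 ht

theorem act2_mem {v : Z.V → ℂ} (hv : v ∈ Z.SS) {t : ℂ} (ht : t ≠ 0) :
    (fun i => t ^ Z.wt₂ i * v i) ∈ Z.SS := by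
  obtain ⟨h1, h2, h3, h4, h5⟩ := hv
  refine ⟨?_, ?_, ?_, ?_, ?_⟩
  · rw [act2_y]
    exact h1
  · rw [act2_w]
    exact Z.Λ.smul_mem _ h2
  · rw [act2_y, act2_w]
    have := li_smul h3 (one_ne_zero (α := ℂ)) ht
    rwa [one_smul] at this
  · rw [act2_c]
    change t ^ (_ + 1) * Z.cv v ⟨0, Z.hk⟩ = 0
    rw [h4, mul_zero]
  · rw [act2_y, act2_w, act2_c, act2_f]
    exact Z.dv_act2 h5 t

/-- the first degree -/
def e₁ : ℤ := Z.N * (Z.j - Z.r) + Z.T * (Z.c₁ + Z.r + Z.j) - Z.K.d1 - Z.K.d2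

theorem kap_act1 (hH : S_Hom1) {v : Z.V → ℂ} {κ : ℂ} (h : Z.kap v κ) {t : ℂ} (ht : t ≠ 0) :
    Z.kap (fun i => t ^ Z.wt₁ i * v i) (t ^ (-Z.e₁) * κ) := by
  intro J₂ x
  have h1 := hH Z.E Z.r Z.k Z.j Z.N Z.T Z.K J₂ x (Z.yv v) (Z.wv v) (Z.cv v) (Z.fw v) t ht
  have h2 : (pt (t • Z.yv v) (t • Z.wv v) (Z.cv v)
      (fun z => t ^ (Z.E.β z.1 + Z.r) * Z.fw v z) : Z.V → ℂ) = fun i => t ^ Z.wt₁ i * v i := by
    rw [← act1_y, ← act1_w, ← act1_f]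
    have h3 := Z.pt_self (fun i => t ^ Z.wt₁ i * v i)
    rw [act1_c] at h3
    exact h3
  rw [h2, Z.pt_self] at h1
  have h4 := h J₂ x
  rw [eval_lhs] at h4 ⊢
  rw [act1_y]
  change _ = _ * eval _ (RR Z.E Z.r Z.k Z.K J₂ x)
  change _ = _ * eval _ (RR Z.E Z.r Z.k Z.K J₂ x) at h4
  rw [h1]
  have hs : eval (t • Z.yv v) (Z.s x) = t ^ (Z.E.β x + Z.r) * eval (Z.yv v) (Z.s x) := by
    rcases Z.hs.1 x with h0 | ⟨d, hd, hp⟩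
    · rw [h0]
      simp
    · rw [Y208PT.eval_smul_hom hp, ← hd, zpow_natCast]
  have hd : eval (t • Z.yv v) (Z.D.δ J₂) =
      t ^ (Z.E.β (J₂ 0) + Z.E.β (J₂ 1) - Z.c₁) * eval (Z.yv v) (Z.D.δ J₂) := by
    rcases Z.D.hom J₂ with h0 | ⟨d, hd, hp⟩
    · rw [h0]
      simp
    · rw [Y208PT.eval_smul_hom hp, ← hd, zpow_natCast]
  rw [hs, hd, mul_pow, mul_pow, ← zpow_natCast, ← zpow_natCast, ← zpow_mul, ← zpow_natCast _ Z.T,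
    ← zpow_natCast _ Z.T, ← zpow_mul]
  rw [← zpow_natCast, ← zpow_natCast] at h4
  have h5 : t ^ ((Z.E.β x + Z.r) * (Z.N : ℤ)) *
      t ^ ((Z.E.β (J₂ 0) + Z.E.β (J₂ 1) - Z.c₁) * (Z.T : ℤ)) = t ^ (-Z.e₁) *
      t ^ (Z.N * (Z.E.β x + Z.j) + Z.T * (Z.E.β (J₂ 0) + Z.E.β (J₂ 1) + Z.r + Z.j) - Z.K.d1 -
        Z.K.d2) := by
    rw [← zpow_add₀ ht, ← zpow_add₀ ht]
    congr 1
    unfold e₁
    ring
  linear_combination (eval (Z.yv v) (Z.s x) ^ (Z.N : ℤ) * eval (Z.yv v) (Z.D.δ J₂) ^ (Z.T : ℤ)) * h5 +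
    (t ^ (-Z.e₁) *
      t ^ (Z.N * (Z.E.β x + Z.j) + Z.T * (Z.E.β (J₂ 0) + Z.E.β (J₂ 1) + Z.r + Z.j) - Z.K.d1 -
        Z.K.d2)) * h4

theorem kap_act2 (hH : S_Hom2) {v : Z.V → ℂ} {κ : ℂ} (h : Z.kap v κ) {t : ℂ} (ht : t ≠ 0) (e : ℤ)
    (he : 2 * e = Z.N * ((Z.N : ℤ) - 1) + Z.T * ((Z.T : ℤ) - 1) - 2 * Z.K.d2) :
    Z.kap (fun i => t ^ Z.wt₂ i * v i) (t ^ (-e) * κ) := by
  intro J₂ x
  have h1 := hH Z.E Z.r Z.k Z.j Z.N Z.T Z.K J₂ x (Z.yv v) (Z.wv v) (Z.cv v)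
    (fun h : Fin Z.k => t ^ ((h : ℕ) + 1) * Z.cv v h) (Z.fw v) t ht e he
  have h2 : (pt (Z.yv v) (t • Z.wv v) (fun h : Fin Z.k => t ^ ((h : ℕ) + 1) * Z.cv v h)
      (fun z => t ^ (z.2 : ℕ) * Z.fw v z) : Z.V → ℂ) = fun i => t ^ Z.wt₂ i * v i := by
    rw [← act2_w, ← act2_c, ← act2_f]
    have h3 := Z.pt_self (fun i => t ^ Z.wt₂ i * v i)
    rw [act2_y] at h3
    exact h3
  rw [h2, Z.pt_self] at h1
  have h4 := h J₂ x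
  rw [eval_lhs] at h4 ⊢
  rw [act2_y]
  change _ = _ * eval _ (RR Z.E Z.r Z.k Z.K J₂ x)
  change _ = _ * eval _ (RR Z.E Z.r Z.k Z.K J₂ x) at h4
  rw [h1, h4]
  have h5 : t ^ (-e) * t ^ e = 1 := by
    rw [← zpow_add₀ ht]
    simp
  linear_combination (-(κ * eval v (RR Z.E Z.r Z.k Z.K J₂ x))) * h5

end Sys

end H932S
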