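import Pool.Agent.H932.S.FinV

/-!
# Finiteness of the values of the comparison function, II
-/

open MvPolynomial H960VB H960VB.Bundle2 Y208PT Pool.Agent.H106R3.VB H932V H932W H932L

namespace H932S

/-- a linear form in some of the variables -/
noncomputable def linP {n : ℕ} {σ : Type} (ℓ : (Fin (n + 1) → ℂ) →ₗ[ℂ] ℂ) (em : Fin (n + 1) → σ) :
    MvPolynomial σ ℂ := ∑ i, C (ℓ (Pi.single i 1)) * X (em i)

theorem eval_linP {n : ℕ} {σ : Type} (ℓ : (Fin (n + 1) → ℂ) →ₗ[ℂ] ℂ) (em : Fin (n + 1) → σ)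
    (v : σ → ℂ) : eval v (linP ℓ em) = ℓ (fun i => v (em i)) := by
  unfold linP
  rw [map_sum]
  have h1 : (fun i => v (em i)) = ∑ i, v (em i) • (Pi.single i 1 : Fin (n + 1) → ℂ) := by
    ext k
    simp [Finset.sum_apply, Pi.single_apply]
  rw [h1, map_sum]
  refine Finset.sum_congr rfl fun i _ => ?_
  rw [map_mul, eval_C, eval_X, map_smul, smul_eq_mul, mul_comm]

theorem mem_of_forms {n : ℕ} (W : Submodule ℂ (Fin (n + 1) → ℂ)) (x : Fin (n + 1) → ℂ)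
    (h : ∀ ℓ : (Fin (n + 1) → ℂ) →ₗ[ℂ] ℂ, (∀ y ∈ W, ℓ y = 0) → ℓ x = 0) : x ∈ W := by
  by_contra hx
  obtain ⟨f, hf, hW⟩ := Submodule.exists_le_ker_of_notMem hx
  exact hf (h f (fun y hy => hW hy))

namespace Sys

variable {n : ℕ} (Z : Sys n)

/-- the coefficient of order `m` of the divisor -/
noncomputable def cP (m : ℕ) : MvPolynomial Z.V ℂ :=
  if m = 0 then 1 else if h : m - 1 < Z.k then X (Sum.inr (Sum.inl ⟨m - 1, h⟩)) else 0

theorem eval_cP (v : Z.V → ℂ) (m : ℕ) : eval v (Z.cP m) = (cb (Z.cv v)).coeff m := by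
  unfold cP
  rcases m with _ | m
  · rw [if_pos rfl, map_one, cb_coeff_zero]
  · rw [if_neg (by omega), cb_coeff_succ]
    by_cases h : m < Z.k
    · rw [dif_pos h, dif_pos (show m + 1 - 1 < Z.k by simpa using h), eval_X]
      rfl
    · rw [dif_neg h, dif_neg (show ¬ m + 1 - 1 < Z.k by simpa using h), map_zero]

theorem eval_fv (v : Z.V → ℂ) (i : Fin Z.E.a) (m : ℕ) :
    eval v (fv Z.E Z.r Z.k i m) = (pol Z.E (Z.fw v) i).coeff m := by
  rw [pol_coeff]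
  unfold fv cf
  split_ifs with h
  · rw [eval_X]
    rfl
  · rw [map_zero]

/-- the equations -/
noncomputable def eqP (i : Fin Z.E.a) (m : ℕ) : MvPolynomial Z.V ℂ :=
  rename Sum.inl ((sb n (Z.s i)).coeff m) -
    ∑ p ∈ Finset.HasAntidiagonal.antidiagonal m, Z.cP p.1 * fv Z.E Z.r Z.k i p.2

theorem eval_eqP (v : Z.V → ℂ) (i : Fin Z.E.a) (m : ℕ) : eval v (Z.eqP i m) =
    (lp (Z.yv v) (Z.wv v) (Z.s i)).coeff m - (cb (Z.cv v) * pol Z.E (Z.fw v) i).coeff m := by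
  unfold eqP
  rw [map_sub, map_sum, eval_rename, Polynomial.coeff_mul]
  have h1 : (v ∘ Sum.inl : V2 n → ℂ) = Sum.elim (Z.yv v) (Z.wv v) := by
    funext i
    rcases i with i | i <;> rfl
  rw [h1, coeff_eval_sb]
  congr 1
  refine Finset.sum_congr rfl fun p _ => ?_
  rw [map_mul, eval_cP, eval_fv]

/-- the function -/
noncomputable def phi (l i : Fin (n + 1)) (g : ℤ) (e : ℕ) (v : Z.V → ℂ) : ℂ :=
  v (Sum.inl (Sum.inl l)) ^ g * v (Sum.inl (Sum.inr i)) ^ e * Z.kp v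

theorem mem_den {φ : (Z.V → ℂ) → ℂ} {p : MvPolynomial Z.V ℂ} (h : ∀ v ∈ Z.SS, eval v p = 0) :
    p ∈ den Z.SS φ := ⟨0, fun v hv => by rw [h v hv, mul_zero, map_zero]⟩

theorem R_mem_den (hX : S_Exact) (hB : S_Basis) (hE : S_Eval) (l i : Fin (n + 1)) (g : ℤ) (e : ℕ)
    (hg : 0 ≤ g ∨ ∀ y ∈ Z.A, y ≠ 0 → y l ≠ 0) (J₂ : Fin 2 → Fin Z.E.a) (x : Fin Z.E.a) :
    X (Sum.inl (Sum.inl l)) ^ (-g).toNat * Z.R J₂ x ∈ den Z.SS (Z.phi l i g e) := by
  refine ⟨X (Sum.inl (Sum.inl l)) ^ g.toNat * X (Sum.inl (Sum.inr i)) ^ e * Z.lhs J₂ x,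
    fun v hv => ?_⟩
  have h1 := Z.kp_spec (Z.kap_exists hX hB hE hv) J₂ x
  simp only [map_mul, map_pow, eval_X, phi]
  rw [h1]
  have h2 : v (Sum.inl (Sum.inl l)) ^ g * v (Sum.inl (Sum.inl l)) ^ (-g).toNat =
      v (Sum.inl (Sum.inl l)) ^ g.toNat := by
    rcases le_or_gt 0 g with h | h
    · have e1 : (-g).toNat = 0 := by omega
      obtain ⟨m, rfl⟩ := Int.eq_ofNat_of_zero_le h
      rw [e1]
      simp
    · have e1 : g.toNat = 0 := by omega
      obtain ⟨m, hm⟩ : ∃ m : ℕ, g = -(m : ℤ) := ⟨(-g).toNat, by omega⟩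
      have hl : v (Sum.inl (Sum.inl l)) ≠ 0 := by
        rcases hg with hg | hg
        · omega
        · exact hg _ hv.1 (hv.2.2.1.ne_zero 0)
      subst hm
      rw [e1]
      simp only [neg_neg, Int.toNat_natCast, zpow_neg, zpow_natCast, pow_zero]
      exact inv_mul_cancel₀ (pow_ne_zero _ hl)
  linear_combination (v (Sum.inl (Sum.inr i)) ^ e * Z.kp v * eval v (Z.R J₂ x)) * h2

theorem zero_locus (hX : S_Exact) (hB : S_Basis) (hE : S_Eval) (hD : S_Degen)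
    (l i : Fin (n + 1)) (g : ℤ) (e : ℕ)
    (hg : 0 ≤ g ∨ ∀ y ∈ Z.A, y ≠ 0 → y l ≠ 0) (v : Z.V → ℂ)
    (hv : ∀ p ∈ den Z.SS (Z.phi l i g e), eval v p = 0) :
    (∀ i, Z.wt₂ i = 0 → v i = 0) ∨ (∀ i, 0 < Z.wt₂ i → v i = 0) := by
  have hyA : Z.yv v ∈ Z.A := by
    apply mem_of_forms
    intro ℓ hℓ
    have h1 := hv _ (Z.mem_den (p := linP ℓ (fun i => Sum.inl (Sum.inl i))) (fun u hu => by
      rw [eval_linP]
      exact hℓ _ hu.1))
    rwa [eval_linP] at h1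
  have hwΛ : Z.wv v ∈ Z.Λ := by
    apply mem_of_forms
    intro ℓ hℓ
    have h1 := hv _ (Z.mem_den (p := linP ℓ (fun i => Sum.inl (Sum.inr i))) (fun u hu => by
      rw [eval_linP]
      exact hℓ _ hu.2.1))
    rwa [eval_linP] at h1
  have hc0 : Z.cv v ⟨0, Z.hk⟩ = 0 := by
    have h1 := hv _ (Z.mem_den (p := X (Sum.inr (Sum.inl ⟨0, Z.hk⟩))) (fun u hu => by
      rw [eval_X]
      exact hu.2.2.2.1))
    rwa [eval_X] at h1
  have hdv : Dv Z.E Z.s Z.r Z.k (Z.yv v) (Z.wv v) (Z.cv v) (Z.fw v) := by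
    intro i
    ext m
    have h1 := hv _ (Z.mem_den (p := Z.eqP i m) (fun u hu => by
      rw [eval_eqP, hu.2.2.2.2 i, sub_self]))
    rw [eval_eqP] at h1
    exact sub_eq_zero.1 h1
  by_cases hy0 : Z.yv v = 0
  · left
    have hy0' : ∀ i, v (Sum.inl (Sum.inl i)) = 0 := fun i => congrFun hy0 i
    intro i hi
    rcases i with (i | i) | (i | z)
    · exact hy0' i
    · simp [wt₂] at hi
    · simp [wt₂] at hi
    · have hz : (z.2 : ℕ) = 0 := hi
      have h1 := pol_zero_of_dv hdv z.1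
      rw [pol_coeff, hy0] at h1
      have h2 : cf Z.E (Z.fw v) 0 z.1 = v (Sum.inr (Sum.inr z)) := by
        unfold cf
        have h3 : 0 < (Z.E.β z.1 + (Z.r - Z.k) + 1).toNat := by
          have := z.2.2
          omega
        rw [dif_pos h3]
        have h4 : (⟨z.1, ⟨0, h3⟩⟩ : Idx Z.E.β (Z.r - Z.k)) = z := by
          obtain ⟨a, b⟩ := z
          simp only [Sigma.mk.injEq, heq_eq_eq, true_and]
          exact Fin.ext hz.symm
        change v (Sum.inr (Sum.inr _)) = _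
        rw [h4]
      rw [← h2, h1]
      rcases Z.hs.1 z.1 with h0 | ⟨d, hd, hp⟩
      · rw [h0, map_zero]
      · have hd0 : d ≠ 0 := by
          have := (Z.idx_pos z).2
          omega
        have h5 := Y208PT.eval_smul_hom hp (0 : ℂ) (0 : Fin (n + 1) → ℂ)
        rw [smul_zero, zero_pow hd0, zero_mul] at h5
        exact h5
  · by_cases hli : LinearIndependent ℂ ![Z.yv v, Z.wv v]
    · exfalso
      have hvS : v ∈ Z.SS := ⟨hyA, hwΛ, hli, hc0, hdv⟩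
      obtain ⟨J₂, x, hx⟩ := Z.exists_lhs_ne hyA hy0
      have h1 := Z.kp_spec (Z.kap_exists hX hB hE hvS) J₂ x
      have h2 := hv _ (Z.R_mem_den hX hB hE l i g e hg J₂ x)
      rw [map_mul, map_pow, eval_X] at h2
      rcases mul_eq_zero.1 h2 with h3 | h3
      · rcases hg with hg | hg
        · have e1 : (-g).toNat = 0 := by omega
          rw [e1, pow_zero] at h3
          exact one_ne_zero h3
        · exact pow_ne_zero _ (hg _ hyA hy0) h3
      · rw [h3, mul_zero] at h1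
        exact hx h1
    · right
      rw [LinearIndependent.pair_iff' hy0] at hli
      push Not at hli
      obtain ⟨lam, hlam⟩ := hli
      obtain ⟨h1, h2, h3⟩ := hD Z.E Z.s Z.r Z.hs Z.k Z.hk (Z.yv v) (Z.wv v) lam hlam.symm (Z.cv v)
        (Z.fw v) (Z.hA _ hyA hy0) hdv hc0
      intro i hi
      rcases i with (i | i) | (i | z)
      · simp [wt₂] at hi
      · exact congrFun h1 i
      · exact congrFun h2 i
      · exact h3 z hi

/-- **The values are finite in number.** -/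
theorem finite_values (hX : S_Exact) (hB : S_Basis) (hE : S_Eval) (hD : S_Degen) (hH1 : S_Hom1)
    (hH2 : S_Hom2) (hF : S_FinMon) (l i : Fin (n + 1)) (g : ℤ) (e : ℕ)
    (hl : ∀ y ∈ Z.A, y ≠ 0 → ∃ l, y l ≠ 0)
    (he : 2 * (e : ℤ) = Z.N * ((Z.N : ℤ) - 1) + Z.T * ((Z.T : ℤ) - 1) - 2 * Z.K.d2)
    (hge : g + e = Z.e₁) (hg : 0 ≤ g ∨ ∀ y ∈ Z.A, y ≠ 0 → y l ≠ 0) :
    ((Z.phi l i g e) '' Z.SS).Finite := by
  refine hF Z.wt₁ Z.wt₂ Z.wt_pos Z.SS (Z.phi l i g e) ?_ ?_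
    (Z.zero_locus hX hB hE hD l i g e hg) ?_
  · intro v hv t ht
    have h1 := Z.act1_mem hv ht
    refine ⟨h1, ?_⟩
    have h2 := Z.kap_act1 hH1 (Z.kp_spec (Z.kap_exists hX hB hE hv)) ht
    have h3 := Z.kap_unique h1.1 (h1.2.2.1.ne_zero 0) (Z.kp_spec (Z.kap_exists hX hB hE h1)) h2
    simp only [phi]
    rw [h3]
    have e1 : Z.wt₁ (Sum.inl (Sum.inl l)) = 1 := rfl
    have e2 : Z.wt₁ (Sum.inl (Sum.inr i)) = 1 := rfl
    rw [e1, e2, pow_one, mul_zpow, mul_pow]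
    have h4 : t ^ g * t ^ e * t ^ (-Z.e₁) = 1 := by
      rw [← hge, ← zpow_natCast t e, ← zpow_add₀ ht, ← zpow_add₀ ht]
      simp
    linear_combination (v (Sum.inl (Sum.inl l)) ^ g * v (Sum.inl (Sum.inr i)) ^ e * Z.kp v) * h4
  · intro v hv t ht
    have h1 := Z.act2_mem hv ht
    refine ⟨h1, ?_⟩
    have h2 := Z.kap_act2 hH2 (Z.kp_spec (Z.kap_exists hX hB hE hv)) ht e he
    have h3 := Z.kap_unique h1.1 (h1.2.2.1.ne_zero 0) (Z.kp_spec (Z.kap_exists hX hB hE h1)) h2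
    simp only [phi]
    rw [h3]
    have e1 : Z.wt₂ (Sum.inl (Sum.inl l)) = 0 := rfl
    have e2 : Z.wt₂ (Sum.inl (Sum.inr i)) = 1 := rfl
    rw [e1, e2, pow_one, pow_zero, one_mul, mul_pow]
    have h4 : t ^ e * t ^ (-(e : ℤ)) = 1 := by
      rw [← zpow_natCast t e, ← zpow_add₀ ht]
      simp
    linear_combination (v (Sum.inl (Sum.inl l)) ^ g * v (Sum.inl (Sum.inr i)) ^ e * Z.kp v) * h4
  · intro v hv
    refine ⟨?_, ?_⟩
    · obtain ⟨l, hl⟩ := hl _ hv.1 (hv.2.2.1.ne_zero 0)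
      exact ⟨Sum.inl (Sum.inl l), rfl, rfl, hl⟩
    · obtain ⟨i, hi⟩ := Function.ne_iff.1 (hv.2.2.1.ne_zero 1)
      exact ⟨Sum.inl (Sum.inr i), rfl, rfl, hi⟩

end Sys

end H932S
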