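import Pool.Agent.H932.S.Len

/-!
# The length of the intersection of a subscheme with a line, in terms of the section
-/

set_option autoImplicit false

open MvPolynomial H960VB H960VB.Bundle2 Y208PT Pool.Agent.H106R3.VB H932V H932W H932L

namespace H932S

namespace LenA

/-! ### Binary forms and polynomials in one variable -/

/-- dehomogenisation -/
noncomputable def dh : MvPolynomial (Fin 2) ℂ →ₐ[ℂ] Polynomial ℂ :=
  aeval ![(1 : Polynomial ℂ), Polynomial.X]

/-- homogenisation -/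
noncomputable def hg (d : ℕ) (p : Polynomial ℂ) : MvPolynomial (Fin 2) ℂ :=
  ∑ m ∈ Finset.range (d + 1), C (p.coeff m) * (X 0 ^ (d - m) * X 1 ^ m)

theorem eval_aeval {σ τ : Type} (f : σ → MvPolynomial τ ℂ) (z : τ → ℂ) (F : MvPolynomial σ ℂ) :
    eval z (aeval f F) = eval (fun i => eval z (f i)) F := by
  have h : (aeval z : MvPolynomial τ ℂ →ₐ[ℂ] ℂ).comp (aeval f) =
      (aeval (fun i => eval z (f i)) : MvPolynomial σ ℂ →ₐ[ℂ] ℂ) := by
    apply MvPolynomial.algHom_ext
    intro i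
    rw [AlgHom.comp_apply, aeval_X, aeval_X]
    rfl
  exact congrArg (fun g => g F) h

theorem dh_eval (F : MvPolynomial (Fin 2) ℂ) (t : ℂ) : (dh F).eval t = eval ![1, t] F := by
  have h : (Polynomial.aeval t : Polynomial ℂ →ₐ[ℂ] ℂ).comp dh =
      (aeval ![1, t] : MvPolynomial (Fin 2) ℂ →ₐ[ℂ] ℂ) := by
    apply MvPolynomial.algHom_ext
    intro i
    rw [AlgHom.comp_apply, dh, aeval_X, aeval_X]
    fin_cases i
    · simp
    · simp
  exact congrArg (fun g => g F) h

theorem eval_smul_hom {σ : Type} {F : MvPolynomial σ ℂ} {d : ℕ} (hF : F.IsHomogeneous d) (t : ℂ)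
    (z : σ → ℂ) : eval (fun i => t * z i) F = t ^ d * eval z F := by
  rw [eval_eq, eval_eq, Finset.mul_sum]
  refine Finset.sum_congr rfl fun m hm => ?_
  have h1 : m.degree = d := by
    by_contra hne
    exact (mem_support_iff.1 hm) (hF.coeff_eq_zero hne)
  simp only [mul_pow]
  rw [Finset.prod_mul_distrib, Finset.prod_pow_eq_pow_sum, ← h1]
  have h2 : ∑ i ∈ m.support, m i = m.degree := rfl
  rw [h2]
  ring

theorem eval_hom {F : MvPolynomial (Fin 2) ℂ} {d : ℕ} (hF : F.IsHomogeneous d) (z : Fin 2 → ℂ)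
    (hz : z 0 ≠ 0) : eval z F = z 0 ^ d * (dh F).eval (z 1 / z 0) := by
  rw [dh_eval, ← eval_smul_hom hF]
  congr 1
  congr 1
  funext i
  fin_cases i
  · simp
  · simp
    field_simp

theorem eq_zero_of {F : MvPolynomial (Fin 2) ℂ} {d : ℕ} (hF : F.IsHomogeneous d)
    (h : dh F = 0) : F = 0 := by
  have h1 : (X 0 : MvPolynomial (Fin 2) ℂ) * F = 0 := by
    apply MvPolynomial.funext
    intro z
    rw [map_mul, map_zero, eval_X]
    by_cases hz : z 0 = 0
    · rw [hz, zero_mul]
    · rw [eval_hom hF z hz, h, Polynomial.eval_zero, mul_zero, mul_zero]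
  rcases mul_eq_zero.1 h1 with h2 | h2
  · exact absurd h2 (X_ne_zero 0)
  · exact h2

theorem eq_of {F G : MvPolynomial (Fin 2) ℂ} {d : ℕ} (hF : F.IsHomogeneous d)
    (hG : G.IsHomogeneous d) (h : dh F = dh G) : F = G := by
  have h1 := eq_zero_of (hF.sub hG) (by rw [map_sub, h, sub_self])
  exact sub_eq_zero.1 h1

theorem hg_hom (d : ℕ) (p : Polynomial ℂ) : (hg d p).IsHomogeneous d := by
  unfold hg
  refine IsHomogeneous.sum _ _ _ fun m hm => ?_
  have hm' : m ≤ d := Nat.lt_succ_iff.1 (Finset.mem_range.1 hm)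
  refine IsHomogeneous.C_mul ?_ _
  have h := (isHomogeneous_X_pow (R := ℂ) (0 : Fin 2) (d - m)).mul
    (isHomogeneous_X_pow (R := ℂ) (1 : Fin 2) m)
  rwa [Nat.sub_add_cancel hm'] at h

theorem dh_hg {d : ℕ} {p : Polynomial ℂ} (hp : ∀ m, d < m → p.coeff m = 0) :
    dh (hg d p) = p := by
  unfold hg
  rw [map_sum]
  have h1 : ∀ m ∈ Finset.range (d + 1), dh (C (p.coeff m) * (X 0 ^ (d - m) * X 1 ^ m)) =
      Polynomial.C (p.coeff m) * Polynomial.X ^ m := by
    intro m _
    have h2 : dh (C (p.coeff m)) = Polynomial.C (p.coeff m) := AlgHom.commutes dh _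
    have h3 : dh (X 0) = 1 := by
      unfold dh
      rw [aeval_X]
      rfl
    have h4 : dh (X 1) = Polynomial.X := by
      unfold dh
      rw [aeval_X]
      rfl
    rw [map_mul, map_mul, map_pow, map_pow, h2, h3, h4, one_pow, one_mul]
  rw [Finset.sum_congr rfl h1]
  have h5 : p.natDegree < d + 1 := by
    rw [Nat.lt_succ_iff, Polynomial.natDegree_le_iff_coeff_eq_zero]
    exact hp
  exact (Polynomial.as_sum_range_C_mul_X_pow' p h5).symm

theorem hg_zero (d : ℕ) : hg d 0 = 0 := by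
  unfold hg
  refine Finset.sum_eq_zero fun m _ => ?_
  rw [Polynomial.coeff_zero, C_0, zero_mul]

/-- the value at infinity -/
theorem hg_inf (d : ℕ) (p : Polynomial ℂ) (z : Fin 2 → ℂ) (hz : z 0 = 0) :
    eval z (hg d p) = z 1 ^ d * p.coeff d := by
  unfold hg
  rw [map_sum, Finset.sum_eq_single d]
  · simp
    ring
  · intro m hm hne
    have hm' : m < d + 1 := Finset.mem_range.1 hm
    simp only [map_mul, map_pow, eval_C, eval_X, hz]
    rw [zero_pow (by omega)]
    ring
  · intro h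
    exact absurd (Finset.mem_range.2 (Nat.lt_succ_self d)) h

theorem dh_natDegree (F : MvPolynomial (Fin 2) ℂ) : (dh F).natDegree ≤ F.totalDegree := by
  have h := aeval_natDegree_le (m := F.totalDegree) (n := 1) F le_rfl
    ![(1 : Polynomial ℂ), Polynomial.X] (fun i => by
      fin_cases i
      · simp
      · simp)
  rw [mul_one] at h
  exact h

/-! ### The restriction to a line -/

section line

variable {n : ℕ} (A B : Fin (n + 1) → ℂ)

theorem eval_res (z : Fin 2 → ℂ) (F : MvPolynomial (Fin (n + 1)) ℂ) :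
    eval z (res A B F) = eval (fun i => A i * z 0 + B i * z 1) F := by
  unfold res
  rw [eval_aeval]
  congr 1
  congr 1
  funext i
  simp

theorem dh_res (F : MvPolynomial (Fin (n + 1)) ℂ) : dh (res A B F) = lp A B F := by
  apply Polynomial.funext
  intro t
  rw [dh_eval, eval_res, eval_lp]
  simp

theorem res_hom {F : MvPolynomial (Fin (n + 1)) ℂ} {d : ℕ} (hF : F.IsHomogeneous d) :
    (res A B F).IsHomogeneous d := by
  unfold res
  have h := hF.aeval (fun i => C (A i) * X 0 + C (B i) * X 1) (n := 1) (fun i =>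
    ((isHomogeneous_X ℂ (0 : Fin 2)).C_mul _).add ((isHomogeneous_X ℂ (1 : Fin 2)).C_mul _))
  rwa [one_mul] at h

/-- the quotients are binary forms -/
theorem quot {F : MvPolynomial (Fin (n + 1)) ℂ} {d k : ℕ} (hF : F.IsHomogeneous d)
    {g h : MvPolynomial (Fin 2) ℂ} (hg1 : g.IsHomogeneous k) (hg0 : g ≠ 0)
    (h0 : res A B F = g * h) (hh : h ≠ 0) :
    k ≤ d ∧ h.IsHomogeneous (d - k) := by
  have hr := res_hom A B hF
  have hne : res A B F ≠ 0 := by
    rw [h0]
    exact mul_ne_zero hg0 hh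
  have h1 : d = k + h.totalDegree := by
    rw [← hr.totalDegree hne, ← hg1.totalDegree hg0, h0, totalDegree_mul_of_isDomain hg0 hh]
  refine ⟨by omega, ?_⟩
  have h2 : dh (hg (d - k) (dh h)) = dh h := by
    refine dh_hg fun m hm => ?_
    apply Polynomial.coeff_eq_zero_of_natDegree_lt
    have := dh_natDegree h
    omega
  have h3 : g * hg (d - k) (dh h) = g * h := by
    have h4 := hg1.mul (hg_hom (d - k) (dh h))
    rw [show k + (d - k) = d by omega] at h4
    refine eq_of h4 (h0 ▸ hr) ?_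
    rw [map_mul, map_mul, h2]
  have h5 := mul_left_cancel₀ hg0 h3
  rw [← h5]
  exact hg_hom _ _

end line

/-- Bezout -/
theorem bezout {a : ℕ} (p : Fin a → Polynomial ℂ) (h : ∀ t : ℂ, ∃ i, (p i).eval t ≠ 0) :
    ∃ u : Fin a → Polynomial ℂ, ∑ i, u i * p i = 1 := by
  have h1 : (1 : Polynomial ℂ) ∈ Ideal.span (Set.range p) := by
    obtain ⟨q, hq⟩ := (IsPrincipalIdealRing.principal (Ideal.span (Set.range p))).principal
    have hq' : Ideal.span (Set.range p) = Ideal.span {q} := hq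
    rw [hq']
    by_cases hu : IsUnit q
    · rw [Ideal.span_singleton_eq_top.2 hu]
      trivial
    · exfalso
      obtain ⟨t, ht⟩ : ∃ t, q.eval t = 0 := by
        by_cases h0 : q = 0
        · exact ⟨0, by rw [h0, Polynomial.eval_zero]⟩
        · have hd : q.degree ≠ 0 := fun hd => hu (Polynomial.isUnit_iff_degree_eq_zero.2 hd)
          obtain ⟨t, ht⟩ := IsAlgClosed.exists_root q hd
          exact ⟨t, ht⟩
      obtain ⟨i, hi⟩ := h t
      apply hi
      have h2 : p i ∈ Ideal.span {q} := by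
        rw [← hq']
        exact Ideal.subset_span ⟨i, rfl⟩
      obtain ⟨w, hw⟩ := Ideal.mem_span_singleton.1 h2
      rw [hw, Polynomial.eval_mul, ht, zero_mul]
  exact (Ideal.mem_span_range_iff_exists_fun).1 h1

/-- cancellation of powers of the variables -/
theorem dvd_of_pow {g F : MvPolynomial (Fin 2) ℂ} (hg0 : g ≠ 0) {M : ℕ}
    (h0 : g ∣ X 0 ^ M * F) (h1 : g ∣ X 1 ^ M * F) : g ∣ F := by
  obtain ⟨a, ha⟩ := h0
  obtain ⟨b, hb⟩ := h1
  have h2 : g * (X 1 ^ M * a) = g * (X 0 ^ M * b) := by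
    calc g * (X 1 ^ M * a) = X 1 ^ M * (g * a) := by ring
      _ = X 1 ^ M * (X 0 ^ M * F) := by rw [ha]
      _ = X 0 ^ M * (X 1 ^ M * F) := by ring
      _ = X 0 ^ M * (g * b) := by rw [hb]
      _ = g * (X 0 ^ M * b) := by ring
  have h3 := mul_left_cancel₀ hg0 h2
  have hp : Prime (X 0 : MvPolynomial (Fin 2) ℂ) := X_prime
  have h4 : (X 0 : MvPolynomial (Fin 2) ℂ) ^ M ∣ a := by
    refine hp.pow_dvd_of_dvd_mul_left M (a := X 1 ^ M) ?_ ⟨b, h3⟩
    intro h5
    have h6 := hp.dvd_of_dvd_pow h5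
    obtain ⟨w, hw⟩ := h6
    have h7 := congrArg (eval ![0, 1]) hw
    simp at h7
  obtain ⟨a', ha'⟩ := h4
  refine ⟨a', ?_⟩
  have h5 : (X 0 : MvPolynomial (Fin 2) ℂ) ^ M * F = X 0 ^ M * (g * a') := by
    rw [ha, ha']
    ring
  exact mul_left_cancel₀ (pow_ne_zero M (X_ne_zero 0)) h5

/-- a nonzero minor -/
theorem minor {n : ℕ} {A B : Fin (n + 1) → ℂ} (h : LinearIndependent ℂ ![A, B]) :
    ∃ l m, A l * B m - A m * B l ≠ 0 := by
  by_contra hcon
  push Not at hcon
  rw [LinearIndependent.pair_iff] at h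
  have hA : A ≠ 0 := by
    rintro rfl
    exact one_ne_zero (h 1 0 (by simp)).1
  obtain ⟨l, hl⟩ := Function.ne_iff.1 hA
  have h1 := h (B l) (-(A l)) (by
    funext m
    have := hcon l m
    simp only [Pi.add_apply, Pi.smul_apply, smul_eq_mul, Pi.zero_apply]
    linear_combination -this)
  exact hl (neg_eq_zero.1 h1.2)

/-- the conclusion from the powers of the linear forms -/
theorem dvd_of_lin {n : ℕ} {A B : Fin (n + 1) → ℂ} (h : LinearIndependent ℂ ![A, B])
    {g F : MvPolynomial (Fin 2) ℂ} (hg0 : g ≠ 0) {N : ℕ}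
    (hd : ∀ l, g ∣ (C (A l) * X 0 + C (B l) * X 1) ^ N * F) : g ∣ F := by
  obtain ⟨l, m, hD⟩ := minor h
  let J : Ideal (MvPolynomial (Fin 2) ℂ) :=
    { carrier := {u | g ∣ u * F}
      add_mem' := fun {u v} hu hv => by
        change g ∣ (u + v) * F
        rw [add_mul]
        exact dvd_add hu hv
      zero_mem' := by
        change g ∣ 0 * F
        rw [zero_mul]
        exact dvd_zero g
      smul_mem' := fun c u hu => by
        change g ∣ c • u * F
        rw [smul_eq_mul, mul_assoc]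
        exact Dvd.dvd.mul_left hu c }
  have hJ : ∀ u, u ∈ J ↔ g ∣ u * F := fun u => Iff.rfl
  have hl : ∀ (l : Fin (n + 1)) (c : ℂ), (C c * (C (A l) * X 0 + C (B l) * X 1)) ^ N ∈ J := by
    intro l c
    rw [mul_pow]
    exact J.mul_mem_left _ ((hJ _).2 (hd l))
  have key : ∀ c c' : ℂ, (C c * (C (A l) * X 0 + C (B l) * X 1) +
      C c' * (C (A m) * X 0 + C (B m) * X 1)) ^ (2 * N) ∈ J := fun c c' =>
    J.add_pow_mem_of_pow_mem_of_le (hl l c) (hl m c') (by omega)
  have hDD : (C (A l * B m - A m * B l)⁻¹ : MvPolynomial (Fin 2) ℂ) *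
      (C (A l) * C (B m) - C (A m) * C (B l)) = 1 := by
    rw [← C_mul, ← C_mul, ← C_sub, ← C_mul, inv_mul_cancel₀ hD, C_1]
  refine dvd_of_pow hg0 (M := 2 * N) ?_ ?_
  · rw [← hJ]
    have h1 := key ((A l * B m - A m * B l)⁻¹ * B m) (-((A l * B m - A m * B l)⁻¹ * B l))
    have h2 : (C ((A l * B m - A m * B l)⁻¹ * B m) * (C (A l) * X 0 + C (B l) * X 1) +
      C (-((A l * B m - A m * B l)⁻¹ * B l)) * (C (A m) * X 0 + C (B m) * X 1) :
        MvPolynomial (Fin 2) ℂ) = X 0 := by
      rw [C_neg, C_mul, C_mul]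
      linear_combination X 0 * hDD
    rwa [h2] at h1
  · rw [← hJ]
    have h1 := key (-((A l * B m - A m * B l)⁻¹ * A m)) ((A l * B m - A m * B l)⁻¹ * A l)
    have h2 : (C (-((A l * B m - A m * B l)⁻¹ * A m)) * (C (A l) * X 0 + C (B l) * X 1) +
      C ((A l * B m - A m * B l)⁻¹ * A l) * (C (A m) * X 0 + C (B m) * X 1) :
        MvPolynomial (Fin 2) ℂ) = X 1 := by
      rw [C_neg, C_mul, C_mul]
      linear_combination X 1 * hDD
    rwa [h2] at h1

/-! ### The two directions -/

section dirs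

variable {n : ℕ} {I : Ideal (MvPolynomial (Fin (n + 1)) ℂ)} {E : Bundle2 n}
  {s : Fin E.a → MvPolynomial (Fin (n + 1)) ℂ}

theorem mem_I (hI : ∀ F, F ∈ I ↔ ∃ N : ℕ, ∀ i, X i ^ N * F ∈ Ideal.span (Set.range s))
    (i : Fin E.a) : s i ∈ I :=
  (hI _).2 ⟨0, fun j => by
    rw [pow_zero, one_mul]
    exact Ideal.subset_span ⟨i, rfl⟩⟩

/-- the restriction as a ring homomorphism -/
noncomputable def resA (A B : Fin (n + 1) → ℂ) :
    MvPolynomial (Fin (n + 1)) ℂ →ₐ[ℂ] MvPolynomial (Fin 2) ℂ :=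
  aeval (fun i => C (A i) * X 0 + C (B i) * X 1)

theorem resA_eq (A B : Fin (n + 1) → ℂ) (F : MvPolynomial (Fin (n + 1)) ℂ) :
    resA A B F = res A B F := rfl

theorem resA_X (A B : Fin (n + 1) → ℂ) (l : Fin (n + 1)) :
    resA A B (X l) = C (A l) * X 0 + C (B l) * X 1 := by
  unfold resA
  rw [aeval_X]

theorem fwd (hs : E.IsSection 0 s)
    (hI : ∀ F, F ∈ I ↔ ∃ N : ℕ, ∀ i, X i ^ N * F ∈ Ideal.span (Set.range s))
    {A B : Fin (n + 1) → ℂ} (hAB : LinearIndependent ℂ ![A, B]) (hsA : evv s A ≠ 0) {k : ℕ}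
    (h : MeetsIn I A B k) :
    (∃ c f, Dv E s 0 k A B c f) ∧ ∀ c f, ¬ Dv E s 0 (k + 1) A B c f := by
  obtain ⟨g, hg1, hg0, hdiv, hz⟩ := h
  have hq : ∀ i, ∃ h, res A B (s i) = g * h := fun i => hdiv _ (mem_I hI i)
  choose q hq using hq
  -- the value at the first point
  obtain ⟨i₀, hi₀⟩ := Function.ne_iff.1 hsA
  have hγ : eval ![1, 0] g ≠ 0 := by
    intro h0
    apply hi₀
    have h1 : eval ![1, 0] (res A B (s i₀)) = eval A (s i₀) := by
      rw [eval_res]
      simp
    have h2 : evv s A i₀ = eval A (s i₀) := rfl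
    rw [h2, ← h1, hq, map_mul, h0, zero_mul]
    rfl
  obtain ⟨γ, hγd⟩ : ∃ γ, γ = eval ![1, 0] g := ⟨_, rfl⟩
  rw [← hγd] at hγ
  -- the divisor
  have hp1 : (Polynomial.C γ⁻¹ * dh g).natDegree ≤ k :=
    (Polynomial.natDegree_C_mul_le _ _).trans ((dh_natDegree g).trans hg1.totalDegree_le)
  have hp2 : (Polynomial.C γ⁻¹ * dh g).coeff 0 = 1 := by
    rw [Polynomial.coeff_C_mul, Polynomial.coeff_zero_eq_eval_zero, dh_eval, ← hγd,
      inv_mul_cancel₀ hγ]
  obtain ⟨c, hc⟩ := exists_cb _ hp1 hp2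
  -- the degrees of the quotients
  have hdeg : ∀ i, q i ≠ 0 → ∃ d : ℕ, (d : ℤ) = E.β i - k ∧ (q i).IsHomogeneous d := by
    intro i hi
    rcases hs.1 i with h0 | ⟨d, hd, hsd⟩
    · exfalso
      have h1 : g * q i = 0 := by
        rw [← hq, h0]
        exact map_zero (resA A B)
      exact (mul_ne_zero hg0 hi) h1
    · obtain ⟨h1, h2⟩ := quot A B hsd hg1 hg0 (hq i) hi
      exact ⟨d - k, by omega, h2⟩
  have hcoef : ∀ i m, (E.β i + (0 - (k : ℤ)) + 1).toNat ≤ m →
      (Polynomial.C γ * dh (q i)).coeff m = 0 := by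
    intro i m hm
    rw [Polynomial.coeff_C_mul]
    by_cases hi : q i = 0
    · rw [hi, map_zero, Polynomial.coeff_zero, mul_zero]
    · obtain ⟨d, hd, hqd⟩ := hdeg i hi
      rw [Polynomial.coeff_eq_zero_of_natDegree_lt, mul_zero]
      have h1 := (dh_natDegree (q i)).trans hqd.totalDegree_le
      omega
  obtain ⟨f, hf⟩ := exists_pol E (0 - (k : ℤ)) (fun i => Polynomial.C γ * dh (q i)) hcoef
  have hCC : Polynomial.C γ⁻¹ * Polynomial.C γ = 1 := by
    rw [← Polynomial.C_mul, inv_mul_cancel₀ hγ, Polynomial.C_1]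
  have hD : Dv E s 0 k A B c f := by
    intro i
    rw [hc, hf, ← dh_res, hq, map_mul]
    linear_combination -(dh g * dh (q i)) * hCC
  refine ⟨⟨c, f, hD⟩, ?_⟩
  -- the quotients have no common zero
  have hnc : ∀ z : Fin 2 → ℂ, z ≠ 0 → ∃ i, eval z (q i) ≠ 0 := by
    intro z hz0
    obtain ⟨F, hF, h, hFh, hh⟩ := hz z hz0
    obtain ⟨N, hN⟩ := (hI F).1 hF
    obtain ⟨l, hl⟩ : ∃ l, A l * z 0 + B l * z 1 ≠ 0 := by
      by_contra hcon
      push Not at hcon
      rw [LinearIndependent.pair_iff] at hAB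
      have h1 := hAB (z 0) (z 1) (by
        funext l
        have := hcon l
        simp only [Pi.add_apply, Pi.smul_apply, smul_eq_mul, Pi.zero_apply]
        linear_combination this)
      apply hz0
      funext j
      fin_cases j
      · exact h1.1
      · exact h1.2
    obtain ⟨u, hu⟩ := (Ideal.mem_span_range_iff_exists_fun).1 (hN l)
    have h1 : g * (resA A B (X l) ^ N * h) = g * ∑ i, resA A B (u i) * q i := by
      have h2 := congrArg (resA A B) hu
      rw [map_sum, map_mul, map_pow, resA_eq A B F, hFh] at h2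
      have h3 : ∑ i, resA A B (u i * s i) = g * ∑ i, resA A B (u i) * q i := by
        rw [Finset.mul_sum]
        refine Finset.sum_congr rfl fun i _ => ?_
        rw [map_mul, resA_eq A B (s i), hq]
        ring
      rw [← h3, h2]
      ring
    have h4 := congrArg (eval z) (mul_left_cancel₀ hg0 h1)
    by_contra hcon
    push Not at hcon
    rw [map_mul, map_pow, resA_X, map_sum] at h4
    have h5 : ∑ i, eval z (resA A B (u i) * q i) = 0 := by
      refine Finset.sum_eq_zero fun i _ => ?_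
      rw [map_mul, hcon i, mul_zero]
    rw [h5] at h4
    have h6 : eval z (C (A l) * X 0 + C (B l) * X 1) = A l * z 0 + B l * z 1 := by simp
    rw [h6] at h4
    exact (mul_ne_zero (pow_ne_zero N hl) hh) h4
  intro c' f' hD'
  -- Bezout
  obtain ⟨u, hu⟩ := bezout (pol E f) (fun t => by
    obtain ⟨i, hi⟩ := hnc ![1, t] (by
      intro h0
      have := congrFun h0 0
      simp at this)
    refine ⟨i, ?_⟩
    rw [hf, Polynomial.eval_mul, Polynomial.eval_C, dh_eval]
    exact mul_ne_zero hγ hi)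
  have hcc : ∀ i, cb c * pol E f i = cb c' * pol E f' i := fun i => by rw [← hD i, ← hD' i]
  have h1 : cb c = cb c' * ∑ i, u i * pol E f' i := by
    calc cb c = cb c * ∑ i, u i * pol E f i := by rw [hu, mul_one]
      _ = ∑ i, u i * (cb c * pol E f i) := by
          rw [Finset.mul_sum]
          exact Finset.sum_congr rfl fun i _ => by ring
      _ = ∑ i, u i * (cb c' * pol E f' i) :=
          Finset.sum_congr rfl fun i _ => by rw [hcc]
      _ = cb c' * ∑ i, u i * pol E f' i := by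
          rw [Finset.mul_sum]
          exact Finset.sum_congr rfl fun i _ => by ring
  obtain ⟨v, hv⟩ : ∃ v, v = ∑ i, u i * pol E f' i := ⟨_, rfl⟩
  rw [← hv] at h1
  have hv0 : v ≠ 0 := by
    rintro rfl
    rw [mul_zero] at h1
    exact cb_ne_zero c h1
  have h2 : ∀ i, pol E f' i = v * pol E f i := by
    intro i
    apply mul_left_cancel₀ (cb_ne_zero c')
    rw [← hcc, h1]
    ring
  -- the value at infinity
  obtain ⟨i, hi⟩ := hnc ![0, 1] (by
    intro h0
    have := congrFun h0 1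
    simp at this)
  have hqi : q i ≠ 0 := by
    intro h0
    rw [h0, map_zero] at hi
    exact hi rfl
  obtain ⟨d, hd, hqd⟩ := hdeg i hqi
  have hdhd : (dh (q i)).coeff d ≠ 0 := by
    have h3 : hg d (dh (q i)) = q i := by
      refine eq_of (hg_hom _ _) hqd (dh_hg fun m hm => ?_)
      apply Polynomial.coeff_eq_zero_of_natDegree_lt
      have := (dh_natDegree (q i)).trans hqd.totalDegree_le
      omega
    rw [← h3, hg_inf d _ _ rfl] at hi
    intro h0
    rw [h0, mul_zero] at hi
    exact hi rfl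
  have hfd : (pol E f i).coeff d ≠ 0 := by
    rw [hf, Polynomial.coeff_C_mul]
    exact mul_ne_zero hγ hdhd
  have hf0 : pol E f i ≠ 0 := by
    intro h0
    rw [h0, Polynomial.coeff_zero] at hfd
    exact hfd rfl
  have h3 : d ≤ (pol E f' i).natDegree := by
    rw [h2, Polynomial.natDegree_mul hv0 hf0]
    have := Polynomial.le_natDegree_of_ne_zero hfd
    omega
  have h4 : (pol E f' i).coeff (pol E f' i).natDegree ≠ 0 := by
    rw [Polynomial.coeff_natDegree, Polynomial.leadingCoeff_ne_zero, h2]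
    exact mul_ne_zero hv0 hf0
  apply h4
  apply pol_coeff_eq_zero
  push_cast
  omega

theorem bwd (hX : S_Exact) (hs : E.IsSection 0 s)
    (hI : ∀ F, F ∈ I ↔ ∃ N : ℕ, ∀ i, X i ^ N * F ∈ Ideal.span (Set.range s))
    {A B : Fin (n + 1) → ℂ} (hAB : LinearIndependent ℂ ![A, B]) (hsA : evv s A ≠ 0) {k : ℕ}
    {c : Fin k → ℂ} {f : Idx E.β (0 - (k : ℤ)) → ℂ} (hD : Dv E s 0 k A B c f)
    (hno : ∀ c f, ¬ Dv E s 0 (k + 1) A B c f) : MeetsIn I A B k := by
  obtain ⟨hfin, hinf⟩ := hX E s 0 k A B c f hsA hD hno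
  have hdc : dh (hg k (cb c)) = cb c := dh_hg fun m hm =>
    Polynomial.coeff_eq_zero_of_natDegree_lt (lt_of_le_of_lt (cb_natDegree c) hm)
  have hg0 : hg k (cb c) ≠ 0 := by
    intro h0
    rw [h0, map_zero] at hdc
    exact cb_ne_zero c hdc.symm
  obtain ⟨e, he⟩ : ∃ e : Fin E.a → ℕ, ∀ i, e i = (E.β i - k).toNat := ⟨_, fun _ => rfl⟩
  have hpe : ∀ i m, e i < m → (pol E f i).coeff m = 0 := by
    intro i m hm
    apply pol_coeff_eq_zero
    have := he i
    omega
  have hdp : ∀ i, dh (hg (e i) (pol E f i)) = pol E f i := fun i => dh_hg (hpe i)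
  -- the restrictions of the components
  have hres : ∀ i, res A B (s i) = hg k (cb c) * hg (e i) (pol E f i) := by
    intro i
    rcases hs.1 i with h0 | ⟨d, hd, hsd⟩
    · have h1 : res A B (s i) = 0 := by
        rw [h0]
        exact map_zero (resA A B)
      have h2 : cb c * pol E f i = 0 := by
        rw [← hD i, ← dh_res, h1, map_zero]
      have h3 : pol E f i = 0 := by
        rcases mul_eq_zero.1 h2 with h | h
        · exact absurd h (cb_ne_zero c)
        · exact h
      rw [h1, h3, hg_zero, mul_zero]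
    · by_cases h3 : pol E f i = 0
      · rw [h3, hg_zero, mul_zero]
        refine eq_zero_of (res_hom A B hsd) ?_
        rw [dh_res, hD i, h3, mul_zero]
      · have h4 : (0 : ℤ) ≤ E.β i - k := by
          by_contra hcon
          apply h3
          ext m
          rw [Polynomial.coeff_zero]
          apply pol_coeff_eq_zero
          omega
        have h5 := (hg_hom k (cb c)).mul (hg_hom (e i) (pol E f i))
        have h6 := he i
        rw [show k + e i = d by omega] at h5
        refine eq_of (res_hom A B hsd) h5 ?_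
        rw [dh_res, hD i, map_mul, hdc, hdp]
  refine ⟨hg k (cb c), hg_hom _ _, hg0, ?_, ?_⟩
  · intro F hF
    obtain ⟨N, hN⟩ := (hI F).1 hF
    refine dvd_of_lin hAB hg0 (N := N) fun l => ?_
    obtain ⟨u, hu⟩ := (Ideal.mem_span_range_iff_exists_fun).1 (hN l)
    have h2 := congrArg (resA A B) hu
    rw [map_sum, map_mul, map_pow, resA_eq A B F, resA_X] at h2
    rw [← h2]
    refine Finset.dvd_sum fun i _ => ?_
    rw [map_mul, resA_eq A B (s i), hres]
    exact Dvd.dvd.mul_left (Dvd.intro _ rfl) _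
  · intro z hz
    have key : ∃ i, eval z (hg (e i) (pol E f i)) ≠ 0 := by
      by_cases hz0 : z 0 = 0
      · have hz1 : z 1 ≠ 0 := by
          intro h1
          apply hz
          funext j
          fin_cases j
          · exact hz0
          · exact h1
        obtain ⟨i, hi0, hi⟩ := hinf
        refine ⟨i, ?_⟩
        rw [hg_inf _ _ _ hz0]
        refine mul_ne_zero (pow_ne_zero _ hz1) ?_
        have h1 : e i = (E.β i + (0 - (k : ℤ))).toNat := by
          rw [he]
          congr 1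
          ring
        rw [h1]
        exact hi
      · obtain ⟨i, hi⟩ := hfin (z 1 / z 0)
        refine ⟨i, ?_⟩
        rw [eval_hom (hg_hom _ _) z hz0, hdp]
        exact mul_ne_zero (pow_ne_zero _ hz0) hi
    obtain ⟨i, hi⟩ := key
    exact ⟨s i, mem_I hI i, _, hres i, hi⟩

end dirs

end LenA

/-- the length, in terms of the section -/
theorem s_Len_of (hX : S_Exact) : S_Len := by
  intro n I E s hs hI A B hAB hsA k
  constructor
  · intro h
    exact LenA.fwd hs hI hAB hsA h
  · rintro ⟨⟨c, f, hD⟩, hno⟩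
    exact LenA.bwd hX hs hI hAB hsA hD hno

end H932S
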