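import Pool.Agent.H932.S.Stm

/-!
# The count of the lengths in a pencil
-/

open MvPolynomial H960VB H960VB.Bundle2 Y208PT Pool.Agent.H106R3.VB H932V H932W H932L

namespace H932S

variable {n : ℕ}

namespace PencilAux

/-- Bezout for finitely many polynomials without a common zero -/
theorem bez {ι : Type} [Fintype ι] (g : ι → Polynomial ℂ) (h : ∀ t : ℂ, ∃ i, (g i).eval t ≠ 0) :
    ∃ a : ι → Polynomial ℂ, ∑ i, a i * g i = 1 := by
  have h1 : Ideal.span (Set.range g) = ⊤ := by
    set I := Ideal.span (Set.range g) with hI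
    have hd : ∀ i, Submodule.IsPrincipal.generator I ∣ g i := by
      intro i
      rw [← Submodule.IsPrincipal.mem_iff_generator_dvd]
      exact Ideal.subset_span ⟨i, rfl⟩
    have hdeg : (Submodule.IsPrincipal.generator I).degree = 0 := by
      by_contra hcon
      obtain ⟨t, ht⟩ := IsAlgClosed.exists_root _ hcon
      obtain ⟨i, hi⟩ := h t
      obtain ⟨q, hq⟩ := hd i
      apply hi
      rw [hq, Polynomial.eval_mul, ht.eq_zero, zero_mul]
    have hu : IsUnit (Submodule.IsPrincipal.generator I) := Polynomial.isUnit_iff_degree_eq_zero.2 hdeg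
    rw [← Ideal.span_singleton_generator I]
    exact Ideal.span_singleton_eq_top.2 hu
  have h2 : (1 : Polynomial ℂ) ∈ Ideal.span (Set.range g) := by
    rw [h1]
    trivial
  exact Ideal.mem_span_range_iff_exists_fun.1 h2

theorem prop_of {ι : Type} [Fintype ι] (g f : ι → Polynomial ℂ)
    (h : ∀ t : ℂ, ∃ i, (g i).eval t ≠ 0) (hfg : ∀ i k, f i * g k = f k * g i) :
    ∃ q : Polynomial ℂ, ∀ i, f i = q * g i := by
  obtain ⟨a, ha⟩ := bez g h
  refine ⟨∑ k, a k * f k, fun i => ?_⟩
  have h1 : f i = f i * ∑ k, a k * g k := by rw [ha, mul_one]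
  rw [h1, Finset.mul_sum, Finset.sum_mul]
  refine Finset.sum_congr rfl fun k _ => ?_
  linear_combination a k * hfg i k

/-- the top coefficient of a homogeneous polynomial on a line -/
theorem coeff_lp_top (y w : Fin (n + 1) → ℂ) {p : MvPolynomial (Fin (n + 1)) ℂ} {k : ℕ}
    (hp : p.IsHomogeneous k) : (lp y w p).coeff k = eval w p := by
  have h1 : Polynomial.reflect k (lp y w p) = lp w y p := by
    apply Polynomial.eq_of_infinite_eval_eq
    have hinf : Set.Infinite {t : ℂ | t ≠ 0} := by
      have : {t : ℂ | t ≠ 0} = ({0} : Set ℂ)ᶜ := by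
        ext t
        simp
      rw [this]
      exact (Set.finite_singleton 0).infinite_compl
    refine hinf.mono ?_
    intro t ht
    have ht0 : t ≠ 0 := ht
    have hti : t⁻¹ ≠ 0 := inv_ne_zero ht0
    let _ : Invertible (t⁻¹) := invertibleOfNonzero hti
    have h2 := Polynomial.eval₂_reflect_mul_pow (RingHom.id ℂ) (t⁻¹) k (lp y w p)
      (natDegree_lp y w hp)
    rw [invOf_eq_inv, inv_inv, Polynomial.eval₂_id, Polynomial.eval₂_id] at h2
    have h3 : (lp y w p).eval t⁻¹ = (t⁻¹) ^ k * (lp w y p).eval t := by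
      rw [eval_lp, eval_lp]
      have h4 : (fun l => y l + w l * t⁻¹) = t⁻¹ • (fun l => w l + y l * t) := by
        funext l
        simp only [Pi.smul_apply, smul_eq_mul]
        field_simp
        ring
      rw [h4]
      exact Y208PT.eval_smul_hom hp t⁻¹ (fun l => w l + y l * t)
    have h5 : (t⁻¹) ^ k ≠ 0 := pow_ne_zero _ hti
    have h6 : Polynomial.eval t (Polynomial.reflect k (lp y w p)) * (t⁻¹) ^ k =
        Polynomial.eval t (lp w y p) * (t⁻¹) ^ k := by
      rw [h2, h3]
      ring
    exact mul_right_cancel₀ h5 h6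
  have h2 : (lp y w p).coeff k = (Polynomial.reflect k (lp y w p)).coeff 0 := by
    rw [Polynomial.coeff_reflect, Polynomial.revAt_zero]
  rw [h2, h1, lp_coeff_zero]

theorem pol_zero (E : Bundle2 n) {j : ℤ} (i : Fin E.a) : pol E (0 : Idx E.β j → ℂ) i = 0 := by
  unfold pol
  refine Finset.sum_eq_zero fun b _ => ?_
  rw [Pi.zero_apply, Polynomial.C_0, zero_mul]

/-- convolution -/
theorem conv (E : Bundle2 n) {j : ℤ} (u : Idx E.β j → ℂ) (i : Fin E.a) (q : Polynomial ℂ) (m : ℕ) :
    ∑ z : Idx E.β j, (if (z.2 : ℕ) ≤ m then (if z.1 = i then q.coeff (m - (z.2 : ℕ)) else 0)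
      else 0) * u z = (pol E u i * q).coeff m := by
  classical
  rw [Fintype.sum_sigma, Finset.sum_eq_single i]
  · unfold pol
    rw [Finset.sum_mul, Polynomial.finsetSum_coeff]
    refine Finset.sum_congr rfl fun b _ => ?_
    have h1 : Polynomial.C (u ⟨i, b⟩) * Polynomial.X ^ (b : ℕ) * q =
        Polynomial.C (u ⟨i, b⟩) * (q * Polynomial.X ^ (b : ℕ)) := by ring
    rw [h1, Polynomial.coeff_C_mul, Polynomial.coeff_mul_X_pow']
    simp only [if_true]
    split_ifs
    · ring
    · ring
  · intro i' _ hi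
    refine Finset.sum_eq_zero fun b _ => ?_
    simp only [if_neg hi]
    simp
  · intro h
    exact absurd (Finset.mem_univ _) h

/-- a polynomial divisible by a high power of the variable after multiplication -/
theorem zero_of_coeff (q g : Polynomial ℂ) (T : ℕ) (hg : g.coeff 0 ≠ 0)
    (h : ∀ m < T, (q * g).coeff m = 0) (hd : q ≠ 0 → q.natDegree < T) : q = 0 := by
  by_contra hq
  have h1 : Polynomial.X ^ T ∣ q * g := Polynomial.X_pow_dvd_iff.2 h
  have h2 : ¬ Polynomial.X ∣ g := by
    rw [Polynomial.X_dvd_iff]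
    exact hg
  have h3 : Polynomial.X ^ T ∣ q := Polynomial.prime_X.pow_dvd_of_dvd_mul_right T h2 h1
  apply hq
  apply Polynomial.eq_zero_of_dvd_of_natDegree_lt h3
  rw [Polynomial.natDegree_X_pow]
  exact hd hq

theorem lp_coeff_le {y w : Fin (n + 1) → ℂ} {p : MvPolynomial (Fin (n + 1)) ℂ} {e : ℤ}
    (hp : HomZ p e) {b : ℕ} (hb : (lp y w p).coeff b ≠ 0) : (b : ℤ) ≤ e := by
  rcases hp with rfl | ⟨k, hk, hp⟩
  · rw [map_zero, Polynomial.coeff_zero] at hb
    exact absurd rfl hb
  · have h1 := natDegree_lp y w hp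
    by_contra hcon
    apply hb
    apply Polynomial.coeff_eq_zero_of_natDegree_lt
    omega

/-- the rows determine the sections on a line on which the section has no zero -/
theorem inj_rows (hX : S_Exact) (E : Bundle2 n) (s : Fin E.a → MvPolynomial (Fin (n + 1)) ℂ)
    (c₁ : ℤ) (D : Dl E c₁) (r : ℤ) (hs : E.IsSection r s) (j : ℤ) (N T : ℕ)
    (hN : (N : ℤ) = j - r + 1) (hT : (T : ℤ) = c₁ + j + r + 1)
    {y w : Fin (n + 1) → ℂ} (hyw : LinearIndependent ℂ ![y, w]) (hs0 : evv s y ≠ 0)
    (x : Fin E.a) (hx : eval y (s x) ≠ 0) (J₂ : Fin 2 → Fin E.a) (hJ₂ : eval y (D.δ J₂) ≠ 0)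
    (hno : ∀ c f, ¬ Dv E s r 1 y w c f) (u : Idx E.β j → ℂ) (hu : Kr E j y w u)
    (h1 : ∀ b < N, (pol E u x).coeff b = 0)
    (h2 : ∀ m < T, (pol E u (J₂ 0) * lp y w (s (J₂ 1)) -
      pol E u (J₂ 1) * lp y w (s (J₂ 0))).coeff m = 0) : u = 0 := by
  classical
  have hw0 : w ≠ 0 := by
    intro h0
    rw [LinearIndependent.pair_iff] at hyw
    have h3 := (hyw 0 1 (by rw [h0]; simp)).2
    exact one_ne_zero h3
  have hpt : ∀ t : ℂ, (fun l => y l + w l * t) ≠ 0 := by
    intro t h0
    rw [LinearIndependent.pair_iff] at hyw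
    have h2 := (hyw 1 t (by
      funext l
      have h3 := congrFun h0 l
      simp only [Pi.add_apply, Pi.smul_apply, smul_eq_mul, Pi.zero_apply] at h3 ⊢
      linear_combination h3)).1
    exact one_ne_zero h2
  -- the polynomials of the section
  have hpc : ∀ i b, (lp y w (s i)).coeff b ≠ 0 → (b : ℤ) ≤ E.β i + r :=
    fun i b hb => lp_coeff_le (hs.1 i) hb
  have huc : ∀ i b, (pol E u i).coeff b ≠ 0 → (b : ℤ) ≤ E.β i + j := by
    intro i b hb
    by_contra hcon
    exact hb (pol_coeff_eq_zero E u i (by omega))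
  obtain ⟨f, hf⟩ := exists_pol E (r - ((0 : ℕ) : ℤ)) (fun i => lp y w (s i)) (by
    intro i m hm
    by_contra hcon
    have := hpc i m hcon
    push_cast at hm
    omega)
  have hDv : Dv E s r 0 y w (fun _ => 0) f := by
    intro i
    rw [hf i]
    simp [cb]
  have hnz : NZ E f := hX E s r 0 y w (fun _ => 0) f hs0 hDv (fun c' f' => hno c' f')
  obtain ⟨hp1, i₀, hi₀, hp2⟩ := hnz
  simp only [hf] at hp1
  rw [hf] at hp2
  -- the wedge product
  have hδ : ∀ t : ℂ, ∃ J, (lp y w (D.δ J)).eval t ≠ 0 := by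
    intro t
    obtain ⟨J, hJ⟩ := D.ne _ (hpt t)
    exact ⟨J, by rw [eval_lp]; exact hJ⟩
  have hW : ∀ J K : Fin 2 → Fin E.a,
      (pol E u (J 0) * lp y w (s (J 1)) - pol E u (J 1) * lp y w (s (J 0))) * lp y w (D.δ K) =
      (pol E u (K 0) * lp y w (s (K 1)) - pol E u (K 1) * lp y w (s (K 0))) * lp y w (D.δ J) := by
    intro J K
    apply Polynomial.funext
    intro t
    have hfu : (fun i => (pol E u i).eval t) ∈ E.fib (fun l => y l + w l * t) := by
      rw [kr_iff_pol] at hu
      unfold Bundle2.fib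
      rw [LinearMap.mem_ker]
      funext c
      have h3 := congrArg (Polynomial.eval t) (hu c)
      rw [Polynomial.eval_finsetSum, Polynomial.eval_zero] at h3
      simp only [Matrix.mulVecLin_apply, Matrix.mulVec, dotProduct, Pi.zero_apply]
      rw [← h3]
      refine Finset.sum_congr rfl fun i _ => ?_
      rw [Polynomial.eval_mul, eval_lp]
      rfl
    have hfp : (fun i => (lp y w (s i)).eval t) ∈ E.fib (fun l => y l + w l * t) := by
      have h3 := hs.2 _ (hpt t)
      have h4 : (fun i => (lp y w (s i)).eval t) = evv s (fun l => y l + w l * t) := by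
        funext i
        rw [eval_lp]
        rfl
      rw [h4]
      exact h3
    obtain ⟨κ, hκ⟩ := D.wed _ (hpt t) _ hfu _ hfp
    have hJ := hκ J
    have hK := hκ K
    simp only [Polynomial.eval_mul, Polynomial.eval_sub]
    rw [eval_lp y w t (D.δ K), eval_lp y w t (D.δ J)]
    linear_combination eval (fun l => y l + w l * t) (D.δ K) * hJ -
      eval (fun l => y l + w l * t) (D.δ J) * hK
  obtain ⟨q, hq⟩ := prop_of (fun J => lp y w (D.δ J))
    (fun J => pol E u (J 0) * lp y w (s (J 1)) - pol E u (J 1) * lp y w (s (J 0))) hδ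
    (fun J K => hW J K)
  have hq0 : q = 0 := by
    refine zero_of_coeff q (lp y w (D.δ J₂)) T (by rw [lp_coeff_zero]; exact hJ₂) ?_ ?_
    · intro m hm
      rw [← hq J₂]
      exact h2 m hm
    · intro hqne
      obtain ⟨J, hJ⟩ := D.ne w hw0
      rcases D.hom J with h0 | ⟨k, hk, hom⟩
      · rw [h0, map_zero] at hJ
        exact absurd rfl hJ
      have hck := coeff_lp_top y w hom
      have hne : (lp y w (D.δ J)).coeff k ≠ 0 := by
        rw [hck]
        exact hJ
      have hdk : (lp y w (D.δ J)).natDegree = k :=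
        le_antisymm (natDegree_lp y w hom) (Polynomial.le_natDegree_of_ne_zero hne)
      have hδ0 : lp y w (D.δ J) ≠ 0 := by
        intro h0
        rw [h0, Polynomial.coeff_zero] at hne
        exact hne rfl
      have hprod := Polynomial.natDegree_mul hqne hδ0
      have hne2 : q * lp y w (D.δ J) ≠ 0 := mul_ne_zero hqne hδ0
      have hlead : (q * lp y w (D.δ J)).coeff (q * lp y w (D.δ J)).natDegree ≠ 0 := by
        rw [Polynomial.coeff_natDegree]
        exact Polynomial.leadingCoeff_ne_zero.2 hne2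
      have hbd : (((q * lp y w (D.δ J)).natDegree : ℕ) : ℤ) ≤ E.β (J 0) + E.β (J 1) + j + r := by
        generalize (q * lp y w (D.δ J)).natDegree = m at hlead
        rw [← hq J, Polynomial.coeff_sub] at hlead
        have hterm : ∀ a b : Fin E.a, (pol E u a * lp y w (s b)).coeff m ≠ 0 →
            (m : ℤ) ≤ E.β a + E.β b + j + r := by
          intro a b hab
          rw [Polynomial.coeff_mul] at hab
          obtain ⟨⟨m₁, m₂⟩, hm, hm'⟩ := Finset.exists_ne_zero_of_sum_ne_zero hab
          have hm12 : m₁ + m₂ = m := by simpa using hm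
          have h5 := huc a m₁ (left_ne_zero_of_mul hm')
          have h6 := hpc b m₂ (right_ne_zero_of_mul hm')
          push_cast [← hm12]
          linarith
        by_cases h7 : (pol E u (J 0) * lp y w (s (J 1))).coeff m = 0
        · rw [h7, zero_sub, neg_ne_zero] at hlead
          have := hterm _ _ hlead
          linarith
        · exact hterm _ _ h7
      rw [hprod, hdk] at hbd
      push_cast at hbd
      have : (q.natDegree : ℤ) < T := by linarith
      exact_mod_cast this
  have hW0 : ∀ i k : Fin E.a, pol E u i * lp y w (s k) = pol E u k * lp y w (s i) := by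
    intro i k
    have h3 := hq ![i, k]
    rw [hq0, zero_mul] at h3
    simp only [Matrix.cons_val_zero, Matrix.cons_val_one] at h3
    exact sub_eq_zero.1 h3
  obtain ⟨a, ha⟩ := prop_of (fun i => lp y w (s i)) (fun i => pol E u i) hp1
    (fun i k => hW0 i k)
  have ha0 : a = 0 := by
    refine zero_of_coeff a (lp y w (s x)) N (by rw [lp_coeff_zero]; exact hx) ?_ ?_
    · intro m hm
      rw [← ha x]
      exact h1 m hm
    · intro hane
      have hs0' : lp y w (s i₀) ≠ 0 := by
        intro h0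
        rw [h0, Polynomial.coeff_zero] at hp2
        exact hp2 rfl
      have hprod := Polynomial.natDegree_mul hane hs0'
      have hle := Polynomial.le_natDegree_of_ne_zero hp2
      have hne2 : a * lp y w (s i₀) ≠ 0 := mul_ne_zero hane hs0'
      have hlead : (a * lp y w (s i₀)).coeff (a * lp y w (s i₀)).natDegree ≠ 0 := by
        rw [Polynomial.coeff_natDegree]
        exact Polynomial.leadingCoeff_ne_zero.2 hne2
      have hbd := huc i₀ (a * lp y w (s i₀)).natDegree (by rw [ha i₀]; exact hlead)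
      rw [hprod] at hbd
      push_cast at hbd hle hi₀
      have h8 : E.β i₀ + r ≤ ((lp y w (s i₀)).natDegree : ℤ) := by
        have h9 : ((E.β i₀ + (r - 0)).toNat : ℤ) = E.β i₀ + r := by
          rw [Int.toNat_of_nonneg hi₀]
          ring
        rw [← h9]
        exact_mod_cast hle
      have : (a.natDegree : ℤ) < N := by linarith
      exact_mod_cast this
  apply pol_inj E
  intro i
  rw [ha i, ha0, zero_mul, pol_zero]

/-- the coefficient of order `l` on the line, as a polynomial in the second point -/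
noncomputable def cp (x₀ : Fin (n + 1) → ℂ) (p : MvPolynomial (Fin (n + 1)) ℂ) (l : ℕ) :
    MvPolynomial (Fin (n + 1)) ℂ :=
  aeval (Sum.elim (fun i => C (x₀ i)) X) ((sb n p).coeff l)

theorem eval_cp (x₀ w : Fin (n + 1) → ℂ) (p : MvPolynomial (Fin (n + 1)) ℂ) (l : ℕ) :
    eval w (cp x₀ p l) = (lp x₀ w p).coeff l := by
  unfold cp
  rw [eval_aeval_mv]
  have h : (fun i => eval w ((Sum.elim (fun i => C (x₀ i)) X :
      V2 n → MvPolynomial (Fin (n + 1)) ℂ) i)) = Sum.elim x₀ w := by
    funext i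
    rcases i with i | i <;> simp
  rw [h, coeff_eval_sb]

theorem homZ_cp (x₀ : Fin (n + 1) → ℂ) (p : MvPolynomial (Fin (n + 1)) ℂ) (l : ℕ) :
    HomZ (cp x₀ p l) (l : ℤ) := by
  apply homZ_of_scale
  intro t ht x
  rw [eval_cp, eval_cp, coeff_lp_smul_right, zpow_natCast]

/-- the rows -/
noncomputable def rw1 (E : Bundle2 n) (s : Fin E.a → MvPolynomial (Fin (n + 1)) ℂ)
    (x₀ : Fin (n + 1) → ℂ) (j : ℤ) (N T : ℕ) (J₂ : Fin 2 → Fin E.a) (x : Fin E.a) :
    Fin N ⊕ Fin T → Idx E.β j → MvPolynomial (Fin (n + 1)) ℂ :=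
  Sum.elim (fun b z => if z.1 = x ∧ (z.2 : ℕ) = (b : ℕ) then 1 else 0)
    (fun m z => if (z.2 : ℕ) ≤ (m : ℕ) then
      (if z.1 = J₂ 0 then cp x₀ (s (J₂ 1)) ((m : ℕ) - (z.2 : ℕ)) else 0) -
      (if z.1 = J₂ 1 then cp x₀ (s (J₂ 0)) ((m : ℕ) - (z.2 : ℕ)) else 0) else 0)

/-- the orders of the rows -/
def vl {N T : ℕ} : Fin N ⊕ Fin T → ℕ := Sum.elim (fun b => b) (fun m => m)

theorem homZ_rw1 (E : Bundle2 n) (s : Fin E.a → MvPolynomial (Fin (n + 1)) ℂ)
    (x₀ : Fin (n + 1) → ℂ) (j : ℤ) (N T : ℕ) (J₂ : Fin 2 → Fin E.a) (x : Fin E.a)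
    (t : Fin N ⊕ Fin T) (z : Idx E.β j) :
    HomZ (rw1 E s x₀ j N T J₂ x t z) ((vl t : ℤ) - ((z.2 : ℕ) : ℤ)) := by
  rcases t with b | m
  · simp only [rw1, vl, Sum.elim_inl]
    split_ifs with h
    · rw [h.2, sub_self]
      exact HomZ.one'
    · exact HomZ.tdZero _
  · simp only [rw1, vl, Sum.elim_inr]
    split_ifs with h h1 h2 h2
    · rw [sub_eq_add_neg]
      have h3 := homZ_cp x₀ (s (J₂ 1)) ((m : ℕ) - (z.2 : ℕ))
      have h4 := homZ_cp x₀ (s (J₂ 0)) ((m : ℕ) - (z.2 : ℕ))
      rw [Nat.cast_sub h] at h3 h4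
      exact HomZ.tdAdd h3 (HomZ.tdNeg h4)
    · have h3 := homZ_cp x₀ (s (J₂ 1)) ((m : ℕ) - (z.2 : ℕ))
      rw [Nat.cast_sub h] at h3
      rw [sub_zero]
      exact h3
    · have h4 := homZ_cp x₀ (s (J₂ 0)) ((m : ℕ) - (z.2 : ℕ))
      rw [Nat.cast_sub h] at h4
      rw [zero_sub]
      exact HomZ.tdNeg h4
    · rw [sub_zero]
      exact HomZ.tdZero _
    · exact HomZ.tdZero _

theorem sum_inl (E : Bundle2 n) (s : Fin E.a → MvPolynomial (Fin (n + 1)) ℂ)
    (x₀ : Fin (n + 1) → ℂ) (j : ℤ) (N T : ℕ) (J₂ : Fin 2 → Fin E.a) (x : Fin E.a)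
    (w : Fin (n + 1) → ℂ) (u : Idx E.β j → ℂ) (b : Fin N) :
    ∑ z, eval w (rw1 E s x₀ j N T J₂ x (Sum.inl b) z) * u z = (pol E u x).coeff (b : ℕ) := by
  classical
  rw [pol_coeff]
  unfold cf
  have h0 : ∀ z : Idx E.β j, eval w (rw1 E s x₀ j N T J₂ x (Sum.inl b) z) =
      if z.1 = x ∧ (z.2 : ℕ) = (b : ℕ) then 1 else 0 := by
    intro z
    simp only [rw1, Sum.elim_inl]
    split_ifs <;> simp
  simp only [h0]
  split_ifs with h
  · rw [Finset.sum_eq_single (⟨x, ⟨(b : ℕ), h⟩⟩ : Idx E.β j)]
    · rw [if_pos ⟨rfl, rfl⟩, one_mul]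
    · rintro ⟨i, m⟩ _ hne
      rw [if_neg, zero_mul]
      rintro ⟨h1, h2⟩
      simp only at h1 h2
      subst h1
      exact hne (by rw [show m = ⟨(b : ℕ), h⟩ from Fin.ext h2])
    · intro h1
      exact absurd (Finset.mem_univ _) h1
  · refine Finset.sum_eq_zero fun z _ => ?_
    rw [if_neg, zero_mul]
    rintro ⟨h1, h2⟩
    have h3 := z.2.2
    have h4 : E.β z.1 = E.β x := by rw [h1]
    omega

theorem sum_inr (E : Bundle2 n) (s : Fin E.a → MvPolynomial (Fin (n + 1)) ℂ)
    (x₀ : Fin (n + 1) → ℂ) (j : ℤ) (N T : ℕ) (J₂ : Fin 2 → Fin E.a) (x : Fin E.a)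
    (w : Fin (n + 1) → ℂ) (u : Idx E.β j → ℂ) (m : Fin T) :
    ∑ z, eval w (rw1 E s x₀ j N T J₂ x (Sum.inr m) z) * u z =
      (pol E u (J₂ 0) * lp x₀ w (s (J₂ 1)) - pol E u (J₂ 1) * lp x₀ w (s (J₂ 0))).coeff (m : ℕ) := by
  classical
  rw [Polynomial.coeff_sub, ← conv, ← conv, ← Finset.sum_sub_distrib]
  refine Finset.sum_congr rfl fun z _ => ?_
  simp only [rw1, Sum.elim_inr]
  split_ifs <;> simp [eval_cp]
  ring

theorem pol_sum (E : Bundle2 n) {j : ℤ} {κ : Type} (F : Finset κ) (g : κ → Idx E.β j → ℂ)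
    (i : Fin E.a) : pol E (∑ k ∈ F, g k) i = ∑ k ∈ F, pol E (g k) i := by
  classical
  induction F using Finset.induction_on with
  | empty => rw [Finset.sum_empty, Finset.sum_empty, pol_zero]
  | insert a F ha ih => rw [Finset.sum_insert ha, Finset.sum_insert ha, pol_add, ih]

theorem sum_vl (N T : ℕ) : 2 * ∑ t : Fin (N + T), (vl (finSumFinEquiv.symm t : Fin N ⊕ Fin T) : ℤ) =
    N * ((N : ℤ) - 1) + T * ((T : ℤ) - 1) := by
  have h1 : ∀ M : ℕ, 2 * ∑ b : Fin M, ((b : ℕ) : ℤ) = M * ((M : ℤ) - 1) := by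
    intro M
    induction M with
    | zero => simp
    | succ M ih =>
      rw [Fin.sum_univ_castSucc, mul_add]
      simp only [Fin.val_castSucc, Fin.val_last]
      rw [ih]
      push_cast
      ring
  rw [Equiv.sum_comp finSumFinEquiv.symm (fun t : Fin N ⊕ Fin T => (vl t : ℤ)),
    Fintype.sum_sum_type, mul_add]
  simp only [vl, Sum.elim_inl, Sum.elim_inr]
  rw [h1, h1]

end PencilAux

open PencilAux in
theorem s_Pencil_of (hX : S_Exact) : S_Pencil := by
  classical
  intro n E s c₁ D r hs j N T hN hT hNT P d hP x₀ R S hok hwed hs0 t₁ hno F h hF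
  have hli : ∀ t : ℂ, LinearIndependent ℂ ![x₀, R + t • S] := fun t => (hok t).1
  have hdim : ∀ t : ℂ, Module.finrank ℂ (LinearMap.ker (Matrix.mulVecLin
      (evm (fam2 E j) (Sum.elim x₀ (R + t • S))))) = N + T := fun t => (hok t).2
  have hx₀ : x₀ ≠ 0 := by
    intro h0
    have h1 := hli 0
    rw [LinearIndependent.pair_iff] at h1
    exact one_ne_zero (h1 1 0 (by rw [h0]; simp)).1
  obtain ⟨x, hx⟩ : ∃ x, eval x₀ (s x) ≠ 0 := Function.ne_iff.1 hs0
  obtain ⟨J₂, hJ₂⟩ := D.ne x₀ hx₀
  let e : Fin (N + T) → Fin N ⊕ Fin T := fun t => finSumFinEquiv.symm t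
  let RW : Fin (N + T) → Idx E.β j → MvPolynomial (Fin (n + 1)) ℂ :=
    fun t z => rw1 E s x₀ j N T J₂ x (e t) z
  let ν : MvPolynomial (Fin (n + 1)) ℂ := ∑ J : Fin (N + T) → Idx E.β j, (∏ t, RW t (J t)) * P J
  have hνhom : HomZ ν (∑ t, (vl (e t) : ℤ) - d) := by
    refine HomZ.tdSum _ fun J _ => ?_
    have h1 := HomZ.tdMul (HomZ.tdProd Finset.univ (f := fun t => RW t (J t))
      (fun t _ => homZ_rw1 E s x₀ j N T J₂ x (e t) (J t))) (hP J)
    have h2 : ∑ t, ((vl (e t) : ℤ) - (((J t).2 : ℕ) : ℤ)) + (∑ t, (((J t).2 : ℕ) : ℤ) - d) =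
        ∑ t, (vl (e t) : ℤ) - d := by
      rw [Finset.sum_sub_distrib]
      ring
    rw [h2] at h1
    exact h1
  -- the determinant of the rows on a frame
  have hdet : ∀ t : ℂ, ∀ u : Fin (N + T) → Idx E.β j → ℂ,
      (∀ s, Kr E j x₀ (R + t • S) (u s)) → ∃ κ : ℂ, (∀ J, Wd u J = κ * eval (R + t • S) (P J)) ∧
        Matrix.det (Matrix.of fun a b => ∑ z, eval (R + t • S) (RW b z) * u a z) =
          κ * eval (R + t • S) ν := by
    intro t u hu
    obtain ⟨κ, hκ⟩ := hwed t u hu
    refine ⟨κ, hκ, ?_⟩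
    rw [det_expand (fun b z => eval (R + t • S) (RW b z)) u]
    simp only [ν, map_sum, map_mul, map_prod, Finset.mul_sum]
    refine Finset.sum_congr rfl fun J _ => ?_
    rw [hκ]
    ring
  have hsumN : ∀ (w : Fin (n + 1) → ℂ) (u : Fin (N + T) → Idx E.β j → ℂ) (c : Fin (N + T) → ℂ) t,
      ∑ z, eval w (RW t z) * (∑ a, c a • u a) z = ∑ a, c a * ∑ z, eval w (RW t z) * u a z := by
    intro w u c t
    simp only [Finset.sum_apply, Pi.smul_apply, smul_eq_mul, Finset.mul_sum]
    rw [Finset.sum_comm]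
    refine Finset.sum_congr rfl fun a _ => Finset.sum_congr rfl fun x _ => ?_
    ring
  -- not zero at `t₁`
  have hν1 : eval (R + t₁ • S) ν ≠ 0 := by
    intro h0
    obtain ⟨u, hu1, hu2, -⟩ := exists_ker_basis _ (hdim t₁)
    obtain ⟨κ, -, hκ⟩ := hdet t₁ u hu2
    rw [h0, mul_zero, ← Matrix.exists_vecMul_eq_zero_iff] at hκ
    obtain ⟨c, hc0, hc⟩ := hκ
    apply hc0
    have h1 : ∀ t, ∑ z, eval (R + t₁ • S) (RW t z) * (∑ a, c a • u a) z = 0 := by
      intro t
      rw [hsumN]
      have h2 := congrFun hc t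
      simpa [Matrix.vecMul, dotProduct] using h2
    have h2 : ∑ a, c a • u a = 0 := by
      refine inj_rows hX E s c₁ D r hs j N T hN hT (hli t₁) hs0 x hx J₂ hJ₂ hno _ ?_ ?_ ?_
      · unfold Kr
        rw [Matrix.mulVec_sum]
        refine Finset.sum_eq_zero fun a _ => ?_
        rw [Matrix.mulVec_smul, hu2, smul_zero]
      · intro b hb
        have h3 := h1 (finSumFinEquiv (Sum.inl ⟨b, hb⟩))
        simp only [RW, e, Equiv.symm_apply_apply] at h3
        rw [sum_inl] at h3
        exact h3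
      · intro m hm
        have h3 := h1 (finSumFinEquiv (Sum.inr ⟨m, hm⟩))
        simp only [RW, e, Equiv.symm_apply_apply] at h3
        rw [sum_inr] at h3
        exact h3
    have h3 := Fintype.linearIndependent_iff.1 hu1 c h2
    funext a
    exact h3 a
  obtain ⟨Q, hQ, hQd⟩ := line_poly ν _ hνhom R S
  have hQ0 : Q ≠ 0 := by
    rintro rfl
    apply hν1
    rw [← hQ]
    simp
  -- the multiplicity at the long lines
  have hmul : ∀ t₀ ∈ F, (Polynomial.X - Polynomial.C t₀) ^ h t₀ ∣ Q := by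
    intro t₀ ht₀
    obtain ⟨k, hk, c', f, hDv⟩ := hF t₀ ht₀
    let L : V2 n → MvPolynomial (Fin 1) ℂ :=
      Sum.elim (fun i => C (x₀ i)) (fun i => C (R i) + X 0 * C (S i))
    have hL : ∀ t : ℂ, (fun i => eval (fun _ => t) (L i)) = Sum.elim x₀ (R + t • S) := by
      intro t
      funext i
      rcases i with i | i <;> simp [L]
    obtain ⟨u, hu, J₀, hJ₀⟩ := frame1 (fam2 E j) L (N + T) (fun t => by rw [hL]; exact hdim t) t₀
    have hu' : ∀ t s, Kr E j x₀ (R + t • S) (fun x => (u s x).eval t) := by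
      intro t s
      have h1 := hu t s
      rw [hL] at h1
      exact h1
    choose RP hRP _ using fun b z => line_poly (RW b z) _
      (homZ_rw1 E s x₀ j N T J₂ x (e b) z) R S
    let QM : Matrix (Fin (N + T)) (Fin (N + T)) (Polynomial ℂ) :=
      Matrix.of fun a b => ∑ z, RP b z * u a z
    have hQM : ∀ t, QM.map (Polynomial.eval t) =
        Matrix.of fun a b => ∑ z, eval (R + t • S) (RW b z) * (u a z).eval t := by
      intro t
      ext a b
      simp only [QM, Matrix.map_apply, Matrix.of_apply]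
      rw [Polynomial.eval_finsetSum]
      refine Finset.sum_congr rfl fun z _ => ?_
      rw [Polynomial.eval_mul, hRP]
    obtain ⟨PJ, hPJ, -⟩ := line_poly (P J₀) _ (hP J₀) R S
    have hrel : Wd (fun s x => u s x) J₀ * Q = PJ * QM.det := by
      apply Polynomial.funext
      intro t
      obtain ⟨κ, hκ1, hκ2⟩ := hdet t _ (hu' t)
      have h1 : (QM.det).eval t = κ * Q.eval t := by
        have h2 : (QM.det).eval t = (QM.map (Polynomial.eval t)).det :=
          RingHom.map_det (Polynomial.evalRingHom t) QM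
        rw [h2, hQM, hQ, ← hκ2]
      have h2 : (Wd (fun s x => u s x) J₀).eval t = κ * PJ.eval t := by
        have h3 : (Wd (fun s x => u s x) J₀).eval t = Wd (fun s x => (u s x).eval t) J₀ :=
          Wd_map (Polynomial.evalRingHom t) _ _
        rw [h3, hκ1, hPJ]
      rw [Polynomial.eval_mul, Polynomial.eval_mul, h1, h2]
      ring
    have hdvd : (Polynomial.X - Polynomial.C t₀) ^ h t₀ ∣ QM.det := by
      -- the coordinates
      have hLI : LinearIndependent ℂ
          (fun s : Fin (N + T) => (fun x => (u s x).eval t₀ : Idx E.β j → ℂ)) := by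
        rw [Fintype.linearIndependent_iff]
        intro c hc
        by_contra hcon
        push Not at hcon
        obtain ⟨i, hi⟩ := hcon
        apply hJ₀
        unfold Wd
        rw [← Matrix.exists_vecMul_eq_zero_iff]
        refine ⟨c, fun h0 => hi (congrFun h0 i), ?_⟩
        funext b
        have h1 := congrFun hc (J₀ b)
        simpa [Matrix.vecMul, dotProduct, Finset.sum_apply] using h1
      let A := LinearMap.ker (Matrix.mulVecLin (evm (fam2 E j) (Sum.elim x₀ (R + t₀ • S))))
      let ub : Fin (N + T) → A := fun s => ⟨fun x => (u s x).eval t₀, hu' t₀ s⟩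
      have hub : LinearIndependent ℂ ub := by
        apply LinearIndependent.of_comp A.subtype
        exact hLI
      have hcard : Fintype.card (Fin (N + T)) = Module.finrank ℂ A := by
        rw [Fintype.card_fin]
        exact (hdim t₀).symm
      have : Nonempty (Fin (N + T)) := ⟨⟨0, by omega⟩⟩
      let bA := basisOfLinearIndependentOfCardEqFinrank hub hcard
      have hbA : ∀ s, bA s = ub s := fun s => by
        simp [bA]
      let V : Submodule ℂ (Fin (N + T) → ℂ) := LinearMap.ker (Matrix.vecMulLinear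
        (QM.map (Polynomial.eval t₀)))
      refine det_pow_dvd t₀ (h t₀) QM V ?_ (fun x hx => hx)
      -- the multiples of the quotient
      have hf : Kr E (r - k) x₀ (R + t₀ • S) f := kr_of_dv hs (hli t₀) hDv
      let g : Fin k → Idx E.β j → ℂ := fun b => E.mt f (N + (b : ℕ)) j
      have hg : ∀ b, g b ∈ A := by
        intro b
        exact kr_mt E (hli t₀) hf (N + (b : ℕ)) (k - 1 - (b : ℕ)) (by
          have := b.2
          push_cast [Nat.cast_sub (show (b : ℕ) ≤ k - 1 by omega),
            Nat.cast_sub (show 1 ≤ k by omega)]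
          linarith)
      have hpg : ∀ (c : Fin k → ℂ) i, pol E (∑ b, c b • g b) i =
          (∑ b : Fin k, Polynomial.C (c b) * Polynomial.X ^ (N + (b : ℕ))) * pol E f i := by
        intro c i
        rw [pol_sum, Finset.sum_mul]
        refine Finset.sum_congr rfl fun b _ => ?_
        rw [pol_smul, pol_mt E f (N + (b : ℕ)) (by have := b.2; push_cast; linarith), mul_assoc]
      have hmem : ∀ c : Fin k → ℂ, (Fintype.linearCombination ℂ g) c ∈ A := by
        intro c
        rw [Fintype.linearCombination_apply]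
        exact Submodule.sum_mem _ fun b _ => Submodule.smul_mem _ _ (hg b)
      let Θ₁ : (Fin k → ℂ) →ₗ[ℂ] A := LinearMap.codRestrict A (Fintype.linearCombination ℂ g) hmem
      have hrow : ∀ (c : Fin k → ℂ) (b : Fin (N + T)),
          ∑ z, eval (R + t₀ • S) (RW b z) * (∑ b, c b • g b) z = 0 := by
        intro c b
        rcases hb : e b with b' | m
        · simp only [RW, hb]
          rw [sum_inl, hpg]
          have h1 : (∑ b : Fin k, Polynomial.C (c b) * Polynomial.X ^ (N + (b : ℕ))) * pol E f x =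
              Polynomial.X ^ N * ((∑ b : Fin k, Polynomial.C (c b) * Polynomial.X ^ (b : ℕ)) *
                pol E f x) := by
            rw [← mul_assoc, Finset.mul_sum]
            congr 1
            refine Finset.sum_congr rfl fun b _ => ?_
            rw [pow_add]
            ring
          rw [h1, Polynomial.coeff_X_pow_mul', if_neg (by have := b'.2; omega)]
        · simp only [RW, hb]
          rw [sum_inr, hpg, hpg, hDv, hDv]
          have h1 : ∀ a b c d : Polynomial ℂ, a * b * (c * d) - a * d * (c * b) = 0 := by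
            intro a b c d
            ring
          rw [h1, Polynomial.coeff_zero]
      have hΘV : ∀ c : Fin k → ℂ, bA.equivFun (Θ₁ c) ∈ V := by
        intro c
        have h1 : ∑ s, bA.equivFun (Θ₁ c) s • ub s = Θ₁ c := by
          have h2 := bA.sum_equivFun (Θ₁ c)
          simpa only [hbA] using h2
        have h2 : ∑ s, bA.equivFun (Θ₁ c) s • (fun x => (u s x).eval t₀ : Idx E.β j → ℂ) =
            ∑ b, c b • g b := by
          have h3 := congrArg A.subtype h1
          rw [map_sum] at h3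
          exact h3
        have h3 : Matrix.vecMul (bA.equivFun (Θ₁ c)) (QM.map (Polynomial.eval t₀)) = 0 := by
          rw [hQM]
          funext b
          have h4 := hsumN (R + t₀ • S) (fun s x => (u s x).eval t₀) (bA.equivFun (Θ₁ c)) b
          rw [h2, hrow] at h4
          simp only [Matrix.vecMul, dotProduct, Matrix.of_apply, Pi.zero_apply]
          exact h4.symm
        exact h3
      let Θ : (Fin k → ℂ) →ₗ[ℂ] V :=
        LinearMap.codRestrict V (bA.equivFun.toLinearMap.comp Θ₁) hΘV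
      have hΘ : Function.Injective Θ := by
        rw [injective_iff_map_eq_zero]
        intro c hc
        have h1 : bA.equivFun (Θ₁ c) = 0 := congrArg V.subtype hc
        have h2 : Θ₁ c = 0 := by
          rwa [LinearEquiv.map_eq_zero_iff] at h1
        have h3 : ∑ b, c b • g b = 0 := congrArg A.subtype h2
        have h4 := hpg c x
        rw [h3, pol_zero] at h4
        have hfx : pol E f x ≠ 0 := by
          intro h0
          have h5 := pol_zero_of_dv hDv x
          rw [h0, Polynomial.coeff_zero] at h5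
          exact hx h5.symm
        have h5 := (mul_eq_zero.1 h4.symm).resolve_right hfx
        funext b
        have h6 := congrArg (fun p => Polynomial.coeff p (N + (b : ℕ))) h5
        simp only [Polynomial.finsetSum_coeff, Polynomial.coeff_zero] at h6
        rw [Finset.sum_eq_single b] at h6
        · rw [Polynomial.coeff_C_mul_X_pow, if_pos rfl] at h6
          exact h6
        · intro b' _ hb'
          rw [Polynomial.coeff_C_mul_X_pow, if_neg]
          intro h7
          exact hb' (Fin.ext (by omega))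
        · intro h7
          exact absurd (Finset.mem_univ _) h7
      have hfin := LinearMap.finrank_le_finrank_of_injective hΘ
      rw [Module.finrank_fin_fun] at hfin
      exact hk.trans hfin
    have hcop : IsCoprime ((Polynomial.X - Polynomial.C t₀) ^ h t₀)
        (Wd (fun s x => u s x) J₀ : Polynomial ℂ) := by
      apply IsCoprime.pow_left
      rw [(Polynomial.irreducible_X_sub_C t₀).coprime_iff_not_dvd, Polynomial.dvd_iff_isRoot,
        Polynomial.IsRoot.def]
      have h3 : (Wd (fun s x => u s x) J₀).eval t₀ = Wd (fun s x => (u s x).eval t₀) J₀ :=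
        Wd_map (Polynomial.evalRingHom t₀) _ _
      rw [h3]
      exact hJ₀
    apply hcop.dvd_of_dvd_mul_left
    rw [hrel]
    exact hdvd.mul_left _
  have hprod : (∏ t ∈ F, (Polynomial.X - Polynomial.C t) ^ h t) ∣ Q := by
    apply Finset.prod_dvd_of_coprime
    · intro s _ t _ hst
      exact (Polynomial.pairwise_coprime_X_sub_C (s := fun x : ℂ => x) (fun _ _ h => h) hst).pow
    · exact hmul
  have h1 := Polynomial.natDegree_le_of_dvd hprod hQ0
  rw [Polynomial.natDegree_prod_of_monic _ _ (fun t _ => (Polynomial.monic_X_sub_C t).pow _)] at h1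
  simp only [Polynomial.natDegree_pow, Polynomial.natDegree_X_sub_C, mul_one] at h1
  have h2 := hQd hQ0
  have h3 : (∑ t ∈ F, (h t : ℤ)) ≤ (Q.natDegree : ℤ) := by exact_mod_cast h1
  have h4 := sum_vl N T
  have h5 : ∑ t : Fin (N + T), (vl (finSumFinEquiv.symm t : Fin N ⊕ Fin T) : ℤ) =
      ∑ t, (vl (e t) : ℤ) := rfl
  rw [h5] at h4
  linarith

end H932S
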