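import Pool.Agent.H932.S.Two
import Pool.Agent.H932.S.Pencil
import Pool.Agent.H932.S.LenP

/-!
# The degree from a pencil, and the final statements
-/

open MvPolynomial H960VB H960VB.Bundle2 Y208PT Pool.Agent.H106R3.VB H932V H932W H932L

namespace H932S

variable {n : ℕ}

/-- a pencil of lines through `x₀` which gives the bound `D` for the degree -/
structure Pcl (E : Bundle2 n) (s : Fin E.a → MvPolynomial (Fin (n + 1)) ℂ) (r : ℤ)
    (x₀ R S : Fin (n + 1) → ℂ) (F : Finset ℂ) (h : ℂ → ℕ) : Prop where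
  ne : evv s x₀ ≠ 0
  li : ∀ t : ℂ, LinearIndependent ℂ ![x₀, R + t • S]
  low : ∃ t : ℂ, ¬ Ge E s r 1 x₀ (R + t • S)
  len : ∀ t ∈ F, Ge E s r (h t) x₀ (R + t • S)

theorem Aux.cc_ge {E : Bundle2 n} {s : Fin E.a → MvPolynomial (Fin (n + 1)) ℂ} {r : ℤ}
    (hs : E.IsSection r s) {c₁ : ℤ} (U : Aux E r c₁) {x₀ R S : Fin (n + 1) → ℂ} {F : Finset ℂ}
    {h : ℂ → ℕ} (H : Pcl E s r x₀ R S F h) :
    2 * ∑ t ∈ F, (h t : ℤ) ≤ U.cc ∧ 2 * ∑ t ∈ F, (h t : ℤ) ≤ U.cc' := by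
  classical
  obtain ⟨D, j, G, hG, K, hok, hr, hβ⟩ := U
  obtain ⟨t₁, ht₁⟩ := H.low
  obtain ⟨i₀, hi₀⟩ := ge_bound H.ne (ge_zero E hs x₀ (R + t₁ • S))
  have hβi := hβ i₀
  obtain ⟨N, hN⟩ := Int.eq_ofNat_of_zero_le (show 0 ≤ j - r + 1 by omega)
  obtain ⟨T, hT⟩ := Int.eq_ofNat_of_zero_le (show 0 ≤ c₁ + j + r + 1 by omega)
  have hNT : G = N + T := by omega
  subst hNT
  have hN' : (N : ℤ) = j - r + 1 := hN.symm
  have hT' : (T : ℤ) = c₁ + j + r + 1 := hT.symm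
  have hlow : ∀ c f, ¬ Dv E s r 1 x₀ (R + t₁ • S) c f := fun c f hcf => ht₁ ⟨c, f, hcf⟩
  have hlen : ∀ t ∈ F, ∃ k, h t ≤ k ∧ ∃ c f, Dv E s r k x₀ (R + t • S) c f := by
    intro t ht
    obtain ⟨c, f, hcf⟩ := H.len t ht
    exact ⟨h t, le_rfl, c, f, hcf⟩
  constructor
  · have hev : ∀ (w : Fin (n + 1) → ℂ) (P : MvPolynomial (V2 n) ℂ),
        eval w (aeval (Sum.elim (fun i => C (x₀ i)) X) P : MvPolynomial (Fin (n + 1)) ℂ) =
          eval (Sum.elim x₀ w) P := by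
      intro w P
      rw [eval_aeval_mv]
      congr 1
      congr 1
      funext i
      rcases i with i | i <;> simp
    have h1 := s_Pencil_of s_Exact E s c₁ D r hs j N T hN' hT' (by omega)
      (fun J => aeval (Sum.elim (fun i => C (x₀ i)) X) (K.pi J)) K.d2 (by
        intro J
        apply homZ_of_scale
        intro t ht w
        rw [hev, hev]
        have h1 := (K.homW J).eval t (Sum.elim x₀ w)
        rw [wtW_act] at h1
        exact h1) x₀ R S (fun t => hok _ _ (H.li t)) (by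
        intro t u hu
        obtain ⟨κ, hκ⟩ := K.wed x₀ (R + t • S) (hok _ _ (H.li t)) u hu
        refine ⟨κ, fun J => ?_⟩
        rw [hev, ← hκ]) H.ne t₁ hlow F h hlen
    unfold Aux.cc
    simp only
    have h2 : (j - r + 1) * (j - r) = N * ((N : ℤ) - 1) := by rw [hN']; ring
    have h3 : (c₁ + j + r + 1) * (c₁ + j + r) = T * ((T : ℤ) - 1) := by rw [hT']; ring
    rw [h2, h3]
    linarith
  · have hev : ∀ (w : Fin (n + 1) → ℂ) (P : MvPolynomial (V2 n) ℂ),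
        eval w (aeval (Sum.elim X (fun i => C (x₀ i))) P : MvPolynomial (Fin (n + 1)) ℂ) =
          eval (Sum.elim w x₀) P := by
      intro w P
      rw [eval_aeval_mv]
      congr 1
      congr 1
      funext i
      rcases i with i | i <;> simp
    have h1 := s_Pencil_of s_Exact E s c₁ D r hs j N T hN' hT' (by omega)
      (fun J => aeval (Sum.elim X (fun i => C (x₀ i))) (K.pi (rv ∘ J))) K.d1 (by
        intro J
        apply homZ_of_scale
        intro t ht w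
        rw [hev, hev]
        have h1 := (K.homY (rv ∘ J)).eval t (Sum.elim w x₀)
        rw [wtY_act] at h1
        refine Eq.trans h1 ?_
        have h2 : ∑ s, (E.β ((rv ∘ J) s).1 + j - ((((rv ∘ J) s).2 : ℕ) : ℤ)) =
            ∑ s, (((J s).2 : ℕ) : ℤ) := by
          refine Finset.sum_congr rfl fun s _ => ?_
          have h3 := rv_val (J s)
          simp only [Function.comp_apply]
          rw [h3]
          simp only [rv]
          ring
        rw [h2]) x₀ R S (fun t => hok _ _ (H.li t)) (by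
        intro t u hu
        obtain ⟨κ, hκ⟩ := K.wed (R + t • S) x₀ (hok _ _ (H.li t)).symm (fun s => u s ∘ rv)
          (fun s => kr_rv E (H.li t) (hu s))
        refine ⟨κ, fun J => ?_⟩
        rw [hev, ← hκ]
        unfold Wd
        congr 1
        ext a b
        simp [rv_rv]) H.ne t₁ hlow F h hlen
    unfold Aux.cc'
    simp only
    have h2 : (j - r + 1) * (j - r) = N * ((N : ℤ) - 1) := by rw [hN']; ring
    have h3 : (c₁ + j + r + 1) * (c₁ + j + r) = T * ((T : ℤ) - 1) := by rw [hT']; ring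
    rw [h2, h3]
    linarith

/-- **The number of the lengths of the lines through a point.** -/
theorem count_final (E : Bundle2 n) {s : Fin E.a → MvPolynomial (Fin (n + 1)) ℂ} {r : ℤ}
    (hs : E.IsSection r s) {c₁ : ℤ}
    (hc : ∀ A B : Fin (n + 1) → ℂ, LinearIndependent ℂ ![A, B] →
      ∀ a b : ℤ, E.SplitsOn A B a b → a + b = c₁)
    {x₀ R S : Fin (n + 1) → ℂ} {F : Finset ℂ} {h : ℂ → ℕ} (H : Pcl E s r x₀ R S F h)
    (hD : (c₁ + 2 * r) * (c₁ + 2 * r) < 4 * ∑ t ∈ F, (h t : ℤ))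
    {P : Fin (n + 1) → ℂ} (hP : evv s P ≠ 0) (hP0 : P ≠ 0) (m : ℕ)
    (Λ : Submodule ℂ (Fin (n + 1) → ℂ)) (hPΛ : P ∈ Λ) (hΛ : Module.finrank ℂ Λ = m + 1) :
    ∃ S : Finset ℕ, S.card = m ∧ ∀ k ∈ S, ∃ Q ∈ Λ, LinearIndependent ℂ ![P, Q] ∧
      Ln E s r k P Q := by
  rcases Nat.eq_zero_or_pos m with rfl | hm
  · exact ⟨∅, rfl, by simp⟩
  have hn : 1 ≤ n := by
    have := Submodule.finrank_le Λ
    simp at this
    omega
  obtain ⟨U⟩ := exists_aux hn E r c₁ hc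
  have h1 := (U.cc_ge hs H).1
  exact count hs U (by linarith) hP hP0 m hm Λ hPΛ hΛ

/-- **Multisecant lines which meet a line.** -/
theorem two_final (E : Bundle2 n) {s : Fin E.a → MvPolynomial (Fin (n + 1)) ℂ} {r : ℤ}
    (hs : E.IsSection r s) {c₁ : ℤ}
    (hc : ∀ A B : Fin (n + 1) → ℂ, LinearIndependent ℂ ![A, B] →
      ∀ a b : ℤ, E.SplitsOn A B a b → a + b = c₁)
    {x₀ R S : Fin (n + 1) → ℂ} {F : Finset ℂ} {h : ℂ → ℕ} (H : Pcl E s r x₀ R S F h)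
    (hD : (c₁ + 2 * r) * (c₁ + 2 * r) < 4 * ∑ t ∈ F, (h t : ℤ)) (m : ℕ) (hm : 2 ≤ m)
    (hD2 : ((m : ℤ) - 1) * ((m : ℤ) - 1) < ∑ t ∈ F, (h t : ℤ))
    (Λ : Submodule ℂ (Fin (n + 1) → ℂ)) (hΛ : Module.finrank ℂ Λ = m + 1)
    {A₀ B₀ : Fin (n + 1) → ℂ} (hAΛ : A₀ ∈ Λ) (hBΛ : B₀ ∈ Λ) (hAB : LinearIndependent ℂ ![A₀, B₀])
    (hA : ∀ y ∈ Submodule.span ℂ {A₀, B₀}, y ≠ 0 → evv s y ≠ 0) :
    ∃ P ∈ Submodule.span ℂ {A₀, B₀}, ∃ Q ∈ Λ, LinearIndependent ℂ ![P, Q] ∧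
      ∃ k, m ≤ k ∧ Ln E s r k P Q := by
  have hn : 1 ≤ n := by
    have := Submodule.finrank_le Λ
    simp at this
    omega
  obtain ⟨U⟩ := exists_aux hn E r c₁ hc
  obtain ⟨h1, h2⟩ := U.cc_ge hs H
  obtain ⟨P, hP, Q, hQ, hPQ, hge⟩ := two hs U (by linarith) m hm (by linarith) Λ hΛ hAΛ hBΛ hAB hA
  obtain ⟨k, hk, hln⟩ := exists_ln (hA P hP (hPQ.ne_zero 0)) hge
  exact ⟨P, hP, Q, hQ, hPQ, k, hk, hln⟩

end H932S
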