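import Pool.Agent.H932.S.Stm

/-!
# Homogeneity of the comparison polynomials, first scaling
-/

open MvPolynomial H960VB H960VB.Bundle2 Y208PT Pool.Agent.H106R3.VB H932V H932W H932L

namespace H932S

/-- products of powers -/
theorem hom1_prod_zpow {ι : Type*} {t : ℂ} (ht : t ≠ 0) (s : Finset ι) (g : ι → ℤ) :
    ∏ i ∈ s, t ^ g i = t ^ (∑ i ∈ s, g i) := by
  classical
  induction s using Finset.induction_on with
  | empty => simp
  | insert a s ha ih => rw [Finset.prod_insert ha, Finset.sum_insert ha, ih, zpow_add₀ ht]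

/-- the exponents of the rows -/
def hom1_row {n : ℕ} (E : Bundle2 n) (r j : ℤ) (N T : ℕ) (J₂ : Fin 2 → Fin E.a) (x : Fin E.a) :
    Fin N ⊕ Fin T → ℤ :=
  Sum.elim (fun _ => E.β x + j) (fun _ => E.β (J₂ 0) + E.β (J₂ 1) + r + j)

theorem hom1_row_sum {n : ℕ} (E : Bundle2 n) (r j : ℤ) (N T : ℕ) (J₂ : Fin 2 → Fin E.a)
    (x : Fin E.a) : ∑ s : Fin (N + T), hom1_row E r j N T J₂ x (finSumFinEquiv.symm s) =
      N * (E.β x + j) + T * (E.β (J₂ 0) + E.β (J₂ 1) + r + j) := by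
  rw [Equiv.sum_comp finSumFinEquiv.symm (hom1_row E r j N T J₂ x), Fintype.sum_sum_type]
  simp [hom1_row]

/-- the quotient at the new point -/
theorem hom1_fv {n : ℕ} (E : Bundle2 n) (r : ℤ) (k : ℕ) (y w y' w' : Fin (n + 1) → ℂ)
    (c : Fin k → ℂ) (f : Idx E.β (r - k) → ℂ) (t : ℂ) (i : Fin E.a) (l : ℕ) :
    eval (pt y' w' c (fun z => t ^ (E.β z.1 + r) * f z)) (fv E r k i l) =
      t ^ (E.β i + r) * eval (pt y w c f) (fv E r k i l) := by
  unfold fv
  by_cases h : l < (E.β i + (r - k) + 1).toNat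
  · rw [dif_pos h, eval_X, eval_X]
    rfl
  · rw [dif_neg h, map_zero, map_zero, mul_zero]

/-- the rows at the new point -/
theorem hom1_rho {n : ℕ} (E : Bundle2 n) (r : ℤ) (k : ℕ) (j : ℤ) (N T : ℕ)
    (J₂ : Fin 2 → Fin E.a) (x : Fin E.a) (y w y' w' : Fin (n + 1) → ℂ)
    (c : Fin k → ℂ) (f : Idx E.β (r - k) → ℂ) (t : ℂ) (ht : t ≠ 0) (i : Fin N ⊕ Fin T)
    (z : Idx E.β j) :
    eval (pt y' w' c (fun z => t ^ (E.β z.1 + r) * f z)) (rho E r k j N T J₂ x i z) =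
      t ^ (hom1_row E r j N T J₂ x i - (E.β z.1 + j)) *
        eval (pt y w c f) (rho E r k j N T J₂ x i z) := by
  rcases i with b | m
  · simp only [rho, Sum.elim_inl, hom1_row]
    by_cases h : z.1 = x ∧ (z.2 : ℕ) = (b : ℕ)
    · rw [if_pos h, map_one, map_one, h.1, sub_self, zpow_zero, mul_one]
    · rw [if_neg h, map_zero, map_zero, mul_zero]
  · simp only [rho, Sum.elim_inr, hom1_row]
    by_cases h : (z.2 : ℕ) ≤ (m : ℕ)
    · rw [if_pos h, map_sub, map_sub, mul_sub]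
      have h0 : eval (pt y' w' c (fun z => t ^ (E.β z.1 + r) * f z))
            (if z.1 = J₂ 0 then fv E r k (J₂ 1) ((m : ℕ) - (z.2 : ℕ)) else 0) =
          t ^ (E.β (J₂ 0) + E.β (J₂ 1) + r + j - (E.β z.1 + j)) * eval (pt y w c f)
            (if z.1 = J₂ 0 then fv E r k (J₂ 1) ((m : ℕ) - (z.2 : ℕ)) else 0) := by
        by_cases h1 : z.1 = J₂ 0
        · have h3 : E.β z.1 = E.β (J₂ 0) := congrArg E.β h1
          have e : E.β (J₂ 0) + E.β (J₂ 1) + r + j - (E.β z.1 + j) = E.β (J₂ 1) + r := by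
            rw [h3]
            ring
          rw [if_pos h1, hom1_fv E r k y w y' w' c f t, e]
        · rw [if_neg h1, map_zero, map_zero, mul_zero]
      have h2 : eval (pt y' w' c (fun z => t ^ (E.β z.1 + r) * f z))
            (if z.1 = J₂ 1 then fv E r k (J₂ 0) ((m : ℕ) - (z.2 : ℕ)) else 0) =
          t ^ (E.β (J₂ 0) + E.β (J₂ 1) + r + j - (E.β z.1 + j)) * eval (pt y w c f)
            (if z.1 = J₂ 1 then fv E r k (J₂ 0) ((m : ℕ) - (z.2 : ℕ)) else 0) := by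
        by_cases h1 : z.1 = J₂ 1
        · have h3 : E.β z.1 = E.β (J₂ 1) := congrArg E.β h1
          have e : E.β (J₂ 0) + E.β (J₂ 1) + r + j - (E.β z.1 + j) = E.β (J₂ 0) + r := by
            rw [h3]
            ring
          rw [if_pos h1, hom1_fv E r k y w y' w' c f t, e]
        · rw [if_neg h1, map_zero, map_zero, mul_zero]
      rw [h0, h2]
    · rw [if_neg h, map_zero, map_zero, mul_zero]

/-- the Plücker vector at the new point -/
theorem hom1_pi {n : ℕ} (E : Bundle2 n) {j : ℤ} {G : ℕ} (K : PlkL E j G)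
    (y w : Fin (n + 1) → ℂ) (t : ℂ) (ht : t ≠ 0) (J : Fin G → Idx E.β j) :
    eval (Sum.elim (t • y) (t • w)) (K.pi J) =
      t ^ (∑ s, (E.β (J s).1 + j) - K.d1 - K.d2) * eval (Sum.elim y w) (K.pi J) := by
  have h1 := (K.homY J).eval t (Sum.elim y w)
  rw [wtY_act] at h1
  have e1 : (Sum.elim (t • (Sum.elim y w ∘ Sum.inl)) (Sum.elim y w ∘ Sum.inr) : V2 n → ℂ) =
      Sum.elim (t • y) w := rfl
  rw [e1] at h1
  have h2 := (K.homW J).eval t (Sum.elim (t • y) w)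
  rw [wtW_act] at h2
  have e2 : (Sum.elim (Sum.elim (t • y) w ∘ Sum.inl) (t • (Sum.elim (t • y) w ∘ Sum.inr)) :
      V2 n → ℂ) = Sum.elim (t • y) (t • w) := rfl
  rw [e2] at h2
  rw [h2, h1, ← mul_assoc, ← zpow_add₀ ht]
  have e3 : ∑ s, (((J s).2 : ℕ) : ℤ) - K.d2 +
      (∑ s, (E.β (J s).1 + j - (((J s).2 : ℕ) : ℤ)) - K.d1) =
      ∑ s, (E.β (J s).1 + j) - K.d1 - K.d2 := by
    rw [Finset.sum_sub_distrib]
    ring
  rw [e3]

theorem s_Hom1 : S_Hom1 := by
  intro n E r k j N T K J₂ x y w c f t ht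
  unfold RR
  rw [map_sum, map_sum, Finset.mul_sum]
  apply Finset.sum_congr rfl
  intro J _
  rw [map_mul, map_mul, map_prod, map_prod, eval_rename, eval_rename]
  have e1 : (pt (t • y) (t • w) c (fun z => t ^ (E.β z.1 + r) * f z) : Sg E r k → ℂ) ∘ Sum.inl =
      Sum.elim (t • y) (t • w) := rfl
  have e2 : (pt y w c f : Sg E r k → ℂ) ∘ Sum.inl = Sum.elim y w := rfl
  rw [e1, e2, hom1_pi E K y w t ht J]
  have e3 : ∏ s, eval (pt (t • y) (t • w) c (fun z => t ^ (E.β z.1 + r) * f z))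
        (rho E r k j N T J₂ x (finSumFinEquiv.symm s) (J s)) =
      t ^ (N * (E.β x + j) + T * (E.β (J₂ 0) + E.β (J₂ 1) + r + j) - ∑ s, (E.β (J s).1 + j)) *
        ∏ s, eval (pt y w c f) (rho E r k j N T J₂ x (finSumFinEquiv.symm s) (J s)) := by
    rw [← hom1_row_sum E r j N T J₂ x, ← Finset.sum_sub_distrib,
      ← hom1_prod_zpow ht, ← Finset.prod_mul_distrib]
    exact Finset.prod_congr rfl fun s _ =>
      hom1_rho E r k j N T J₂ x y w (t • y) (t • w) c f t ht _ _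
  rw [e3]
  have e4 : t ^ (N * (E.β x + j) + T * (E.β (J₂ 0) + E.β (J₂ 1) + r + j) - K.d1 - K.d2) =
      t ^ (N * (E.β x + j) + T * (E.β (J₂ 0) + E.β (J₂ 1) + r + j) -
        ∑ s, (E.β (J s).1 + j)) * t ^ (∑ s, (E.β (J s).1 + j) - K.d1 - K.d2) := by
    rw [← zpow_add₀ ht]
    congr 1
    ring
  rw [e4]
  ring

end H932S
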