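import Pool.Agent.H932.S.Stm

/-!
# The second scaling of the comparison polynomials
-/

open MvPolynomial H960VB H960VB.Bundle2 Y208PT Pool.Agent.H106R3.VB H932V H932W H932L

namespace H932S

variable {n : ℕ}

theorem hom2_fv (E : Bundle2 n) (r : ℤ) (k : ℕ) (i : Fin E.a) (l : ℕ) (y w w' : Fin (n + 1) → ℂ)
    (c c' : Fin k → ℂ) (f : Idx E.β (r - k) → ℂ) (t : ℂ) :
    eval (pt y w' c' (fun z => t ^ (z.2 : ℕ) * f z)) (fv E r k i l) =
      t ^ l * eval (pt y w c f) (fv E r k i l) := by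
  unfold fv
  split_ifs with h
  · rw [eval_X, eval_X]
    rfl
  · simp

theorem hom2_rho (E : Bundle2 n) (r : ℤ) (k : ℕ) (j : ℤ) (N T : ℕ) (J₂ : Fin 2 → Fin E.a)
    (x : Fin E.a) (y w w' : Fin (n + 1) → ℂ) (c c' : Fin k → ℂ) (f : Idx E.β (r - k) → ℂ) (t : ℂ)
    (s : Fin N ⊕ Fin T) (z : Idx E.β j) :
    eval (pt y w' c' (fun z => t ^ (z.2 : ℕ) * f z)) (rho E r k j N T J₂ x s z) * t ^ (z.2 : ℕ) =
      t ^ (Sum.elim (fun b : Fin N => (b : ℕ)) (fun m : Fin T => (m : ℕ)) s) *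
        eval (pt y w c f) (rho E r k j N T J₂ x s z) := by
  rcases s with b | m
  · simp only [rho, Sum.elim_inl]
    split_ifs with h
    · rw [map_one, map_one, h.2]
      ring
    · simp
  · simp only [rho, Sum.elim_inr]
    split_ifs with h h1 h2 h2
    · rw [map_sub, map_sub, hom2_fv E r k _ _ y w w' c c', hom2_fv E r k _ _ y w w' c c']
      have h3 : t ^ (m : ℕ) = t ^ ((m : ℕ) - (z.2 : ℕ)) * t ^ (z.2 : ℕ) := by
        rw [← pow_add]
        congr 1
        omega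
      rw [h3]
      ring
    · rw [map_sub, map_sub, hom2_fv E r k _ _ y w w' c c', map_zero, map_zero]
      have h3 : t ^ (m : ℕ) = t ^ ((m : ℕ) - (z.2 : ℕ)) * t ^ (z.2 : ℕ) := by
        rw [← pow_add]
        congr 1
        omega
      rw [h3]
      ring
    · rw [map_sub, map_sub, hom2_fv E r k _ _ y w w' c c', map_zero, map_zero]
      have h3 : t ^ (m : ℕ) = t ^ ((m : ℕ) - (z.2 : ℕ)) * t ^ (z.2 : ℕ) := by
        rw [← pow_add]
        congr 1
        omega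
      rw [h3]
      ring
    · simp
    · simp

theorem hom2_sum (N T : ℕ) :
    2 * ∑ s : Fin (N + T), ((Sum.elim (fun b : Fin N => (b : ℕ)) (fun m : Fin T => (m : ℕ))
      (finSumFinEquiv.symm s) : ℕ) : ℤ) = N * ((N : ℤ) - 1) + T * ((T : ℤ) - 1) := by
  have h : ∀ M : ℕ, 2 * ∑ b : Fin M, ((b : ℕ) : ℤ) = M * ((M : ℤ) - 1) := by
    intro M
    induction M with
    | zero => simp
    | succ M ih =>
      rw [Fin.sum_univ_castSucc, mul_add]
      simp only [Fin.val_castSucc, Fin.val_last]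
      rw [ih]
      push_cast
      ring
  rw [Equiv.sum_comp finSumFinEquiv.symm (fun s : Fin N ⊕ Fin T =>
    ((Sum.elim (fun b : Fin N => (b : ℕ)) (fun m : Fin T => (m : ℕ)) s : ℕ) : ℤ)),
    Fintype.sum_sum_type]
  simp only [Sum.elim_inl, Sum.elim_inr]
  rw [mul_add, h, h]

theorem s_Hom2 : S_Hom2 := by
  intro n E r k j N T K J₂ x y w c c' f t ht e he
  unfold RR
  rw [map_sum, map_sum, Finset.mul_sum]
  refine Finset.sum_congr rfl fun J _ => ?_
  rw [map_mul, map_mul, map_prod, map_prod, eval_rename, eval_rename]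
  have h1 : (pt y (t • w) c' (fun z : Idx E.β (r - k) => t ^ (z.2 : ℕ) * f z) ∘ Sum.inl :
      V2 n → ℂ) = Sum.elim y (t • w) := by
    funext i
    rfl
  have h2 : (pt y w c f ∘ Sum.inl : V2 n → ℂ) = Sum.elim y w := by
    funext i
    rfl
  rw [h1, h2]
  have h3 := (K.homW J).eval t (Sum.elim y w)
  rw [wtW_act] at h3
  have h4 : (Sum.elim (Sum.elim y w ∘ Sum.inl) (t • (Sum.elim y w ∘ Sum.inr)) : V2 n → ℂ) =
      Sum.elim y (t • w) := rfl
  rw [h4] at h3
  rw [h3]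
  have h5 : (∏ s, eval (pt y (t • w) c' (fun z : Idx E.β (r - k) => t ^ (z.2 : ℕ) * f z))
        (rho E r k j N T J₂ x (finSumFinEquiv.symm s) (J s))) *
      t ^ (∑ s, ((J s).2 : ℕ)) =
      t ^ (∑ s : Fin (N + T), Sum.elim (fun b : Fin N => (b : ℕ)) (fun m : Fin T => (m : ℕ))
        (finSumFinEquiv.symm s)) *
      ∏ s, eval (pt y w c f) (rho E r k j N T J₂ x (finSumFinEquiv.symm s) (J s)) := by
    rw [← Finset.prod_pow_eq_pow_sum, ← Finset.prod_pow_eq_pow_sum, ← Finset.prod_mul_distrib,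
      ← Finset.prod_mul_distrib]
    exact Finset.prod_congr rfl fun s _ => hom2_rho E r k j N T J₂ x y w _ c c' f t _ _
  have h6 : e = ∑ s : Fin (N + T), ((Sum.elim (fun b : Fin N => (b : ℕ))
      (fun m : Fin T => (m : ℕ)) (finSumFinEquiv.symm s) : ℕ) : ℤ) - K.d2 := by
    have := hom2_sum N T
    linarith
  have h7 : t ^ e = t ^ (∑ s : Fin (N + T), Sum.elim (fun b : Fin N => (b : ℕ))
      (fun m : Fin T => (m : ℕ)) (finSumFinEquiv.symm s)) * t ^ (-K.d2) := by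
    rw [h6, sub_eq_add_neg, zpow_add₀ ht, ← Nat.cast_sum, zpow_natCast]
  have h8 : t ^ (∑ s, (((J s).2 : ℕ) : ℤ) - K.d2) = t ^ (∑ s, ((J s).2 : ℕ)) * t ^ (-K.d2) := by
    rw [sub_eq_add_neg, zpow_add₀ ht, ← Nat.cast_sum, zpow_natCast]
  rw [h7, h8]
  linear_combination (t ^ (-K.d2) * eval (Sum.elim y w) (K.pi J)) * h5

end H932S
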