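import Pool.Agent.H932.S.Stm

/-!
# The length of the intersection of a subscheme with a line
-/

open MvPolynomial H960VB H960VB.Bundle2 Y208PT Pool.Agent.H106R3.VB H932V H932W H932L

namespace H932S

variable {n : ℕ}

/-- restriction of a polynomial to the line through `A` and `B` -/
noncomputable def res (A B : Fin (n + 1) → ℂ) (F : MvPolynomial (Fin (n + 1)) ℂ) :
    MvPolynomial (Fin 2) ℂ := aeval (fun i => C (A i) * X 0 + C (B i) * X 1) F

/-- The subscheme defined by the ideal `I` meets the line through `A` and `B` in a scheme of length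
`k`: the restrictions of the elements of `I` to the line are multiples of a binary form `g` of
degree `k`, and the quotients have no common zero. -/
def MeetsIn (I : Ideal (MvPolynomial (Fin (n + 1)) ℂ)) (A B : Fin (n + 1) → ℂ) (k : ℕ) : Prop :=
  ∃ g : MvPolynomial (Fin 2) ℂ, g.IsHomogeneous k ∧ g ≠ 0 ∧ (∀ F ∈ I, g ∣ res A B F) ∧
    ∀ z : Fin 2 → ℂ, z ≠ 0 → ∃ F ∈ I, ∃ h, res A B F = g * h ∧ eval z h ≠ 0

/-- the length, in terms of the section -/
def S_Len : Prop := ∀ {n : ℕ} (I : Ideal (MvPolynomial (Fin (n + 1)) ℂ)) (E : Bundle2 n)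
  (s : Fin E.a → MvPolynomial (Fin (n + 1)) ℂ) (_ : E.IsSection 0 s)
  (_ : ∀ F, F ∈ I ↔ ∃ N : ℕ, ∀ i, X i ^ N * F ∈ Ideal.span (Set.range s))
  (A B : Fin (n + 1) → ℂ) (_ : LinearIndependent ℂ ![A, B]) (_ : evv s A ≠ 0) (k : ℕ),
  MeetsIn I A B k ↔
    (∃ c f, Dv E s 0 k A B c f) ∧ ∀ c f, ¬ Dv E s 0 (k + 1) A B c f

end H932S
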