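import Pool.Agent.H932.S.Stm2

/-!
# A line through a point of a plane meets the zero scheme, if the degree is positive
-/

open MvPolynomial H960VB H960VB.Bundle2 Y208PT Pool.Agent.H106R3.VB H932V H932W H932L

namespace H932S

variable {n : ℕ}

/-- the array of the section on the line (`k = 0`) -/
noncomputable def fA (E : Bundle2 n) (s : Fin E.a → MvPolynomial (Fin (n + 1)) ℂ) (j : ℤ)
    (y w : Fin (n + 1) → ℂ) : Idx E.β j → ℂ := fun z => (lp y w (s z.1)).coeff (z.2 : ℕ)

theorem pol_fA (E : Bundle2 n) (s : Fin E.a → MvPolynomial (Fin (n + 1)) ℂ) {r j : ℤ}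
    (hs : E.IsSection r s) (hj : j = r) (y w : Fin (n + 1) → ℂ) (i : Fin E.a) :
    pol E (fA E s j y w) i = lp y w (s i) := by
  subst hj
  ext m
  rw [pol_coeff]
  unfold cf
  by_cases h : m < (E.β i + j + 1).toNat
  · rw [dif_pos h]
    rfl
  · rw [dif_neg h]
    rcases hs.1 i with h0 | ⟨d, hd, hp⟩
    · rw [h0, map_zero, Polynomial.coeff_zero]
    · have h2 := natDegree_lp y w hp
      exact (Polynomial.coeff_eq_zero_of_natDegree_lt (by omega)).symm

theorem dv_fA (E : Bundle2 n) (s : Fin E.a → MvPolynomial (Fin (n + 1)) ℂ) {r : ℤ}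
    (hs : E.IsSection r s) (y w : Fin (n + 1) → ℂ) (c : Fin 0 → ℂ) :
    Dv E s r 0 y w c (fA E s (r - ((0 : ℕ) : ℤ)) y w) := by
  intro i
  rw [pol_fA E s hs (by simp)]
  have h : cb c = 1 := by
    unfold cb
    simp
  rw [h, one_mul]

/-- evaluation of a polynomial at a family of polynomials in one variable -/
theorem aeval_eval {σ : Type} (q : σ → Polynomial ℂ) (p : MvPolynomial σ ℂ) (t : ℂ) :
    (aeval q p).eval t = eval (fun i => (q i).eval t) p := by
  have h : (Polynomial.evalRingHom t).comp (aeval q : MvPolynomial σ ℂ →ₐ[ℂ] _).toRingHom =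
      (eval (fun i => (q i).eval t) : MvPolynomial σ ℂ →+* ℂ) := by
    apply MvPolynomial.ringHom_ext
    · intro c
      have h2 : (aeval q : MvPolynomial σ ℂ →ₐ[ℂ] _).toRingHom (C c) = Polynomial.C c :=
        AlgHom.commutes (aeval q : MvPolynomial σ ℂ →ₐ[ℂ] _) c
      rw [RingHom.comp_apply, h2]
      simp
    · intro i
      have h2 : (aeval q : MvPolynomial σ ℂ →ₐ[ℂ] _).toRingHom (X i) = q i := by
        change aeval q (X i) = _
        rw [aeval_X]
      rw [RingHom.comp_apply, h2]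
      simp
  exact congrArg (fun f => f p) h

/-- the value of a comparison polynomial along a line of points `w` is a polynomial -/
theorem exists_PP (E : Bundle2 n) (s : Fin E.a → MvPolynomial (Fin (n + 1)) ℂ) (r : ℤ)
    (y A B : Fin (n + 1) → ℂ) (c : Fin 0 → ℂ) (F : MvPolynomial (Sg E r 0) ℂ) :
    ∃ P : Polynomial ℂ, ∀ t : ℂ, P.eval t =
      eval (pt y (A + t • B) c (fA E s (r - ((0 : ℕ) : ℤ)) y (A + t • B))) F := by
  let W : Fin (n + 1) → Polynomial ℂ := fun l => Polynomial.C (A l) + Polynomial.X * Polynomial.C (B l)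
  let Y : Fin (n + 1) → Polynomial ℂ := fun l => Polynomial.C (y l)
  let Z : Idx E.β (r - ((0 : ℕ) : ℤ)) → Polynomial ℂ := fun z =>
    aeval (Sum.elim Y W) ((sb n (s z.1)).coeff (z.2 : ℕ))
  refine ⟨aeval (Sum.elim (Sum.elim Y W) (Sum.elim (fun h => Polynomial.C (c h)) Z) :
    Sg E r 0 → Polynomial ℂ) F, fun t => ?_⟩
  rw [aeval_eval]
  have hW : ∀ l, (W l).eval t = (A + t • B) l := by
    intro l
    simp only [W, Polynomial.eval_add, Polynomial.eval_mul, Polynomial.eval_C, Polynomial.eval_X,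
      Pi.add_apply, Pi.smul_apply, smul_eq_mul]
  have hY : ∀ l, (Y l).eval t = y l := by
    intro l
    simp [Y]
  have hVW : (fun i : V2 n => (Sum.elim Y W i).eval t) = Sum.elim y (A + t • B) := by
    funext i
    rcases i with i | i
    · exact hY i
    · exact hW i
  have e : (fun i : Sg E r 0 => ((Sum.elim (Sum.elim Y W)
      (Sum.elim (fun h => Polynomial.C (c h)) Z) : Sg E r 0 → Polynomial ℂ) i).eval t) =
      pt y (A + t • B) c (fA E s (r - ((0 : ℕ) : ℤ)) y (A + t • B)) := by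
    funext i
    rcases i with i | i | i
    · exact congrFun hVW i
    · show (Polynomial.C (c i)).eval t = c i
      exact Polynomial.eval_C
    · show (Z i).eval t = (lp y (A + t • B) (s i.1)).coeff (i.2 : ℕ)
      rw [← coeff_eval_sb, ← hVW]
      exact aeval_eval _ _ _
  rw [e]

theorem s_Line0_of (hX : S_Exact) (hB : S_Basis) (hE : S_Eval) (hH : S_Hom2) : S_Line0 := by
  intro n E s c₁ D r hs j N T hN hT K hOk hpos y R S hli hy
  by_contra hcon
  push Not at hcon
  have hli' : ∀ a b : ℂ, (a ≠ 0 ∨ b ≠ 0) → LinearIndependent ℂ ![y, a • R + b • S] := by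
    intro a b hab
    rw [LinearIndependent.pair_iff]
    intro u v huv
    rw [Fintype.linearIndependent_iff] at hli
    have h1 := hli ![u, v * a, v * b] (by
      rw [Fin.sum_univ_three]
      simp only [Matrix.cons_val_zero, Matrix.cons_val_one, Matrix.cons_val_two, Matrix.head_cons,
        Matrix.tail_cons]
      rw [← huv, smul_add, smul_smul, smul_smul, add_assoc])
    have hu : u = 0 := h1 0
    have hva : v * a = 0 := h1 1
    have hvb : v * b = 0 := h1 2
    refine ⟨hu, ?_⟩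
    rcases hab with h | h
    · exact (mul_eq_zero.1 hva).resolve_right h
    · exact (mul_eq_zero.1 hvb).resolve_right h
  have hy0 : y ≠ 0 := by
    have := hli.ne_zero 0
    simpa using this
  obtain ⟨x, hx⟩ := Function.ne_iff.1 hy
  obtain ⟨J₂, hJ₂⟩ := D.ne y hy0
  have hx' : eval y (s x) ≠ 0 := hx
  -- nonvanishing
  have hne : ∀ a b : ℂ, (a ≠ 0 ∨ b ≠ 0) →
      eval (pt y (a • R + b • S) Fin.elim0 (fA E s (r - ((0 : ℕ) : ℤ)) y (a • R + b • S)))
        (RR E r 0 K J₂ x) ≠ 0 := by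
    intro a b hab h0
    have hl := hli' a b hab
    have hdv := dv_fA E s hs y (a • R + b • S) Fin.elim0
    have hnz : NZ E (fA E s (r - ((0 : ℕ) : ℤ)) y (a • R + b • S)) :=
      hX E s r 0 y (a • R + b • S) Fin.elim0 _ hy hdv (fun c' f' => hcon a b hl c' f')
    have hkr := kr_of_dv hs hl hdv
    have hN' : (N : ℤ) = j - r + ((0 : ℕ) : ℤ) + 1 := by
      rw [hN]
      push_cast
      ring
    have hT' : (T : ℤ) = c₁ + j + r - ((0 : ℕ) : ℤ) + 1 := by
      rw [hT]
      push_cast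
      ring
    obtain ⟨v, hv1, hv2⟩ := hB E c₁ D r 0 j N T hN' hT' y (a • R + b • S) (hOk _ _ hl) _ hkr hnz
    obtain ⟨κ, hκ⟩ := hE E s c₁ D r 0 j N T hN' K y (a • R + b • S) (hOk _ _ hl) Fin.elim0 _ hkr hdv
      v hv1 hv2
    have h1 := hκ J₂ x
    rw [h0, mul_zero] at h1
    exact mul_ne_zero (pow_ne_zero _ hx') (pow_ne_zero _ hJ₂) h1
  obtain ⟨P1, hP1⟩ := exists_PP E s r y R S Fin.elim0 (RR E r 0 K J₂ x)
  obtain ⟨P2, hP2⟩ := exists_PP E s r y S R Fin.elim0 (RR E r 0 K J₂ x)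
  obtain ⟨c0, hc0⟩ := H960VB.L2.const_of_nonvanishing P1 (fun t => by
    rw [hP1]
    have := hne 1 t (Or.inl one_ne_zero)
    rwa [one_smul] at this)
  -- the degree
  obtain ⟨e, he⟩ : ∃ e : ℤ, 2 * e = N * ((N : ℤ) - 1) + T * ((T : ℤ) - 1) - 2 * K.d2 := by
    obtain ⟨a, ha⟩ := Int.even_mul_pred_self (N : ℤ)
    obtain ⟨b, hb⟩ := Int.even_mul_pred_self (T : ℤ)
    exact ⟨a + b - K.d2, by rw [ha, hb]; ring⟩
  have he0 : 0 < e := by linarith
  obtain ⟨m, rfl⟩ := Int.eq_ofNat_of_zero_le he0.le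
  have hm : m ≠ 0 := by
    rintro rfl
    exact absurd he0 (by simp)
  have hP2' : ∀ t : ℂ, t ≠ 0 → P2.eval t = c0 * t ^ m := by
    intro t ht
    rw [hP2]
    have hw : S + t • R = t • (R + t⁻¹ • S) := by
      rw [smul_add, smul_smul, mul_inv_cancel₀ ht, one_smul]
      exact add_comm _ _
    have h1 := hH E r 0 j N T K J₂ x y (R + t⁻¹ • S) Fin.elim0 Fin.elim0
      (fA E s (r - ((0 : ℕ) : ℤ)) y (R + t⁻¹ • S)) t ht m he
    have h2 : (fun z : Idx E.β (r - ((0 : ℕ) : ℤ)) => t ^ (z.2 : ℕ) *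
        fA E s (r - ((0 : ℕ) : ℤ)) y (R + t⁻¹ • S) z) =
        fA E s (r - ((0 : ℕ) : ℤ)) y (t • (R + t⁻¹ • S)) := by
      funext z
      unfold fA
      rw [coeff_lp_smul_right]
    rw [h2] at h1
    rw [hw, h1, ← hP1, hc0, zpow_natCast]
    ring
  have hP2e : P2 = Polynomial.C c0 * Polynomial.X ^ m := by
    apply Polynomial.eq_of_infinite_eval_eq
    apply Set.Infinite.mono (s := {t : ℂ | t ≠ 0})
    · intro t ht
      show P2.eval t = _
      rw [hP2' t ht]
      simp
    · exact Set.Finite.infinite_compl (Set.finite_singleton (0 : ℂ))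
  have h3 : P2.eval 0 = 0 := by
    rw [hP2e]
    simp [hm]
  have h4 := hne 0 1 (Or.inr one_ne_zero)
  rw [zero_smul, one_smul, zero_add] at h4
  apply h4
  rw [hP2, zero_smul, add_zero] at h3
  exact h3

end H932S
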