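import Pool.Agent.H932.S.Stm2

/-!
# A smaller divisor (by helper294)
-/

open MvPolynomial H960VB H960VB.Bundle2 Y208PT Pool.Agent.H106R3.VB H932V H932W H932L

namespace H932S

theorem s_Mono : S_Mono := by
  intro n E s r k y w c f _ hD
  by_cases hdeg : (cb c).natDegree ≤ k
  · obtain ⟨c', hc'⟩ := exists_cb (cb c) hdeg (cb_coeff_zero c)
    obtain ⟨f', hf'⟩ := exists_pol E (r - k) (fun i => pol E f i) (fun i m hm =>
      pol_coeff_eq_zero E f i (by push_cast; omega))
    refine ⟨c', f', fun i => ?_⟩
    rw [hc', hf', hD i]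
  · have hd : (cb c).degree ≠ 0 := by
      intro h
      have h0 : (cb c).natDegree = 0 :=
        Polynomial.natDegree_eq_zero_iff_degree_le_zero.2 (le_of_eq h)
      omega
    obtain ⟨t, ht⟩ := IsAlgClosed.exists_root (cb c) hd
    have ht0 : t ≠ 0 := by
      rintro rfl
      have h1 : (cb c).coeff 0 = 0 := by
        rw [Polynomial.coeff_zero_eq_eval_zero]
        exact ht
      rw [cb_coeff_zero] at h1
      exact one_ne_zero h1
    obtain ⟨q₀, hq₀⟩ := Polynomial.dvd_iff_isRoot.2 ht
    obtain ⟨q, hq⟩ : ∃ q, q = -(Polynomial.C t * q₀) := ⟨_, rfl⟩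
    have hfac : cb c = (1 - Polynomial.C t⁻¹ * Polynomial.X) * q := by
      rw [hq₀, hq]
      have h1 : Polynomial.C t⁻¹ * Polynomial.C t = 1 := by
        rw [← Polynomial.C_mul, inv_mul_cancel₀ ht0, Polynomial.C_1]
      linear_combination (-Polynomial.X * q₀) * h1
    have hlin : (1 - Polynomial.C t⁻¹ * Polynomial.X : Polynomial ℂ).natDegree = 1 := by
      have h1 : (1 - Polynomial.C t⁻¹ * Polynomial.X : Polynomial ℂ)
          = Polynomial.C (-t⁻¹) * Polynomial.X + Polynomial.C 1 := by
        rw [Polynomial.C_neg, Polynomial.C_1]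
        ring
      rw [h1]
      exact Polynomial.natDegree_linear (neg_ne_zero.2 (inv_ne_zero ht0))
    have hl0 : (1 - Polynomial.C t⁻¹ * Polynomial.X : Polynomial ℂ) ≠ 0 := by
      intro h
      rw [h, Polynomial.natDegree_zero] at hlin
      omega
    have hqne : q ≠ 0 := by
      intro h
      rw [h, mul_zero] at hfac
      exact cb_ne_zero c hfac
    have hqdeg : q.natDegree ≤ k := by
      have h1 := cb_natDegree c
      rw [hfac, Polynomial.natDegree_mul hl0 hqne, hlin] at h1
      omega
    have hq0 : q.coeff 0 = 1 := by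
      have h1 := cb_coeff_zero c
      rw [hfac, Polynomial.mul_coeff_zero] at h1
      simpa using h1
    obtain ⟨c', hc'⟩ := exists_cb q hqdeg hq0
    have hco : ∀ (P : Polynomial ℂ) (m : ℕ), ((1 - Polynomial.C t⁻¹ * Polynomial.X) * P).coeff m
        = P.coeff m - t⁻¹ * (if 1 ≤ m then P.coeff (m - 1) else 0) := by
      intro P m
      rw [sub_mul, one_mul, Polynomial.coeff_sub, mul_assoc, Polynomial.coeff_C_mul]
      rcases m with _ | m
      · rw [Polynomial.mul_coeff_zero, Polynomial.coeff_X_zero, zero_mul, if_neg (by omega)]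
      · rw [Polynomial.coeff_X_mul, if_pos (by omega), Nat.add_sub_cancel]
    obtain ⟨f', hf'⟩ := exists_pol E (r - k)
      (fun i => (1 - Polynomial.C t⁻¹ * Polynomial.X) * pol E f i) (fun i m hm => by
        rw [hco, pol_coeff_eq_zero E f i (by push_cast; omega)]
        split_ifs with h1
        · rw [pol_coeff_eq_zero E f i (by push_cast; omega)]
          ring
        · ring)
    refine ⟨c', f', fun i => ?_⟩
    rw [hc', hf', hD i, hfac]
    ring

end H932S
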