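import Pool.Agent.H932.S.FinV2
import Pool.Agent.H932.S.Delta
import Pool.Agent.H932.S.Exact
import Pool.Agent.H932.S.Basis
import Pool.Agent.H932.S.Eval
import Pool.Agent.H932.S.Hom1
import Pool.Agent.H932.S.Hom2
import Pool.Agent.H932.S.FinMon
import Pool.Agent.H932.S.Degen
import Pool.Agent.H932.S.Change
import Pool.Agent.H932.S.Mono
import Pool.Agent.H932.S.Line0

/-!
# The step: infinitely many lines of length at least `k`
-/

open MvPolynomial H960VB H960VB.Bundle2 Y208PT Pool.Agent.H106R3.VB H932V H932W H932L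

namespace H932S

variable {n : ℕ}

/-- the length of the zero scheme on the line is at least `k` -/
def Ge (E : Bundle2 n) (s : Fin E.a → MvPolynomial (Fin (n + 1)) ℂ) (r : ℤ) (k : ℕ)
    (y w : Fin (n + 1) → ℂ) : Prop := ∃ c f, Dv E s r k y w c f

theorem Ge.change {E : Bundle2 n} {s : Fin E.a → MvPolynomial (Fin (n + 1)) ℂ} {r : ℤ}
    (hs : E.IsSection r s) {k : ℕ} {y w : Fin (n + 1) → ℂ} (h : Ge E s r k y w) {a b : ℂ}
    (ha : a ≠ 0) (hb : b ≠ 0) (σ : ℂ) : Ge E s r k (a • y) (b • w + σ • y) := by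
  obtain ⟨c, f, h⟩ := h
  obtain ⟨c', f', h', -⟩ := s_Change E s r hs k y w a b σ ha hb c f h
  exact ⟨c', f', h'⟩

theorem Ge.mono {E : Bundle2 n} {s : Fin E.a → MvPolynomial (Fin (n + 1)) ℂ} {r : ℤ}
    {k l : ℕ} {y w : Fin (n + 1) → ℂ} (hy : evv s y ≠ 0) (h : Ge E s r k y w) (hl : l ≤ k) :
    Ge E s r l y w := by
  induction k with
  | zero =>
    obtain rfl : l = 0 := by omega
    exact h
  | succ k ih =>
    rcases Nat.eq_or_lt_of_le hl with rfl | hlt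
    · exact h
    · obtain ⟨c, f, h⟩ := h
      exact ih (s_Mono E s r k y w c f hy h) (by omega)

theorem evv_smul_ne {E : Bundle2 n} {s : Fin E.a → MvPolynomial (Fin (n + 1)) ℂ} {r : ℤ}
    (hs : E.IsSection r s) {y : Fin (n + 1) → ℂ} (hy : evv s y ≠ 0) {a : ℂ} (ha : a ≠ 0) :
    evv s (a • y) ≠ 0 := by
  obtain ⟨i, hi⟩ := Function.ne_iff.1 hy
  refine Function.ne_iff.2 ⟨i, ?_⟩
  change eval (a • y) (s i) ≠ 0
  rcases hs.1 i with h0 | ⟨d, hd, hp⟩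
  · exfalso
    apply hi
    change eval y (s i) = 0
    rw [h0, map_zero]
  · rw [Y208PT.eval_smul_hom hp]
    exact mul_ne_zero (pow_ne_zero _ ha) hi

theorem finite_roots (e : ℕ) (he : 0 < e) (F : Set ℂ) (hF : F.Finite) :
    {z : ℂ | z ^ e ∈ F}.Finite := by
  refine hF.preimage' (f := fun t : ℂ => t ^ e) ?_
  intro r _
  refine Set.Finite.subset (((Polynomial.X ^ e - Polynomial.C r : Polynomial ℂ).roots).toFinset
    : Finset ℂ).finite_toSet ?_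
  intro t ht
  rw [Finset.mem_coe, Multiset.mem_toFinset, Polynomial.mem_roots
    (Polynomial.X_pow_sub_C_ne_zero (by omega) r)]
  have ht' : t ^ e = r := ht
  simp [ht']

/-- a point of the set from a line with a divisor of degree `k` -/
theorem Sys.exists_mem (Z : Sys n) {y w : Fin (n + 1) → ℂ} (hy : y ∈ Z.A) (hyΛ : y ∈ Z.Λ)
    (hw : w ∈ Z.Λ) (hyw : LinearIndependent ℂ ![y, w]) (h : Ge Z.E Z.s Z.r Z.k y w) :
    ∃ v ∈ Z.SS, Z.yv v = y ∧ ∃ σ : ℂ, Z.wv v = w + σ • y := by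
  obtain ⟨c, f, h⟩ := h
  obtain ⟨c', f', h', hc'⟩ := s_Change Z.E Z.s Z.r Z.hs Z.k y w 1 1 (-(c ⟨0, Z.hk⟩) / Z.k)
    one_ne_zero one_ne_zero c f h
  rw [one_smul, one_smul] at h'
  have hk0 : (Z.k : ℂ) ≠ 0 := by
    have := Z.hk
    exact_mod_cast this.ne'
  have hc0 : c' ⟨0, Z.hk⟩ = 0 := by
    rw [hc' Z.hk]
    field_simp
    ring
  refine ⟨pt y (w + (-(c ⟨0, Z.hk⟩) / Z.k) • y) c' f', ⟨hy, ?_, ?_, hc0, h'⟩, rfl, _, rfl⟩
  · exact Z.Λ.add_mem hw (Z.Λ.smul_mem _ hyΛ)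
  · rw [LinearIndependent.pair_iff] at hyw ⊢
    intro a b hab
    have h1 := hyw (a + b * (-(c ⟨0, Z.hk⟩) / Z.k)) b (by
      rw [← hab]
      change _ = a • y + b • (w + (-(c ⟨0, Z.hk⟩) / Z.k) • y)
      module)
    have h2 := h1.1
    rw [h1.2, zero_mul, add_zero] at h2
    exact ⟨h2, h1.2⟩

/-- **The step for `k ≥ 1`.** -/
theorem Sys.step (Z : Sys n) {P : Fin (n + 1) → ℂ} (hA : Z.A = Submodule.span ℂ {P}) (hP : P ≠ 0)
    (hPΛ : P ∈ Z.Λ) (e : ℕ) (he0 : 0 < e)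
    (he : 2 * (e : ℤ) = Z.N * ((Z.N : ℤ) - 1) + Z.T * ((Z.T : ℤ) - 1) - 2 * Z.K.d2)
    (Q : ℕ → Fin (n + 1) → ℂ)
    (hQ : ∀ i, Q i ∈ Z.Λ ∧ LinearIndependent ℂ ![P, Q i] ∧ Ge Z.E Z.s Z.r Z.k P (Q i))
    (hQi : ∀ i j, i ≠ j → LinearIndependent ℂ ![P, Q i, Q j]) : False := by
  classical
  have hPA : P ∈ Z.A := by
    rw [hA]
    exact Submodule.mem_span_singleton_self P
  obtain ⟨l, hl⟩ := Function.ne_iff.1 hP
  have hlA : ∀ y ∈ Z.A, y ≠ 0 → y l ≠ 0 := by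
    intro y hy hy0
    rw [hA, Submodule.mem_span_singleton] at hy
    obtain ⟨a, rfl⟩ := hy
    rw [Pi.smul_apply, smul_eq_mul]
    refine mul_ne_zero ?_ hl
    rintro rfl
    exact hy0 (zero_smul _ _)
  have hfin : ∀ i, ((Z.phi l i (Z.e₁ - e) e) '' Z.SS).Finite := fun i =>
    Z.finite_values s_Exact s_Basis s_Eval s_Degen s_Hom1 s_Hom2 s_FinMon l i (Z.e₁ - e) e
      (fun y hy hy0 => ⟨l, hlA y hy hy0⟩) he (by ring) (Or.inr hlA)
  choose v hv hvy σ hvw using fun q => Z.exists_mem hPA hPΛ (hQ q).1 (hQ q).2.1 (hQ q).2.2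
  have hw0 : ∀ q, ∃ i, Z.wv (v q) i ≠ 0 := fun q => Function.ne_iff.1 ((hv q).2.2.1.ne_zero 1)
  choose ii hii using hw0
  obtain ⟨i₀, hi₀⟩ := Finite.exists_infinite_fiber ii
  -- normalise
  let v' : ℕ → Z.V → ℂ := fun q i => ((Z.wv (v q) i₀)⁻¹) ^ Z.wt₂ i * v q i
  have hne : ∀ q ∈ ii ⁻¹' {i₀}, Z.wv (v q) i₀ ≠ 0 := by
    intro q hq
    have h1 := hii q
    have h2 : ii q = i₀ := hq
    rwa [h2] at h1
  have hv' : ∀ q ∈ ii ⁻¹' {i₀}, v' q ∈ Z.SS := fun q hq =>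
    Z.act2_mem (hv q) (inv_ne_zero (hne q hq))
  have hv'w : ∀ q, Z.wv (v' q) = (Z.wv (v q) i₀)⁻¹ • Z.wv (v q) := fun q => Z.act2_w _ _
  have hv'y : ∀ q, Z.yv (v' q) = P := fun q => (Z.act2_y _ _).trans (hvy q)
  have hv'1 : ∀ q ∈ ii ⁻¹' {i₀}, Z.wv (v' q) i₀ = 1 := by
    intro q hq
    rw [hv'w, Pi.smul_apply, smul_eq_mul]
    exact inv_mul_cancel₀ (hne q hq)
  -- the finite set of the second points
  let F : Fin (n + 1) → Set ℂ := fun i => (Z.phi l i (Z.e₁ - e) e) '' Z.SS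
  let B : Fin (n + 1) → Set ℂ := fun i => {z | z ^ e ∈ Set.image2 (fun a b => a / b) (F i) (F i₀)}
  have hB : ∀ i, (B i).Finite := fun i => finite_roots e he0 _ ((hfin i).image2 _ (hfin i₀))
  have hBpi : (Set.pi Set.univ B).Finite := Set.Finite.pi' (fun i => hB i) |>.subset (by
    intro x hx i
    exact hx i trivial)
  have hmem : ∀ q ∈ ii ⁻¹' {i₀}, Z.wv (v' q) ∈ Set.pi Set.univ B := by
    intro q hq i _
    have hS := hv' q hq
    refine ⟨_, ⟨_, hS, rfl⟩, _, ⟨_, hS, rfl⟩, ?_⟩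
    have h1 : Z.kp (v' q) ≠ 0 := Z.kap_ne hS.1 (hS.2.2.1.ne_zero 0)
      (Z.kp_spec (Z.kap_exists s_Exact s_Basis s_Eval hS))
    have h2 : v' q (Sum.inl (Sum.inl l)) ≠ 0 := hlA _ hS.1 (hS.2.2.1.ne_zero 0)
    have h3 : v' q (Sum.inl (Sum.inr i₀)) = 1 := hv'1 q hq
    change Z.phi l i (Z.e₁ - e) e (v' q) / Z.phi l i₀ (Z.e₁ - e) e (v' q) =
      (v' q (Sum.inl (Sum.inr i))) ^ e
    simp only [Sys.phi]
    rw [h3, one_pow, mul_one]
    have h4 : v' q (Sum.inl (Sum.inl l)) ^ (Z.e₁ - (e : ℤ)) ≠ 0 := zpow_ne_zero _ h2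
    field_simp
  have hinf : (ii ⁻¹' {i₀}).Infinite := Set.infinite_coe_iff.1 hi₀
  obtain ⟨q, hq, q', hq', hne', heq⟩ := hinf.exists_ne_map_eq_of_mapsTo
    (f := fun q => Z.wv (v' q)) hmem hBpi
  have h1 := hQi q q' hne'
  have h2 : (Z.wv (v q) i₀)⁻¹ • (Q q + σ q • P) = (Z.wv (v q') i₀)⁻¹ • (Q q' + σ q' • P) := by
    have h3 : Z.wv (v' q) = Z.wv (v' q') := heq
    rw [hv'w, hv'w, hvw, hvw] at h3
    rw [hvw, hvw]
    exact h3
  rw [Fintype.linearIndependent_iff] at h1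
  have h3 := h1 ![(Z.wv (v q) i₀)⁻¹ * σ q - (Z.wv (v q') i₀)⁻¹ * σ q', (Z.wv (v q) i₀)⁻¹,
    -(Z.wv (v q') i₀)⁻¹] (by
      rw [Fin.sum_univ_three]
      simp only [Matrix.cons_val_zero, Matrix.cons_val_one, Matrix.cons_val]
      have h4 := sub_eq_zero.2 h2
      rw [← h4]
      module) 1
  simp only [Matrix.cons_val_one, Matrix.cons_val_zero] at h3
  exact inv_ne_zero (hne q hq) h3

end H932S
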