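import Pool.Agent.H932.S.Base
import Pool.Agent.H932.L.Pencil
import Pool.Agent.H932.W.Curve3

/-!
# Multisecant lines of zero schemes of sections: the polynomials and the statements
-/

open MvPolynomial H960VB H960VB.Bundle2 Y208PT Pool.Agent.H106R3.VB H932V H932W H932L

namespace H932S

variable {n : ℕ}

/-- a Plücker vector of the fibres (`c₁` is the first Chern class) -/
structure Dl (E : Bundle2 n) (c₁ : ℤ) where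
  δ : (Fin 2 → Fin E.a) → MvPolynomial (Fin (n + 1)) ℂ
  ne : ∀ x : Fin (n + 1) → ℂ, x ≠ 0 → ∃ J, eval x (δ J) ≠ 0
  wed : ∀ x : Fin (n + 1) → ℂ, x ≠ 0 → ∀ u ∈ E.fib x, ∀ v ∈ E.fib x, ∃ κ : ℂ, ∀ J,
    u (J 0) * v (J 1) - u (J 1) * v (J 0) = κ * eval x (δ J)
  hom : ∀ J, HomZ (δ J) (E.β (J 0) + E.β (J 1) - c₁)

/-- the variables: two points, the coefficients of the divisor, the quotient -/
abbrev Sg (E : Bundle2 n) (r : ℤ) (k : ℕ) : Type := V2 n ⊕ (Fin k ⊕ Idx E.β (r - k))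

/-- the point with the given coordinates -/
def pt {E : Bundle2 n} {r : ℤ} {k : ℕ} (y w : Fin (n + 1) → ℂ) (c : Fin k → ℂ)
    (f : Idx E.β (r - k) → ℂ) : Sg E r k → ℂ := Sum.elim (Sum.elim y w) (Sum.elim c f)

/-- the coefficient of order `l` of the quotient -/
noncomputable def fv (E : Bundle2 n) (r : ℤ) (k : ℕ) (i : Fin E.a) (l : ℕ) :
    MvPolynomial (Sg E r k) ℂ :=
  if h : l < (E.β i + (r - k) + 1).toNat then X (Sum.inr (Sum.inr ⟨i, ⟨l, h⟩⟩)) else 0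

/-- the rows: `N` coefficients of the coordinate `x` of a section, and `T` coefficients of the
coordinate `J₂` of the wedge product of a section with the quotient -/
noncomputable def rho (E : Bundle2 n) (r : ℤ) (k : ℕ) (j : ℤ) (N T : ℕ) (J₂ : Fin 2 → Fin E.a)
    (x : Fin E.a) : Fin N ⊕ Fin T → Idx E.β j → MvPolynomial (Sg E r k) ℂ :=
  Sum.elim (fun b z => if z.1 = x ∧ (z.2 : ℕ) = (b : ℕ) then 1 else 0)
    (fun m z => if (z.2 : ℕ) ≤ (m : ℕ) then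
      (if z.1 = J₂ 0 then fv E r k (J₂ 1) ((m : ℕ) - (z.2 : ℕ)) else 0) -
      (if z.1 = J₂ 1 then fv E r k (J₂ 0) ((m : ℕ) - (z.2 : ℕ)) else 0) else 0)

/-- the comparison polynomials -/
noncomputable def RR (E : Bundle2 n) (r : ℤ) (k : ℕ) {j : ℤ} {N T : ℕ} (K : PlkL E j (N + T))
    (J₂ : Fin 2 → Fin E.a) (x : Fin E.a) : MvPolynomial (Sg E r k) ℂ :=
  ∑ J : Fin (N + T) → Idx E.β j,
    (∏ t, rho E r k j N T J₂ x (finSumFinEquiv.symm t) (J t)) * rename Sum.inl (K.pi J)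

/-- `f` vanishes nowhere on the line, the point at infinity included -/
def NZ (E : Bundle2 n) {j' : ℤ} (f : Idx E.β j' → ℂ) : Prop :=
  (∀ t : ℂ, ∃ i, (pol E f i).eval t ≠ 0) ∧
    ∃ i, 0 ≤ E.β i + j' ∧ (pol E f i).coeff (E.β i + j').toNat ≠ 0

/-! ### The statements -/

/-- existence of the Plücker vector of the fibres -/
def S_Delta : Prop := ∀ {n : ℕ} (_ : 1 ≤ n) (E : Bundle2 n) (c₁ : ℤ)
  (_ : ∀ A B : Fin (n + 1) → ℂ, LinearIndependent ℂ ![A, B] →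
      ∀ a b : ℤ, E.SplitsOn A B a b → a + b = c₁), Nonempty (Dl E c₁)

/-- if there is no divisor of degree `k + 1` then the quotient has no zero -/
def S_Exact : Prop := ∀ {n : ℕ} (E : Bundle2 n) (s : Fin E.a → MvPolynomial (Fin (n + 1)) ℂ)
  (r : ℤ) (k : ℕ) (y w : Fin (n + 1) → ℂ) (c : Fin k → ℂ) (f : Idx E.β (r - k) → ℂ)
  (_ : evv s y ≠ 0) (_ : Dv E s r k y w c f) (_ : ∀ c' f', ¬ Dv E s r (k + 1) y w c' f'), NZ E f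

/-- the basis of the sections -/
def S_Basis : Prop := ∀ {n : ℕ} (E : Bundle2 n) (c₁ : ℤ) (D : Dl E c₁) (r : ℤ) (k : ℕ) (j : ℤ)
  (N T : ℕ) (_ : (N : ℤ) = j - r + k + 1) (_ : (T : ℤ) = c₁ + j + r - k + 1)
  (y w : Fin (n + 1) → ℂ) (_ : Ok E j (N + T) y w) (f : Idx E.β (r - k) → ℂ)
  (_ : Kr E (r - k) y w f) (_ : NZ E f),
  ∃ v : Fin T → Idx E.β j → ℂ, (∀ m, Kr E j y w (v m)) ∧
    ∀ (m : Fin T) (J : Fin 2 → Fin E.a),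
      pol E (v m) (J 0) * pol E f (J 1) - pol E (v m) (J 1) * pol E f (J 0) =
        Polynomial.X ^ (m : ℕ) * lp y w (D.δ J)

/-- the value of the comparison polynomials -/
def S_Eval : Prop := ∀ {n : ℕ} (E : Bundle2 n) (s : Fin E.a → MvPolynomial (Fin (n + 1)) ℂ)
  (c₁ : ℤ) (D : Dl E c₁) (r : ℤ) (k : ℕ) (j : ℤ) (N T : ℕ) (_ : (N : ℤ) = j - r + k + 1)
  (K : PlkL E j (N + T)) (y w : Fin (n + 1) → ℂ) (_ : Ok E j (N + T) y w)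
  (c : Fin k → ℂ) (f : Idx E.β (r - k) → ℂ)
  (_ : Kr E (r - k) y w f) (_ : Dv E s r k y w c f)
  (v : Fin T → Idx E.β j → ℂ) (_ : ∀ m, Kr E j y w (v m))
  (_ : ∀ (m : Fin T) (J : Fin 2 → Fin E.a),
      pol E (v m) (J 0) * pol E f (J 1) - pol E (v m) (J 1) * pol E f (J 0) =
        Polynomial.X ^ (m : ℕ) * lp y w (D.δ J)),
  ∃ κ : ℂ, ∀ (J₂ : Fin 2 → Fin E.a) (x : Fin E.a),
    (eval y (s x)) ^ N * (eval y (D.δ J₂)) ^ T = κ * eval (pt y w c f) (RR E r k K J₂ x)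

/-- the first scaling -/
def S_Hom1 : Prop := ∀ {n : ℕ} (E : Bundle2 n) (r : ℤ) (k : ℕ) (j : ℤ) (N T : ℕ)
  (K : PlkL E j (N + T)) (J₂ : Fin 2 → Fin E.a) (x : Fin E.a) (y w : Fin (n + 1) → ℂ)
  (c : Fin k → ℂ) (f : Idx E.β (r - k) → ℂ) (t : ℂ) (_ : t ≠ 0),
  eval (pt (t • y) (t • w) c (fun z => t ^ (E.β z.1 + r) * f z)) (RR E r k K J₂ x) =
    t ^ (N * (E.β x + j) + T * (E.β (J₂ 0) + E.β (J₂ 1) + r + j) - K.d1 - K.d2) *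
      eval (pt y w c f) (RR E r k K J₂ x)

/-- the second scaling -/
def S_Hom2 : Prop := ∀ {n : ℕ} (E : Bundle2 n) (r : ℤ) (k : ℕ) (j : ℤ) (N T : ℕ)
  (K : PlkL E j (N + T)) (J₂ : Fin 2 → Fin E.a) (x : Fin E.a) (y w : Fin (n + 1) → ℂ)
  (c c' : Fin k → ℂ) (f : Idx E.β (r - k) → ℂ) (t : ℂ) (_ : t ≠ 0) (e : ℤ)
  (_ : 2 * e = N * ((N : ℤ) - 1) + T * ((T : ℤ) - 1) - 2 * K.d2),
  eval (pt y (t • w) c' (fun z => t ^ (z.2 : ℕ) * f z)) (RR E r k K J₂ x) =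
    t ^ e * eval (pt y w c f) (RR E r k K J₂ x)

/-- finiteness of the values of a function, for two gradings -/
def S_FinMon : Prop := ∀ {σ : Type} [Fintype σ] (wt₁ wt₂ : σ → ℕ)
  (_ : ∀ i, 0 < wt₁ i + wt₂ i) (S : Set (σ → ℂ)) (φ : (σ → ℂ) → ℂ)
  (_ : ∀ x ∈ S, ∀ t : ℂ, t ≠ 0 → (fun i => t ^ wt₁ i * x i) ∈ S ∧
    φ (fun i => t ^ wt₁ i * x i) = φ x)
  (_ : ∀ x ∈ S, ∀ t : ℂ, t ≠ 0 → (fun i => t ^ wt₂ i * x i) ∈ S ∧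
    φ (fun i => t ^ wt₂ i * x i) = φ x)
  (_ : ∀ v : σ → ℂ, (∀ p ∈ den S φ, eval v p = 0) →
    (∀ i, wt₂ i = 0 → v i = 0) ∨ (∀ i, 0 < wt₂ i → v i = 0))
  (_ : ∀ x ∈ S, (∃ l, wt₁ l = 1 ∧ wt₂ l = 0 ∧ x l ≠ 0) ∧ (∃ i, wt₁ i = 1 ∧ wt₂ i = 1 ∧ x i ≠ 0)),
  (φ '' S).Finite

/-- the count of the lengths in a pencil -/
def S_Pencil : Prop := ∀ {n : ℕ} (E : Bundle2 n) (s : Fin E.a → MvPolynomial (Fin (n + 1)) ℂ)
  (c₁ : ℤ) (_ : Dl E c₁) (r : ℤ) (_ : E.IsSection r s) (j : ℤ) (N T : ℕ)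
  (_ : (N : ℤ) = j - r + 1) (_ : (T : ℤ) = c₁ + j + r + 1) (_ : 1 ≤ N + T)
  (P : (Fin (N + T) → Idx E.β j) → MvPolynomial (Fin (n + 1)) ℂ) (d : ℤ)
  (_ : ∀ J, HomZ (P J) (∑ s, (((J s).2 : ℕ) : ℤ) - d))
  (x₀ R S : Fin (n + 1) → ℂ) (_ : ∀ t : ℂ, Ok E j (N + T) x₀ (R + t • S))
  (_ : ∀ t : ℂ, ∀ u : Fin (N + T) → Idx E.β j → ℂ,
    (∀ s, Kr E j x₀ (R + t • S) (u s)) → ∃ κ : ℂ, ∀ J, Wd u J = κ * eval (R + t • S) (P J))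
  (_ : evv s x₀ ≠ 0) (t₁ : ℂ) (_ : ∀ c f, ¬ Dv E s r 1 x₀ (R + t₁ • S) c f)
  (F : Finset ℂ) (h : ℂ → ℕ)
  (_ : ∀ t ∈ F, ∃ k, h t ≤ k ∧ ∃ c f, Dv E s r k x₀ (R + t • S) c f),
  2 * (d + ∑ t ∈ F, (h t : ℤ)) ≤ N * ((N : ℤ) - 1) + T * ((T : ℤ) - 1)

end H932S
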