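import Pool.Agent.H932.S.Stm

/-!
# Multisecant lines of zero schemes of sections: further statements
-/

open MvPolynomial H960VB H960VB.Bundle2 Y208PT Pool.Agent.H106R3.VB H932V H932W H932L

namespace H932S

variable {n : ℕ}

/-- the degenerate case: the second point is a multiple of the first one -/
def S_Degen : Prop := ∀ {n : ℕ} (E : Bundle2 n) (s : Fin E.a → MvPolynomial (Fin (n + 1)) ℂ)
  (r : ℤ) (_ : E.IsSection r s) (k : ℕ) (hk : 0 < k) (y w : Fin (n + 1) → ℂ) (lam : ℂ)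
  (_ : w = lam • y) (c : Fin k → ℂ) (f : Idx E.β (r - k) → ℂ)
  (_ : evv s y ≠ 0) (_ : Dv E s r k y w c f) (_ : c ⟨0, hk⟩ = 0),
  w = 0 ∧ c = 0 ∧ ∀ z, 0 < (z.2 : ℕ) → f z = 0

/-- change of the points of the line -/
def S_Change : Prop := ∀ {n : ℕ} (E : Bundle2 n) (s : Fin E.a → MvPolynomial (Fin (n + 1)) ℂ)
  (r : ℤ) (_ : E.IsSection r s) (k : ℕ) (y w : Fin (n + 1) → ℂ) (a b σ : ℂ)
  (_ : a ≠ 0) (_ : b ≠ 0) (c : Fin k → ℂ) (f : Idx E.β (r - k) → ℂ)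
  (_ : Dv E s r k y w c f), ∃ (c' : Fin k → ℂ) (f' : Idx E.β (r - k) → ℂ),
    Dv E s r k (a • y) (b • w + σ • y) c' f' ∧
      ∀ hk : 0 < k, c' ⟨0, hk⟩ = (b * c ⟨0, hk⟩ + k * σ) / a

/-- a smaller divisor -/
def S_Mono : Prop := ∀ {n : ℕ} (E : Bundle2 n) (s : Fin E.a → MvPolynomial (Fin (n + 1)) ℂ)
  (r : ℤ) (k : ℕ) (y w : Fin (n + 1) → ℂ) (c : Fin (k + 1) → ℂ) (f : Idx E.β (r - (k + 1 : ℕ)) → ℂ)
  (_ : evv s y ≠ 0) (_ : Dv E s r (k + 1) y w c f), ∃ c' f', Dv E s r k y w c' f'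

/-- a line through a point of a plane meets the zero scheme, if the degree is positive -/
def S_Line0 : Prop := ∀ {n : ℕ} (E : Bundle2 n) (s : Fin E.a → MvPolynomial (Fin (n + 1)) ℂ)
  (c₁ : ℤ) (_ : Dl E c₁) (r : ℤ) (_ : E.IsSection r s) (j : ℤ) (N T : ℕ)
  (_ : (N : ℤ) = j - r + 1) (_ : (T : ℤ) = c₁ + j + r + 1) (K : PlkL E j (N + T))
  (_ : ∀ y w : Fin (n + 1) → ℂ, LinearIndependent ℂ ![y, w] → Ok E j (N + T) y w)
  (_ : 2 * K.d2 < N * ((N : ℤ) - 1) + T * ((T : ℤ) - 1))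
  (y R S : Fin (n + 1) → ℂ) (_ : LinearIndependent ℂ ![y, R, S]) (_ : evv s y ≠ 0),
  ∃ a b : ℂ, LinearIndependent ℂ ![y, a • R + b • S] ∧
    ∃ c f, Dv E s r 1 y (a • R + b • S) c f

end H932S
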