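import Pool.Agent.H932.S.Count

/-!
# Multisecant lines which meet a line
-/

open MvPolynomial H960VB H960VB.Bundle2 Y208PT Pool.Agent.H106R3.VB H932V H932W H932L

namespace H932S

variable {n : ℕ}

/-- twice the second Chern class of `E(r)`, computed by the degree in the first point -/
def Aux.cc' {E : Bundle2 n} {r c₁ : ℤ} (U : Aux E r c₁) : ℤ :=
  (U.j - r + 1) * (U.j - r) + (c₁ + U.j + r + 1) * (c₁ + U.j + r) - 2 * U.K.d1

/-- The contradiction on a family of lines which meet a line. -/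
theorem Sys.two (Z : Sys n) {A₀ B₀ : Fin (n + 1) → ℂ} (hAB : LinearIndependent ℂ ![A₀, B₀])
    (hA : A₀ ∈ Z.A) (hB : B₀ ∈ Z.A) (hAΛ : A₀ ∈ Z.Λ) (hBΛ : B₀ ∈ Z.Λ) (e : ℕ)
    (he : 2 * (e : ℤ) = Z.N * ((Z.N : ℤ) - 1) + Z.T * ((Z.T : ℤ) - 1) - 2 * Z.K.d2)
    (hg : (e : ℤ) < Z.e₁)
    (hex : ∀ y ∈ Submodule.span ℂ {A₀, B₀}, y ≠ 0 → ∃ w ∈ Z.Λ, LinearIndependent ℂ ![y, w] ∧
      Ge Z.E Z.s Z.r Z.k y w) : False := by
  classical
  obtain ⟨g, hg'⟩ := Int.eq_ofNat_of_zero_le (show 0 ≤ Z.e₁ - e by omega)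
  have hg0 : 0 < g := by omega
  obtain ⟨l₀, l₁, hl⟩ := DeltaL.minor_ne hAB
  have hfin : ∀ l i, ((Z.phi l i g e) '' Z.SS).Finite := fun l i =>
    Z.finite_values s_Exact s_Basis s_Eval s_Degen s_Hom1 s_Hom2 s_FinMon l i g e
      (fun y _ hy0 => Function.ne_iff.1 hy0) he (by omega) (Or.inl (by omega))
  let y : ℂ → Fin (n + 1) → ℂ := fun t => A₀ + t • B₀
  have hy0 : ∀ t, y t ≠ 0 := by
    intro t h0
    rw [LinearIndependent.pair_iff] at hAB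
    have := (hAB 1 t (by rw [one_smul]; exact h0)).1
    exact one_ne_zero this
  have hyS : ∀ t, y t ∈ Submodule.span ℂ {A₀, B₀} := fun t =>
    Submodule.add_mem _ (Submodule.subset_span (Set.mem_insert _ _))
      (Submodule.smul_mem _ _ (Submodule.subset_span (Set.mem_insert_of_mem _ rfl)))
  choose w hw hyw hge using fun t => hex (y t) (hyS t) (hy0 t)
  choose v hv hvy σ hvw using fun t => Z.exists_mem
    (Z.A.add_mem hA (Z.A.smul_mem t hB)) (Z.Λ.add_mem hAΛ (Z.Λ.smul_mem t hBΛ)) (hw t) (hyw t)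
    (hge t)
  have hw0 : ∀ t, ∃ i, Z.wv (v t) i ≠ 0 := fun t => Function.ne_iff.1 ((hv t).2.2.1.ne_zero 1)
  choose ii hii using hw0
  obtain ⟨i₀, hi₀⟩ := Finite.exists_infinite_fiber ii
  have hinf : (ii ⁻¹' {i₀}).Infinite := Set.infinite_coe_iff.1 hi₀
  let F : Fin (n + 1) → Set ℂ := fun l => (Z.phi l i₀ g e) '' Z.SS
  have hR : {z : ℂ | z ^ g ∈ Set.image2 (fun a b => a / b) (F l₀) (F l₁)}.Finite :=
    finite_roots g hg0 _ ((hfin l₀ i₀).image2 _ (hfin l₁ i₀))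
  -- the points where the second coordinate vanishes
  have hbad : {t : ℂ | y t l₁ = 0}.Finite := by
    by_cases hB1 : B₀ l₁ = 0
    · have hA1 : A₀ l₁ ≠ 0 := by
        intro h0
        apply hl
        rw [hB1, h0]
        ring
      refine Set.Finite.subset (Set.finite_empty) ?_
      intro t ht
      have h1 : A₀ l₁ + t * B₀ l₁ = 0 := ht
      rw [hB1, mul_zero, add_zero] at h1
      exact hA1 h1
    · refine Set.Finite.subset (Set.finite_singleton (-(A₀ l₁) / B₀ l₁)) ?_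
      intro t ht
      have h1 : A₀ l₁ + t * B₀ l₁ = 0 := ht
      rw [Set.mem_singleton_iff, eq_div_iff hB1]
      linear_combination h1
  have hmaps : ∀ t ∈ ii ⁻¹' {i₀} \ {t : ℂ | y t l₁ = 0}, y t l₀ / y t l₁ ∈
      {z : ℂ | z ^ g ∈ Set.image2 (fun a b => a / b) (F l₀) (F l₁)} := by
    rintro t ⟨ht, htb⟩
    have h0 : y t l₁ ≠ 0 := htb
    refine ⟨_, ⟨_, hv t, rfl⟩, _, ⟨_, hv t, rfl⟩, ?_⟩
    have h1 : Z.kp (v t) ≠ 0 := Z.kap_ne (hv t).1 ((hv t).2.2.1.ne_zero 0)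
      (Z.kp_spec (Z.kap_exists s_Exact s_Basis s_Eval (hv t)))
    have h2 : v t (Sum.inl (Sum.inr i₀)) ≠ 0 := by
      have h3 := hii t
      have h4 : ii t = i₀ := ht
      rwa [h4] at h3
    have h5 : v t (Sum.inl (Sum.inl l₀)) = y t l₀ := congrFun (hvy t) l₀
    have h6 : v t (Sum.inl (Sum.inl l₁)) = y t l₁ := congrFun (hvy t) l₁
    change Z.phi l₀ i₀ g e (v t) / Z.phi l₁ i₀ g e (v t) = (y t l₀ / y t l₁) ^ g
    simp only [Sys.phi, zpow_natCast]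
    rw [h5, h6, div_pow]
    have h7 : y t l₁ ^ g ≠ 0 := pow_ne_zero _ h0
    field_simp
  have hinf2 : (ii ⁻¹' {i₀} \ {t : ℂ | y t l₁ = 0}).Infinite := hinf.sdiff hbad
  obtain ⟨t, ht, t', ht', hne, heq⟩ := hinf2.exists_ne_map_eq_of_mapsTo
    (f := fun t => y t l₀ / y t l₁) hmaps hR
  have h1 : y t l₁ ≠ 0 := ht.2
  have h2 : y t' l₁ ≠ 0 := ht'.2
  have h3 : y t l₀ / y t l₁ = y t' l₀ / y t' l₁ := heq
  rw [div_eq_div_iff h1 h2] at h3
  apply hne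
  have h4 : (A₀ l₀ + t * B₀ l₀) * (A₀ l₁ + t' * B₀ l₁) =
      (A₀ l₀ + t' * B₀ l₀) * (A₀ l₁ + t * B₀ l₁) := h3
  have h5 : (t - t') * (A₀ l₀ * B₀ l₁ - A₀ l₁ * B₀ l₀) = 0 := by linear_combination -h4
  rcases mul_eq_zero.1 h5 with h6 | h6
  · exact sub_eq_zero.1 h6
  · exfalso
    apply hl
    linear_combination h6

/-- **Multisecant lines which meet a line.** -/
theorem two {E : Bundle2 n} {s : Fin E.a → MvPolynomial (Fin (n + 1)) ℂ} {r : ℤ}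
    (hs : E.IsSection r s) {c₁ : ℤ} (U : Aux E r c₁)
    (hcc : (c₁ + 2 * r) * (c₁ + 2 * r) < 2 * U.cc) (m : ℕ) (hm : 2 ≤ m)
    (hcc' : 2 * (((m : ℤ) - 1) * ((m : ℤ) - 1)) < U.cc')
    (Λ : Submodule ℂ (Fin (n + 1) → ℂ)) (hΛ : Module.finrank ℂ Λ = m + 1)
    {A₀ B₀ : Fin (n + 1) → ℂ} (hAΛ : A₀ ∈ Λ) (hBΛ : B₀ ∈ Λ) (hAB : LinearIndependent ℂ ![A₀, B₀])
    (hA : ∀ y ∈ Submodule.span ℂ {A₀, B₀}, y ≠ 0 → evv s y ≠ 0) :
    ∃ P ∈ Submodule.span ℂ {A₀, B₀}, ∃ Q ∈ Λ, LinearIndependent ℂ ![P, Q] ∧ Ge E s r m P Q := by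
  classical
  by_contra hcon
  push Not at hcon
  have hsub : Submodule.span ℂ {A₀, B₀} ≤ Λ := by
    rw [Submodule.span_le]
    intro x hx
    rcases hx with rfl | hx
    · exact hAΛ
    · rw [Set.mem_singleton_iff] at hx
      rw [hx]
      exact hBΛ
  have hline : ∀ y ∈ Submodule.span ℂ {A₀, B₀}, y ≠ 0 → ∃ w ∈ Λ, LinearIndependent ℂ ![y, w] ∧
      Ge E s r (m - 1) y w := by
    intro y hy hy0
    obtain ⟨S, hS, hSk⟩ := count hs U hcc (hA y hy hy0) hy0 m (by omega) Λ (hsub hy) hΛ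
    have h1 : S ⊆ Finset.range m := by
      intro k hk
      obtain ⟨Q, hQ, hyQ, hQk⟩ := hSk k hk
      rw [Finset.mem_range]
      by_contra hkm
      exact hcon y hy Q hQ hyQ (hQk.1.mono (hA y hy hy0) (by omega))
    have h2 : S = Finset.range m := Finset.eq_of_subset_of_card_le h1 (by
      rw [Finset.card_range, hS])
    obtain ⟨Q, hQ, hyQ, hQk⟩ := hSk (m - 1) (by
      rw [h2, Finset.mem_range]
      omega)
    exact ⟨Q, hQ, hyQ, hQk.1⟩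
  have hA0 : A₀ ≠ 0 := hAB.ne_zero 0
  obtain ⟨w₀, hw₀, hyw₀, hg₀⟩ := hline A₀ (Submodule.subset_span (Set.mem_insert _ _)) hA0
  obtain ⟨i₀, hi₀⟩ := ge_bound (hA A₀ (Submodule.subset_span (Set.mem_insert _ _)) hA0) hg₀
  obtain ⟨D, j, G, hG, K, hok, hr, hβ⟩ := U
  have hβi := hβ i₀
  obtain ⟨k, rfl⟩ : ∃ k, m = k + 1 := ⟨m - 1, by omega⟩
  rw [Nat.add_sub_cancel] at hline hg₀ hi₀
  obtain ⟨N, hN⟩ := Int.eq_ofNat_of_zero_le (show 0 ≤ j - r + k + 1 by omega)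
  obtain ⟨T, hT⟩ := Int.eq_ofNat_of_zero_le (show 0 ≤ c₁ + j + r - k + 1 by omega)
  have hNT : G = N + T := by omega
  subst hNT
  have hd := num_pos _ _ (k : ℤ) hcc
  have hnum : N * ((N : ℤ) - 1) + T * ((T : ℤ) - 1) - 2 * K.d2 =
      Aux.cc ⟨D, j, N + T, hG, K, hok, hr, hβ⟩ - 2 * k * (c₁ + 2 * r) + 2 * (k * k) := by
    unfold Aux.cc
    rw [← hN, ← hT]
    ring
  have hnum' : 2 * (N * (j - r) + T * (c₁ + r + j) - K.d1 - K.d2) -
      (N * ((N : ℤ) - 1) + T * ((T : ℤ) - 1) - 2 * K.d2) =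
      Aux.cc' ⟨D, j, N + T, hG, K, hok, hr, hβ⟩ - 2 * (k * k) := by
    unfold Aux.cc'
    rw [← hN, ← hT]
    ring
  obtain ⟨q, hq⟩ : ∃ q : ℤ, N * ((N : ℤ) - 1) + T * ((T : ℤ) - 1) = 2 * q := by
    have h1 := Int.even_mul_pred_self (N : ℤ)
    have h2 := Int.even_mul_pred_self (T : ℤ)
    obtain ⟨a, ha⟩ := h1.add h2
    exact ⟨a, by rw [ha]; ring⟩
  obtain ⟨e, he⟩ := Int.eq_ofNat_of_zero_le (show 0 ≤ q - K.d2 by
    rw [← hnum, hq] at hd
    omega)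
  have he' : (e : ℤ) = q - K.d2 := he.symm
  let Z : Sys n :=
    { E := E
      s := s
      r := r
      hs := hs
      c₁ := c₁
      D := D
      j := j
      k := k
      hk := by omega
      N := N
      T := T
      hN := hN.symm
      hT := hT.symm
      K := K
      hok := hok
      A := Submodule.span ℂ {A₀, B₀}
      Λ := Λ
      hA := hA
      hno := fun y hy w hw hyw c f hcf => hcon y hy w hw hyw ⟨c, f, hcf⟩ }
  refine Z.two hAB (Submodule.subset_span (Set.mem_insert _ _))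
    (Submodule.subset_span (Set.mem_insert_of_mem _ rfl)) hAΛ hBΛ e ?_ ?_ hline
  · change 2 * (e : ℤ) = N * ((N : ℤ) - 1) + T * ((T : ℤ) - 1) - 2 * K.d2
    rw [hq, he']
    ring
  · change (e : ℤ) < N * (j - r) + T * (c₁ + r + j) - K.d1 - K.d2
    rw [hq] at hnum'
    push_cast at hcc'
    have h1 : (k : ℤ) + 1 - 1 = k := by ring
    rw [h1] at hcc'
    rw [he']
    linarith

end H932S
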